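import Pool.Agent.H74.QT.GoodSet
import Pool.Agent.H2.TW.NT
import Pool.Agent.H21.QG3.Core

/-!
Among any five admissible clusters of `K` integers there are two elements of different clusters with a good difference.
-/

set_option autoImplicit false

open Finset Filter Topology

namespace Pool.Agent.H74.QT

open Pool.Agent.H16
open Pool.Agent.H2.NC (w1 W1)
open Pool.Agent.H2.TW (nt_gen)

/-- consecutive primes in different clusters -/
theorem consec_pair {H : Fin 5 → Finset ℕ} (hdis : ∀ i j, i ≠ j → Disjoint (H i) (H j)) {n : ℕ}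
    (h1 : ∃ i j, i ≠ j ∧ (∃ τ ∈ H i, (n + τ).Prime) ∧ ∃ τ ∈ H j, (n + τ).Prime)
    (h2 : ∀ u ≤ (Finset.univ.biUnion H).sup id, u ∉ Finset.univ.biUnion H → ¬ (n + u).Prime) :
    ∃ i j, i ≠ j ∧ ∃ τ ∈ H i, ∃ τ' ∈ H j, τ < τ' ∧ Consec (n + τ) (τ' - τ) := by
  classical
  have hex : ∃ d, ∃ i j, i ≠ j ∧ ∃ τ ∈ H i, ∃ τ' ∈ H j, τ < τ' ∧ τ' - τ = d ∧ (n + τ).Prime ∧ (n + τ').Prime := by
    obtain ⟨i, j, hij, ⟨τ, hτ, hp⟩, τ', hτ', hp'⟩ := h1
    rcases lt_trichotomy τ τ' with h | h | h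
    · exact ⟨_, i, j, hij, τ, hτ, τ', hτ', h, rfl, hp, hp'⟩
    · exact absurd hτ' (h ▸ (Finset.disjoint_left.mp (hdis i j hij)) hτ)
    · exact ⟨_, j, i, hij.symm, τ', hτ', τ, hτ, h, rfl, hp', hp⟩
  obtain ⟨i, j, hij, τ, hτ, τ', hτ', hlt, hd, hp, hp'⟩ := Nat.find_spec hex
  refine ⟨i, j, hij, τ, hτ, τ', hτ', hlt, by omega, hp, by rwa [show n + τ + (τ' - τ) = n + τ' by omega], ?_⟩
  intro m hm1 hm2 hm
  have hmU : m - n ∈ Finset.univ.biUnion H := by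
    by_contra hcon
    have h5 : τ' ≤ (Finset.univ.biUnion H).sup id :=
      Finset.le_sup (f := id) (Finset.mem_biUnion.mpr ⟨j, Finset.mem_univ _, hτ'⟩)
    apply h2 (m - n) (by omega) hcon
    rwa [Nat.add_sub_cancel' (by omega)]
  obtain ⟨l, _, hl⟩ := Finset.mem_biUnion.mp hmU
  have hmp : (n + (m - n)).Prime := by rwa [Nat.add_sub_cancel' (by omega)]
  by_cases hli : l = i
  · have hlj : l ≠ j := hli ▸ hij
    have h6 := Nat.find_min hex (m := τ' - (m - n)) (by omega)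
    exact h6 ⟨l, j, hlj, m - n, hl, τ', hτ', by omega, rfl, hmp, hp'⟩
  · have h6 := Nat.find_min hex (m := (m - n) - τ) (by omega)
    exact h6 ⟨i, l, fun h => hli h.symm, τ, hτ, m - n, hl, by omega, rfl, hp, hmp⟩

/-- progressions of length `l` with constant `C`, beyond every bound -/
def GoodL (l C t : ℕ) : Prop := ∀ N : ℕ, ∃ a b : ℕ, N ≤ a ∧ 1 ≤ b ∧
  (b : ℝ) ≤ (Real.log a) ^ C ∧ ∀ j < l, Consec (a + j * b) t

theorem GoodL_mono {l l' C t : ℕ} (hl : l' ≤ l) (h : GoodL l C t) : GoodL l' C t := by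
  intro N
  obtain ⟨a, b, h1, h2, h3, h4⟩ := h N
  exact ⟨a, b, h1, h2, h3, fun j hj => h4 j (hj.trans_le hl)⟩

theorem W1_ge4 : ∀ᶠ ℓ : ℝ in atTop, ∀ e : ℕ, 4 ≤ W1 ℓ e := by
  have tw1 : Tendsto (fun ℓ : ℝ => w1 ℓ) atTop atTop := by
    unfold w1
    exact tendsto_nat_floor_atTop.comp Real.tendsto_log_atTop
  filter_upwards [tw1.eventually (eventually_ge_atTop 5)] with ℓ hℓ e
  have hpos := Pool.Agent.H2.NC.W1_pos ℓ e
  have key : ∀ p q : ℕ, p.Prime → q.Prime → p ≠ q → p ≤ 5 → q ≤ 5 → p ≠ e → q ≠ e → p * q ∣ W1 ℓ e := by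
    intro p q hp hq hpq h1 h2 h3 h4
    apply Nat.Coprime.mul_dvd_of_dvd_of_dvd ((Nat.coprime_primes hp hq).mpr hpq)
    · exact (Pool.Agent.H2.NC.prime_dvd_W1 hp).mpr ⟨h1.trans hℓ, h3⟩
    · exact (Pool.Agent.H2.NC.prime_dvd_W1 hq).mpr ⟨h2.trans hℓ, h4⟩
  by_cases h2 : e = 2
  · have := Nat.le_of_dvd hpos (key 3 5 (by norm_num) (by norm_num) (by norm_num) (by norm_num) (by norm_num)
      (by omega) (by omega))
    omega
  · by_cases h3 : e = 3
    · have := Nat.le_of_dvd hpos (key 2 5 (by norm_num) (by norm_num) (by norm_num) (by norm_num) (by norm_num)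
        (by omega) (by omega))
      omega
    · have := Nat.le_of_dvd hpos (key 2 3 (by norm_num) (by norm_num) (by norm_num) (by norm_num) (by norm_num)
        (by omega) (by omega))
      omega

theorem log_pow_bound (A : ℕ) : ∀ᶠ ℓ : ℝ in atTop, ℓ ^ 2 * ℓ ^ A ≤ (ℓ / 3) ^ (A + 3) := by
  filter_upwards [eventually_ge_atTop ((3 : ℝ) ^ (A + 3)), eventually_ge_atTop (1 : ℝ)] with ℓ h1 h2
  rw [div_pow, le_div_iff₀ (by positivity)]
  calc ℓ ^ 2 * ℓ ^ A * 3 ^ (A + 3) ≤ ℓ ^ 2 * ℓ ^ A * ℓ := mul_le_mul_of_nonneg_left h1 (by positivity)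
    _ = ℓ ^ (A + 3) := by ring

theorem cluster_ap : ∃ K : ℕ, 0 < K ∧ ∀ B : ℕ, Pool.Agent.H21.QG3.FC K B Good := by
  classical
  obtain ⟨K, hK, δ, α, hδ, hα, hGS⟩ := good_set
  obtain ⟨c0, hc0, hcV0⟩ := Vp_ge
  set c : ℝ := min c0 1 with hcdef
  have hc : 0 < c := by positivity
  have hcV : ∀ n : ℕ, 2 ≤ n → c / Real.log n ≤ Vp n := by
    intro n hn
    refine le_trans ?_ (hcV0 n hn)
    have : 0 ≤ Real.log n := Real.log_natCast_nonneg n
    exact div_le_div_of_nonneg_right (min_le_left _ _) this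
  refine ⟨K, hK, fun B H hH hdisj hadm _ => ?_⟩
  set T : Finset ℕ := Finset.univ.biUnion H with hT
  have hTcard : #T = 5 * K := by
    rw [hT, Finset.card_biUnion (fun i _ j _ hij => hdisj i j hij)]
    simp [hH]
  have hTne : T.Nonempty := by
    rw [← Finset.card_pos, hTcard]
    omega
  have hadm' : ∀ p, p.Prime → ∃ r, ∀ i, ∀ τ ∈ H i, r % p ≠ τ % p := by
    intro p hp
    obtain ⟨r, hr⟩ := hadm p hp
    exact ⟨r, fun i τ hτ h => hr i τ hτ h.symm⟩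
  have hgs := hGS H hH hdisj hadm'
  -- the good pairs
  set PP : Finset (ℕ × ℕ) := (T ×ˢ T).filter (fun q => ∃ i j, i ≠ j ∧ q.1 ∈ H i ∧ q.2 ∈ H j ∧ q.1 < q.2) with hPP
  have hPPcard : (#PP : ℝ) ≤ (5 * (K : ℝ)) ^ 2 := by
    have h1 : #PP ≤ #(T ×ˢ T) := Finset.card_filter_le _ _
    rw [Finset.card_product, hTcard] at h1
    have h2 : (#PP : ℝ) ≤ ((5 * K * (5 * K) : ℕ) : ℝ) := by exact_mod_cast h1
    refine h2.trans (le_of_eq ?_)
    push_cast
    ring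
  have hK0 : (0 : ℝ) < K := by exact_mod_cast hK
  -- for every length: a constant and infinitely many progressions for some pair
  have hmain : ∀ l : ℕ, ∃ C : ℕ, ∀ N : ℕ, ∃ q ∈ PP, ∃ a b : ℕ, N ≤ a ∧ 1 ≤ b ∧
      (b : ℝ) ≤ (Real.log a) ^ C ∧ ∀ j < l, Consec (a + j * b) (q.2 - q.1) := by
    intro l
    set κ := max l 2 with hκ
    have hκ2 : 2 ≤ κ := le_max_right _ _
    set δ' : ℝ := α * c ^ (5 * K) / (5 * K) ^ 2 with hδ'
    have hδ'0 : 0 < δ' := by positivity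
    obtain ⟨A, c1, hc1, hnt⟩ := nt_gen κ hκ2 T hTne δ' δ hδ'0 hδ
    refine ⟨A + 3, fun N => ?_⟩
    have hexpN : ∀ᶠ ℓ : ℝ in atTop, (N : ℝ) ≤ Real.exp (ℓ / 3) := by
      have : Tendsto (fun ℓ : ℝ => Real.exp (ℓ / 3)) atTop atTop :=
        Real.tendsto_exp_atTop.comp (tendsto_id.atTop_div_const (by norm_num))
      exact this.eventually (eventually_ge_atTop (N : ℝ))
    obtain ⟨ℓ, hgsℓ, hntℓ, hW4, hW2, hWe, F, hNℓ, hlog⟩ := (hgs.and (hnt.and (W1_ge4.and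
      (Pool.Agent.H2.NC.W1_le.and ((ev_WW (1 / 10) (by norm_num)).and ((ev_MW 1 1 one_pos one_pos c hc).and
        (hexpN.and (log_pow_bound A)))))))).exists
    obtain ⟨e, A0, hA0, hcard⟩ := hgsℓ
    have hℓ0 := F.ℓ0
    have hℓbig := F.ℓbig
    set x := Real.exp ℓ with hx
    have hx0 : 0 < x := Real.exp_pos _
    set W := WW (w1 ℓ) e with hW
    have hWW : W1 ℓ e = W := W1_eq ℓ e
    have hWpos : 0 < W := WW_pos _ _
    have hWr : (0 : ℝ) < W := by exact_mod_cast hWpos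
    set L := Real.log (w1 ℓ) with hL
    have hLpos : 0 < L := by linarith [F.z1]
    have hφpos : (0 : ℝ) < (W.totient : ℝ) := by exact_mod_cast Nat.totient_pos.mpr hWpos
    set Gs := GS ℓ δ e A0 H with hGs
    -- pigeonhole
    have hpair : ∀ ν ∈ Gs, ∃ q ∈ PP, Consec (ν + q.1) (q.2 - q.1) := by
      intro ν hν
      rw [hGs] at hν
      unfold GS at hν
      rw [Finset.mem_filter] at hν
      obtain ⟨_, _, _, h1, h2, _⟩ := hν
      obtain ⟨i, j, hij, τ, hτ, τ', hτ', hlt, hcs⟩ := consec_pair hdisj h1 h2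
      refine ⟨(τ, τ'), ?_, hcs⟩
      rw [hPP, Finset.mem_filter, Finset.mem_product]
      refine ⟨⟨?_, ?_⟩, i, j, hij, hτ, hτ', hlt⟩
      · exact Finset.mem_biUnion.mpr ⟨i, Finset.mem_univ _, hτ⟩
      · exact Finset.mem_biUnion.mpr ⟨j, Finset.mem_univ _, hτ'⟩
    set X : ℝ := α * (x / W) * (L / ℓ) ^ (5 * K) with hX
    have hXpos : 0 < X := by positivity
    have hpig : ∃ q ∈ PP, X / (5 * K) ^ 2 ≤ #(Gs.filter (fun ν => Consec (ν + q.1) (q.2 - q.1))) := by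
      by_contra hcon
      push Not at hcon
      have hsub : Gs ⊆ PP.biUnion (fun q => Gs.filter (fun ν => Consec (ν + q.1) (q.2 - q.1))) := by
        intro ν hν
        obtain ⟨q, hq, hqc⟩ := hpair ν hν
        exact Finset.mem_biUnion.mpr ⟨q, hq, Finset.mem_filter.mpr ⟨hν, hqc⟩⟩
      have h1 : (#Gs : ℝ) ≤ ∑ q ∈ PP, (#(Gs.filter (fun ν => Consec (ν + q.1) (q.2 - q.1))) : ℝ) := by
        have h2 := (Finset.card_le_card hsub).trans Finset.card_biUnion_le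
        exact_mod_cast h2
      have hPPne : PP.Nonempty := by
        have h3 : 0 < #Gs := by
          have : (0 : ℝ) < #Gs := lt_of_lt_of_le hXpos hcard
          exact_mod_cast this
        obtain ⟨ν, hν⟩ := Finset.card_pos.mp h3
        obtain ⟨q, hq, _⟩ := hpair ν hν
        exact ⟨q, hq⟩
      have h4 : ∑ q ∈ PP, (#(Gs.filter (fun ν => Consec (ν + q.1) (q.2 - q.1))) : ℝ) <
          ∑ _q ∈ PP, X / (5 * K) ^ 2 := Finset.sum_lt_sum_of_nonempty hPPne hcon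
      rw [Finset.sum_const, nsmul_eq_mul] at h4
      have h5 : (#PP : ℝ) * (X / (5 * K) ^ 2) ≤ (5 * (K : ℝ)) ^ 2 * (X / (5 * K) ^ 2) :=
        mul_le_mul_of_nonneg_right hPPcard (by positivity)
      have h6 : (5 * (K : ℝ)) ^ 2 * (X / (5 * K) ^ 2) = X := by field_simp
      have h7 : X ≤ #Gs := hcard
      linarith
    obtain ⟨q, hq, hqS⟩ := hpig
    set S := Gs.filter (fun ν => Consec (ν + q.1) (q.2 - q.1)) with hS
    have hSG : ∀ ν ∈ S, ν ∈ Gs ∧ Consec (ν + q.1) (q.2 - q.1) := fun ν hν => Finset.mem_filter.mp hν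
    have hGmem : ∀ ν ∈ Gs, (0 < ν ∧ ν ≤ ⌊x⌋₊) ∧ ν ≡ A0 [MOD W] ∧ Real.exp (ℓ / 3) ≤ ν ∧
        ∀ i, ∀ τ ∈ H i, ∀ p, p.Prime → p ∣ ν + τ → Real.exp (δ * ℓ) < p ∨ (p = e ∧ p ≤ w1 ℓ) := by
      intro ν hν
      rw [hGs] at hν
      unfold GS at hν
      rw [Finset.mem_filter, Finset.mem_Ioc] at hν
      exact ⟨hν.1, hν.2.1, hν.2.2.1, hν.2.2.2.2.2⟩
    -- the engine
    have hphi : c * W ≤ (W.totient : ℝ) * L := F.phi_ge hcV e
    have hratio : ((W1 ℓ e : ℝ) / (((W1 ℓ e).totient : ℕ) * ℓ)) ^ #T ≤ (L / ℓ) ^ (5 * K) / c ^ (5 * K) := by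
      rw [hTcard, ← div_pow, hWW]
      apply pow_le_pow_left₀ (by positivity)
      rw [div_div, div_le_div_iff₀ (by positivity) (by positivity)]
      calc (W : ℝ) * (ℓ * c) = (c * W) * ℓ := by ring
        _ ≤ ((W.totient : ℝ) * L) * ℓ := mul_le_mul_of_nonneg_right hphi hℓ0.le
        _ = L * (((W.totient : ℕ) : ℝ) * ℓ) := by ring
    have hE4 : 4 * (x / W) ≤ x := by
      have h4 : (4 : ℝ) ≤ W := by
        have := hW4 e
        rw [hWW] at this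
        exact_mod_cast this
      rw [← mul_div_assoc, div_le_iff₀ hWr]
      calc 4 * x ≤ W * x := mul_le_mul_of_nonneg_right h4 hx0.le
        _ = x * W := by ring
    have hElow : Real.exp (3 / 4 * ℓ) ≤ x / W := by
      rw [le_div_iff₀ hWr]
      have h5 : (W : ℝ) ≤ Real.exp (1 / 10 * ℓ) := (hWe e).2
      calc Real.exp (3 / 4 * ℓ) * W ≤ Real.exp (3 / 4 * ℓ) * Real.exp (1 / 10 * ℓ) :=
            mul_le_mul_of_nonneg_left h5 (Real.exp_pos _).le
        _ = Real.exp (3 / 4 * ℓ + 1 / 10 * ℓ) := (Real.exp_add _ _).symm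
        _ ≤ x := Real.exp_le_exp.mpr (by linarith)
    have hres := hntℓ e A0 (x / W) hElow hE4 S (by
      intro ν hν
      obtain ⟨hνG, _⟩ := hSG ν hν
      obtain ⟨h1, h2, h3, h4⟩ := hGmem ν hνG
      refine ⟨h1.1, ?_, by rw [hWW]; exact h2, ?_⟩
      · rw [hWW, mul_div_cancel₀ _ hWr.ne']
        exact (Nat.le_floor_iff hx0.le).mp h1.2
      · intro τ hτ p hp hwp hpe hd
        rw [hT, Finset.mem_biUnion] at hτ
        obtain ⟨i, _, hi⟩ := hτ
        rcases h4 i τ hi p hp hd with h5 | h5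
        · exact absurd hpe (not_le.mpr h5)
        · omega) (by
      refine le_trans ?_ hqS
      have hxW : 0 ≤ x / W := by positivity
      calc δ' * (x / W * ((W1 ℓ e : ℝ) / (((W1 ℓ e).totient : ℕ) * ℓ)) ^ #T)
          ≤ δ' * (x / W * ((L / ℓ) ^ (5 * K) / c ^ (5 * K))) := by
            apply mul_le_mul_of_nonneg_left _ hδ'0.le
            exact mul_le_mul_of_nonneg_left hratio hxW
        _ = X / (5 * K) ^ 2 := by
            rw [hδ', hX]
            field_simp)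
    have hpos : 0 < c1 * (x / W * ((W1 ℓ e : ℝ) / (((W1 ℓ e).totient : ℕ) * ℓ)) ^ #T) := by
      rw [hWW]
      positivity
    have hcard2 := lt_of_lt_of_le hpos hres
    have hcard3 : 0 < #(S.filter (fun n => ∃ d : ℕ, 1 ≤ d ∧ (d : ℝ) ≤ ℓ ^ A ∧
          ∀ j ∈ range κ, n + j * (W1 ℓ e * d) ∈ S)) := by exact_mod_cast hcard2
    obtain ⟨ν, hν⟩ := Finset.card_pos.mp hcard3
    rw [Finset.mem_filter] at hν
    obtain ⟨hνS, d, hd1, hdA, hdj⟩ := hν
    obtain ⟨hνG, _⟩ := hSG ν hνS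
    obtain ⟨h1, h2, h3, h4⟩ := hGmem ν hνG
    refine ⟨q, hq, ν + q.1, W1 ℓ e * d, ?_, ?_, ?_, ?_⟩
    · have h5 : (N : ℝ) ≤ ν := hNℓ.trans h3
      have h6 : N ≤ ν := by exact_mod_cast h5
      omega
    · rw [hWW]
      exact Nat.mul_pos hWpos hd1
    · have h5 : ℓ / 3 ≤ Real.log ((ν + q.1 : ℕ) : ℝ) := by
        rw [Real.le_log_iff_exp_le]
        · refine h3.trans ?_
          push_cast
          linarith [Nat.cast_nonneg (α := ℝ) q.1]
        · have : 0 < ν + q.1 := by omega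
          exact_mod_cast this
      calc ((W1 ℓ e * d : ℕ) : ℝ) = (W1 ℓ e : ℝ) * d := by push_cast; ring
        _ ≤ ℓ ^ 2 * ℓ ^ A := mul_le_mul (hW2 e) hdA (by positivity) (by positivity)
        _ ≤ (ℓ / 3) ^ (A + 3) := hlog
        _ ≤ _ := pow_le_pow_left₀ (by positivity) h5 _
    · intro j hj
      have h5 := hdj j (Finset.mem_range.mpr (hj.trans_le (le_max_left _ _)))
      have h6 := (hSG _ h5).2
      rwa [show ν + q.1 + j * (W1 ℓ e * d) = ν + j * (W1 ℓ e * d) + q.1 by ring]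
  -- pigeonhole over the pairs
  by_contra hcon
  have hbad : ∀ q ∈ PP, ¬ Good (q.2 - q.1) := by
    intro q hq hgood
    rw [hPP, Finset.mem_filter] at hq
    obtain ⟨_, i, j, hij, h1, h2, h3⟩ := hq
    exact hcon ⟨i, j, hij, q.1, h1, q.2, h2, h3, hgood⟩
  have hl : ∀ q ∈ PP, ∃ l : ℕ, ∀ C, ¬ GoodL l C (q.2 - q.1) := by
    intro q hq
    have h1 := hbad q hq
    unfold Good at h1
    push Not at h1
    obtain ⟨l, h2⟩ := h1
    refine ⟨l, fun C h3 => ?_⟩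
    obtain ⟨N, h4⟩ := h2 C
    obtain ⟨a, b, h5, h6, h7, h8⟩ := h3 N
    obtain ⟨j, hj, h9⟩ := h4 a b h5 h6 h7
    exact h9 (h8 j hj)
  choose! lq hlq using hl
  set l := PP.sup lq with hldef
  obtain ⟨C, hC⟩ := hmain l
  have hN : ∀ q ∈ PP, ∃ N : ℕ, ¬ ∃ a b : ℕ, N ≤ a ∧ 1 ≤ b ∧
      (b : ℝ) ≤ (Real.log a) ^ C ∧ ∀ j < l, Consec (a + j * b) (q.2 - q.1) := by
    intro q hq
    by_contra h1
    push Not at h1
    have h2 : GoodL l C (q.2 - q.1) := by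
      intro N
      obtain ⟨a, b, h3, h4, h5, h6⟩ := h1 N
      exact ⟨a, b, h3, h4, h5, h6⟩
    exact hlq q hq C (GoodL_mono (Finset.le_sup (f := lq) hq) h2)
  choose! Nq hNq using hN
  obtain ⟨q, hq, a, b, h1, h2, h3, h4⟩ := hC (PP.sup Nq)
  exact hNq q hq ⟨a, b, (Finset.le_sup (f := Nq) hq).trans h1, h2, h3, h4⟩

theorem not_good_zero : ¬ Good 0 := by
  intro h
  obtain ⟨C, hC⟩ := h 1
  obtain ⟨a, b, _, _, _, h4⟩ := hC 0
  exact absurd (h4 0 one_pos).1 (lt_irrefl 0)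

end Pool.Agent.H74.QT
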