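import Pool.Agent.H2.TW.NT

/-!
Uniform version of helper2's engine `nt_gen` (`Pool/Agent/H2/TW/NT.lean`): the exponent `A` and the constant `c` depend only on the number of
elements of `𝓗`. The proof is a copy of the proof of `nt_gen`.
-/

set_option autoImplicit false

open Finset Filter

namespace Pool.Agent.H74.QT

open Pool.Agent.H16 Pool.Agent.H16.GPS Pool.Agent.H2.NC Pool.Agent.H2.TW

theorem eng_major (K : ℕ) (η : ℝ) (hη0 : 0 < η) (hη1 : η ≤ 1) : ∃ c₀ : ℝ, 0 < c₀ ∧ ∀ 𝓗 : Finset ℕ,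
    ∀ᶠ ℓ : ℝ in atTop, ∀ (e b Y : ℕ) (y : ZMod Y), 1 ≤ b →
      (∀ h ∈ 𝓗, ∀ p : ℕ, p.Prime → w1 ℓ < p → (p : ℝ) ≤ Real.exp (η * ℓ) →
        ¬ p ∣ W1 ℓ e * y.val + b + h) →
      (c₀ * (((W1 ℓ e).totient : ℝ) / (W1 ℓ e : ℝ) * ℓ)) ^ #𝓗 ≤ nuF 𝓗 K η ℓ e b y := by
  obtain ⟨c₀, hc₀, h⟩ := rough_le_nu1 K η hη0 hη1
  refine ⟨c₀, hc₀, fun 𝓗 => ?_⟩
  filter_upwards [h, eventually_ge_atTop (0 : ℝ)] with ℓ h hℓ e b Y y hb hp
  unfold nuF
  rw [← Finset.prod_const]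
  apply Finset.prod_le_prod
  · intro i _
    positivity
  · intro i hi
    apply h e _ (by omega)
    intro p hpp hpw hpη hpn
    exact hp i hi p hpp hpw hpη (by rwa [← add_assoc] at hpn)

theorem eng_bound (K : ℕ) (η : ℝ) (hη0 : 0 < η) (hη1 : η ≤ 1) : ∃ B : ℕ, ∀ 𝓗 : Finset ℕ,
    ∀ᶠ ℓ : ℝ in atTop, ∀ (e b Y : ℕ) [NeZero Y], (Y : ℝ) ≤ Real.exp ℓ → 1 ≤ b → b ≤ W1 ℓ e →
      ∀ y : ZMod Y, nuF 𝓗 K η ℓ e b y ≤ ℓ ^ (B * #𝓗) := by
  classical
  obtain ⟨B, hB⟩ := nu1_bound K η hη0 hη1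
  refine ⟨B, fun 𝓗 => ?_⟩
  set M : ℕ := 𝓗.sup id with hM
  have hsq := (isLittleO_pow_exp_pos_mul_atTop (k := 2) (b := 1)
    (by norm_num)).bound (show (0 : ℝ) < 1 / 4 by norm_num)
  filter_upwards [hB, W1_le, hsq, eventually_ge_atTop 1, eventually_ge_atTop (M : ℝ)]
    with ℓ hB' hW hsq' hℓ hℓM
  intro e b Y _ hY hb1 hb2 y
  have hℓ0 : (0 : ℝ) < ℓ := by linarith
  have hsq2 : ℓ ^ 2 ≤ 1 / 4 * Real.exp ℓ := by
    have h := hsq'
    rw [Real.norm_of_nonneg (by positivity), Real.norm_of_nonneg (by positivity), one_mul] at h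
    exact h
  have hB1 : (1 : ℝ) ≤ ℓ ^ B := one_le_pow₀ hℓ
  have hx1 : 1 ≤ Real.exp ℓ := Real.one_le_exp hℓ0.le
  unfold nuF
  calc ∏ h ∈ 𝓗, nu1 K η ℓ e (W1 ℓ e * y.val + (b + h)) ≤ ∏ _h ∈ 𝓗, ℓ ^ B := by
        refine Finset.prod_le_prod (fun h _ => nu1_nonneg _ _ _ _ _) (fun h hh => ?_)
        refine hB' e _ (by omega) ?_
        have h1 : (y.val : ℝ) ≤ Real.exp ℓ := by
          have h2 : (y.val : ℝ) ≤ Y := by exact_mod_cast (ZMod.val_lt y).le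
          exact h2.trans hY
        have h3 : (h : ℝ) ≤ M := by
          have h4 : h ≤ M := Finset.le_sup (f := id) hh
          exact_mod_cast h4
        have h5 : (b : ℝ) ≤ ℓ ^ 2 := by
          have h6 : (b : ℝ) ≤ W1 ℓ e := by exact_mod_cast hb2
          exact h6.trans (hW e)
        have h7 : ℓ ≤ ℓ ^ 2 := by nlinarith
        push_cast
        calc (W1 ℓ e : ℝ) * (y.val : ℝ) + (b + h) ≤ ℓ ^ 2 * Real.exp ℓ + (ℓ ^ 2 + ℓ ^ 2) := by
              refine add_le_add (mul_le_mul (hW e) h1 (by positivity) (by positivity)) ?_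
              linarith
          _ ≤ Real.exp ℓ * Real.exp ℓ := by nlinarith
          _ = Real.exp (2 * ℓ) := by rw [← Real.exp_add]; congr 1; ring
    _ = (ℓ ^ B) ^ #𝓗 := by rw [Finset.prod_const]
    _ = ℓ ^ (B * #𝓗) := by rw [← pow_mul]


open Classical in
/-- the general form: `n ≤ W E`, the common differences are multiples of `W` -/
theorem eng_gen (k : ℕ) (hk : 2 ≤ k) (m : ℕ) (hm1 : 1 ≤ m) (δ η₀ : ℝ) (hδ : 0 < δ)
    (hη₀ : 0 < η₀) : ∃ (A : ℕ) (c : ℝ), 0 < c ∧ ∀ 𝓗 : Finset ℕ, #𝓗 = m → ∀ᶠ ℓ : ℝ in atTop, ∀ (e b : ℕ) (E : ℝ),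
      Real.exp (3 / 4 * ℓ) ≤ E → 4 * E ≤ Real.exp ℓ → ∀ S : Finset ℕ,
      (∀ n ∈ S, 1 ≤ n ∧ (n : ℝ) ≤ W1 ℓ e * E ∧ n ≡ b [MOD W1 ℓ e] ∧
        ∀ h ∈ 𝓗, ∀ p : ℕ, p.Prime → w1 ℓ < p → (p : ℝ) ≤ Real.exp (η₀ * ℓ) → ¬ p ∣ n + h) →
      δ * (E * ((W1 ℓ e : ℝ) / (((W1 ℓ e).totient : ℕ) * ℓ)) ^ #𝓗) ≤ #S →
      c * (E * ((W1 ℓ e : ℝ) / (((W1 ℓ e).totient : ℕ) * ℓ)) ^ #𝓗) ≤
        #(S.filter (fun n => ∃ d : ℕ, 1 ≤ d ∧ (d : ℝ) ≤ ℓ ^ A ∧
          ∀ j ∈ range k, n + j * (W1 ℓ e * d) ∈ S)) := by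
  set t : ℕ := k * 2 ^ k with ht
  have ht1 : 1 ≤ t := by
    rw [ht]; exact Nat.mul_pos (by omega) (by positivity)
  set η : ℝ := min η₀ (1 / (8 * ((m * t : ℕ) : ℝ) + 8)) with hη
  have hden : (0 : ℝ) < 8 * ((m * t : ℕ) : ℝ) + 8 := by positivity
  have hη0 : 0 < η := lt_min hη₀ (by positivity)
  have hηt : η * (8 * ((m * t : ℕ) : ℝ) + 8) ≤ 1 := by
    calc η * (8 * ((m * t : ℕ) : ℝ) + 8) ≤ 1 / (8 * ((m * t : ℕ) : ℝ) + 8) * (8 * ((m * t : ℕ) : ℝ) + 8) :=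
          mul_le_mul_of_nonneg_right (min_le_right _ _) hden.le
      _ = 1 := by field_simp
  have hη1 : η ≤ 1 := by
    refine (min_le_right _ _).trans ?_
    rw [div_le_one hden]
    have : (0 : ℝ) ≤ ((m * t : ℕ) : ℝ) := Nat.cast_nonneg _
    linarith
  have hηη₀ : η ≤ η₀ := min_le_left _ _
  set K : ℕ := 16 * (m * t) + 1 with hK
  obtain ⟨c₀, hc₀, hmaj⟩ := eng_major K η hη0 hη1
  obtain ⟨Bn, hBn⟩ := eng_bound K η hη0 hη1
  obtain ⟨D, A1, ε, c1, hD, hε, hc1, heng⟩ := engine k hk (c₀ ^ m * δ / 4) (by positivity) (Bn * m)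
  refine ⟨A1, 2 * c1 / c₀ ^ m, by positivity, fun 𝓗 hm => ?_⟩
  subst hm
  have h𝓗 : 𝓗.Nonempty := Finset.card_pos.mp hm1
  set m : ℕ := #𝓗 with hm
  filter_upwards [hmaj 𝓗, hBn 𝓗, heng, corrF 𝓗 h𝓗 t A1 ht1 η hη0 hηt K le_rfl ε hε,
    nt_sizes (A1 + k) D hD] with ℓ hmaj hBn heng hcorr hsz
  obtain ⟨hℓ1, hsz⟩ := hsz
  intro e b E hElow hEup S hS hSc
  set W : ℕ := W1 ℓ e with hW
  have hW0 : 0 < W := W1_pos ℓ e
  have hWr : (0 : ℝ) < W := by exact_mod_cast hW0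
  have hφ0 : (0 : ℝ) < ((W.totient : ℕ) : ℝ) := by exact_mod_cast Nat.totient_pos.mpr hW0
  have hℓ0 : (0 : ℝ) < ℓ := by linarith
  have hE0 : 0 < E := lt_of_lt_of_le (Real.exp_pos _) hElow
  set Dn : ℝ := E * ((W : ℝ) / (((W.totient : ℕ) : ℝ) * ℓ)) ^ m with hDn
  obtain ⟨u, hY1, hY2, hY3⟩ := hsz E hElow
  set Y : ℕ := D * u + 1 with hY
  have : NeZero Y := ⟨by omega⟩
  -- the representative of the class
  obtain ⟨b', hb1, hbW, hbb⟩ : ∃ b' : ℕ, 1 ≤ b' ∧ b' ≤ W ∧ b' ≡ b [MOD W] := by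
    by_cases h0 : b % W = 0
    · refine ⟨W, hW0, le_rfl, ?_⟩
      unfold Nat.ModEq
      rw [Nat.mod_self, h0]
    · exact ⟨b % W, Nat.pos_of_ne_zero h0, (Nat.mod_lt _ hW0).le, Nat.mod_modEq _ _⟩
  set G : ℝ := (c₀ * (((W.totient : ℕ) : ℝ) / (W : ℝ) * ℓ)) ^ m with hG
  have hG0 : 0 < G := by positivity
  set F : ZMod Y → ℝ := fun y => FS S W b' G y with hF
  have hFS : ∀ y : ZMod Y, F y ≠ 0 → W * y.val + b' ∈ S := by
    intro y hy
    by_contra hc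
    apply hy
    simp only [hF, FS]
    rw [if_neg hc]
  have hYexp : (Y : ℝ) ≤ Real.exp ℓ := hY3.trans hEup
  have hcorr' := hcorr e b' Y hY1 hYexp hb1 hbW
  have hF01 : ∀ y, 0 ≤ F y ∧ F y ≤ nuF 𝓗 K η ℓ e b' y := by
    intro y
    simp only [hF, FS]
    split_ifs with hy
    · refine ⟨hG0.le, ?_⟩
      apply hmaj e b' Y y hb1
      intro h hh p hp hpw hpη
      refine (hS _ hy).2.2.2 h hh p hp hpw (hpη.trans ?_)
      apply Real.exp_le_exp.mpr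
      exact mul_le_mul_of_nonneg_right hηη₀ hℓ0.le
    · exact ⟨le_rfl, nuF_nonneg _ _ _ _ _ _ _⟩
  -- the number of elements
  have hrep : ∀ n ∈ S, ∃ y : ℕ, n = W * y + b' ∧ (y : ℝ) ≤ E := by
    intro n hn
    obtain ⟨h1, h2, h3, -⟩ := hS n hn
    have h4 : n ≡ b' [MOD W] := h3.trans hbb.symm
    have h5 : b' ≤ n := by
      by_contra hlt
      push Not at hlt
      have h6 := (Nat.modEq_iff_dvd' hlt.le).mp h4
      have h7 := Nat.le_of_dvd (by omega) h6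
      omega
    obtain ⟨y, hy⟩ := (Nat.modEq_iff_dvd' h5).mp h4.symm
    refine ⟨y, by omega, ?_⟩
    have h8 : W * y ≤ n := by omega
    have h9 : ((W * y : ℕ) : ℝ) ≤ n := by exact_mod_cast h8
    push_cast at h9
    exact le_of_mul_le_mul_left (h9.trans h2) hWr
  have hEY : E < Y := by
    have : (0 : ℝ) ≤ ((A1 + k : ℕ) + 1 : ℝ) * ℓ ^ (A1 + k) := by positivity
    linarith
  have hsum : ∑ y : ZMod Y, F y = G * #S := by
    have h1 : ∑ y : ZMod Y, F y = ∑ y ∈ univ.filter (fun y : ZMod Y => W * y.val + b' ∈ S), G := by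
      rw [Finset.sum_filter]
      apply Finset.sum_congr rfl
      intro y _
      simp only [hF, FS]
    rw [h1, Finset.sum_const, nsmul_eq_mul, mul_comm]
    congr 1
    norm_cast
    apply Finset.card_bij (fun (y : ZMod Y) _ => W * y.val + b')
    · intro y hy
      exact (Finset.mem_filter.mp hy).2
    · intro y1 _ y2 _ h12
      have h3 : W * y1.val = W * y2.val := by omega
      exact ZMod.val_injective Y (Nat.eq_of_mul_eq_mul_left hW0 h3)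
    · intro n hn
      obtain ⟨y, hy, hyE⟩ := hrep n hn
      have hyY : y < Y := by
        have : (y : ℝ) < Y := lt_of_le_of_lt hyE hEY
        exact_mod_cast this
      refine ⟨(y : ZMod Y), ?_, ?_⟩
      · rw [Finset.mem_filter]
        refine ⟨Finset.mem_univ _, ?_⟩
        rw [ZMod.val_cast_of_lt hyY, ← hy]
        exact hn
      · rw [ZMod.val_cast_of_lt hyY, ← hy]
  have hGD : G * Dn = c₀ ^ m * E := by
    rw [hDn, hG, mul_left_comm, ← mul_pow]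
    have hx : c₀ * (((W.totient : ℕ) : ℝ) / (W : ℝ) * ℓ) * ((W : ℝ) / (((W.totient : ℕ) : ℝ) * ℓ)) = c₀ := by
      have h1 := hφ0.ne'
      have h2 := hWr.ne'
      have h3 := hℓ0.ne'
      field_simp
    rw [hx]; ring
  have hmean : c₀ ^ m * δ / 4 * (Y : ℝ) ≤ ∑ y, F y := by
    rw [hsum]
    calc c₀ ^ m * δ / 4 * (Y : ℝ) ≤ c₀ ^ m * δ / 4 * (4 * E) := mul_le_mul_of_nonneg_left hY3 (by positivity)
      _ = δ * (c₀ ^ m * E) := by ring
      _ = δ * (G * Dn) := by rw [hGD]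
      _ = G * (δ * Dn) := by ring
      _ ≤ G * #S := mul_le_mul_of_nonneg_left hSc hG0.le
  have hmain := heng u Y hY (by linarith [Real.exp_pos (ℓ / 2)]) (nuF 𝓗 K η ℓ e b') F hF01
    (hBn e b' Y hYexp hb1 hbW) hcorr' hmean
  set M : Finset (ZMod Y) := univ.filter (fun m : ZMod Y => ∃ b : ℕ, 1 ≤ b ∧ (b : ℝ) ≤ ℓ ^ A1 ∧
        ∀ j ∈ range k, F (m + ((j * b : ℕ) : ZMod Y)) ≠ 0) with hM
  have hMF : ∀ y ∈ M, F y = G := by
    intro y hy
    obtain ⟨bb, -, -, hj⟩ := (Finset.mem_filter.mp hy).2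
    have h1 := hFS _ (hj 0 (Finset.mem_range.mpr (by omega)))
    rw [zero_mul, Nat.cast_zero, add_zero] at h1
    simp only [hF, FS]
    rw [if_pos h1]
  rw [Finset.sum_congr rfl hMF, Finset.sum_const, nsmul_eq_mul] at hmain
  have hMS : #M ≤ #(S.filter (fun n => ∃ d : ℕ, 1 ≤ d ∧ (d : ℝ) ≤ ℓ ^ A1 ∧
        ∀ j ∈ range k, n + j * (W * d) ∈ S)) := by
    apply Finset.card_le_card_of_injOn (fun y : ZMod Y => W * y.val + b')
    · intro y hy
      rw [Finset.mem_coe, Finset.mem_filter]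
      obtain ⟨bb, hbb1, hbbA, hj⟩ := (Finset.mem_filter.mp hy).2
      have h0 := hFS _ (hj 0 (Finset.mem_range.mpr (by omega)))
      rw [zero_mul, Nat.cast_zero, add_zero] at h0
      refine ⟨h0, bb, hbb1, hbbA, ?_⟩
      · intro j hjk
        have h1 := hFS _ (hj j hjk)
        have hyE : (y.val : ℝ) ≤ E := by
          have h9 : ((W * y.val + b' : ℕ) : ℝ) ≤ W * E := (hS _ h0).2.1
          push_cast at h9
          have : (0 : ℝ) ≤ b' := Nat.cast_nonneg _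
          exact le_of_mul_le_mul_left (by linarith : (W : ℝ) * y.val ≤ W * E) hWr
        have hlt : y.val + j * bb < Y := by
          have h2 : ((y.val + j * bb : ℕ) : ℝ) < Y := by
            push_cast
            have hj' : (j : ℝ) ≤ k := by
              have := Finset.mem_range.mp hjk
              exact_mod_cast this.le
            have h3 : (j : ℝ) * bb ≤ k * ℓ ^ (A1 + k) := by
              apply mul_le_mul hj' (hbbA.trans (pow_le_pow_right₀ hℓ1 (by omega))) (Nat.cast_nonneg _)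
                (Nat.cast_nonneg _)
            have h4 : (k : ℝ) * ℓ ^ (A1 + k) ≤ (((A1 + k : ℕ) : ℝ) + 1) * ℓ ^ (A1 + k) := by
              apply mul_le_mul_of_nonneg_right _ (by positivity)
              push_cast
              have : (0 : ℝ) ≤ A1 := Nat.cast_nonneg _
              linarith
            linarith
          exact_mod_cast h2
        have hval : (y + ((j * bb : ℕ) : ZMod Y)).val = y.val + j * bb := by
          have h5 : y + ((j * bb : ℕ) : ZMod Y) = ((y.val + j * bb : ℕ) : ZMod Y) := by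
            rw [Nat.cast_add, ZMod.natCast_zmod_val]
          rw [h5, ZMod.val_cast_of_lt hlt]
        rw [hval] at h1
        have h6 : W * (y.val + j * bb) + b' = W * y.val + b' + j * (W * bb) := by ring
        rw [h6] at h1
        exact h1
    · intro y1 _ y2 _ h12
      have h12' : W * y1.val + b' = W * y2.val + b' := h12
      have h3 : W * y1.val = W * y2.val := by omega
      exact ZMod.val_injective Y (Nat.eq_of_mul_eq_mul_left hW0 h3)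
  have hMS' : (#M : ℝ) ≤ (#(S.filter (fun n => ∃ d : ℕ, 1 ≤ d ∧ (d : ℝ) ≤ ℓ ^ A1 ∧
        ∀ j ∈ range k, n + j * (W * d) ∈ S)) : ℝ) := by exact_mod_cast hMS
  refine le_trans ?_ hMS'
  -- c * Dn ≤ #M
  have h1 : c1 * (2 * E) ≤ #M * G := by
    refine le_trans (mul_le_mul_of_nonneg_left ?_ hc1.le) hmain
    have : (0 : ℝ) ≤ ((A1 + k : ℕ) + 1 : ℝ) * ℓ ^ (A1 + k) := by positivity
    linarith
  have h2 : (2 * c1 / c₀ ^ m * Dn) * G = c1 * (2 * E) := by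
    rw [mul_assoc, mul_comm Dn G, hGD]
    field_simp
  have h3 : (2 * c1 / c₀ ^ m * Dn) * G ≤ #M * G := by rw [h2]; exact h1
  exact le_of_mul_le_mul_right h3 hG0


end Pool.Agent.H74.QT
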