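import Pool.Agent.H74.QT.Ap5
import Pool.Agent.H74.QT.EngineU
import Pool.Agent.H21.QG3.Abs

/-!
Quantitative version: for all large `x`, among any five admissible clusters of `K` integers there are two elements of
different clusters such that their difference is good for `x`.
-/

set_option autoImplicit false

open Finset Filter Topology

namespace Pool.Agent.H74.QT

open Pool.Agent.H16
open Pool.Agent.H2.NC (w1 W1)

open Classical in
/-- at least `x / (log x) ^ D` starting points `a ≤ x = exp ℓ` of progressions of length `l` with difference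
`b ≤ (log x) ^ C` of first terms of pairs of consecutive primes with difference `t` -/
def GoodX (l C D : ℕ) (ℓ : ℝ) (t : ℕ) : Prop :=
  Real.exp ℓ / ℓ ^ D ≤ #((Icc 1 ⌊Real.exp ℓ⌋₊).filter (fun a => ∃ b : ℕ, 1 ≤ b ∧ (b : ℝ) ≤ ℓ ^ C ∧
    ∀ j < l, Consec (a + j * b) t))

theorem not_goodX_zero {l C D : ℕ} (hl : 1 ≤ l) {ℓ : ℝ} (hℓ : 0 < ℓ) : ¬ GoodX l C D ℓ 0 := by
  classical
  intro h
  unfold GoodX at h
  rw [Finset.filter_false_of_mem] at h
  · rw [Finset.card_empty, Nat.cast_zero] at h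
    have : 0 < Real.exp ℓ / ℓ ^ D := by positivity
    linarith
  · rintro a _ ⟨b, _, _, h4⟩
    exact absurd (h4 0 (by omega)).1 (lt_irrefl 0)

/-- one set of clusters, one `x` -/
theorem cluster_step : ∃ K : ℕ, 0 < K ∧ ∀ l : ℕ, ∃ C : ℕ, ∀ H : Fin 5 → Finset ℕ, (∀ i, #(H i) = K) →
    (∀ i j, i ≠ j → Disjoint (H i) (H j)) →
    (∀ p : ℕ, p.Prime → ∃ r, ∀ i, ∀ h ∈ H i, ¬ h ≡ r [MOD p]) → ∀ᶠ ℓ : ℝ in atTop,
    ∃ i j, i ≠ j ∧ ∃ h ∈ H i, ∃ h' ∈ H j, h < h' ∧ GoodX l C (5 * K + 3) ℓ (h' - h) := by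
  classical
  obtain ⟨K, hK, δ, α, hδ, hα, hGS⟩ := good_set
  obtain ⟨c0, hc0, hcV0⟩ := Vp_ge
  set c : ℝ := min c0 1 with hcdef
  have hc : 0 < c := by positivity
  have hcV : ∀ n : ℕ, 2 ≤ n → c / Real.log n ≤ Vp n := by
    intro n hn
    refine le_trans ?_ (hcV0 n hn)
    have : 0 ≤ Real.log n := Real.log_natCast_nonneg n
    exact div_le_div_of_nonneg_right (min_le_left _ _) this
  have hK0 : (0 : ℝ) < K := by exact_mod_cast hK
  refine ⟨K, hK, fun l => ?_⟩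
  set κ := max l 2 with hκ
  have hκ2 : 2 ≤ κ := le_max_right _ _
  set δ' : ℝ := α * c ^ (5 * K) / (5 * K) ^ 2 with hδ'
  have hδ'0 : 0 < δ' := by positivity
  obtain ⟨A, c1, hc1, hnt⟩ := eng_gen κ hκ2 (5 * K) (by omega) δ' δ hδ'0 hδ
  refine ⟨A + 2, fun H hH hdisj hadm => ?_⟩
  set T : Finset ℕ := Finset.univ.biUnion H with hT
  have hTcard : #T = 5 * K := by
    rw [hT, Finset.card_biUnion (fun i _ j _ hij => hdisj i j hij)]
    simp [hH]
  have hadm' : ∀ p, p.Prime → ∃ r, ∀ i, ∀ τ ∈ H i, r % p ≠ τ % p := by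
    intro p hp
    obtain ⟨r, hr⟩ := hadm p hp
    exact ⟨r, fun i τ hτ h => hr i τ hτ h.symm⟩
  have hgs := hGS H hH hdisj hadm'
  -- the good pairs
  set PP : Finset (ℕ × ℕ) := (T ×ˢ T).filter (fun q => ∃ i j, i ≠ j ∧ q.1 ∈ H i ∧ q.2 ∈ H j ∧ q.1 < q.2) with hPP
  have hPPcard : (#PP : ℝ) ≤ (5 * (K : ℝ)) ^ 2 := by
    have h1 : #PP ≤ #(T ×ˢ T) := Finset.card_filter_le _ _
    rw [Finset.card_product, hTcard] at h1
    have h2 : (#PP : ℝ) ≤ ((5 * K * (5 * K) : ℕ) : ℝ) := by exact_mod_cast h1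
    refine h2.trans (le_of_eq ?_)
    push_cast
    ring
  set B : ℕ := T.sup id with hB
  have hl2 : Tendsto (fun ℓ : ℝ => ℓ - Real.log 2) atTop atTop :=
    tendsto_atTop_add_const_right _ _ tendsto_id
  filter_upwards [hl2.eventually hgs, hl2.eventually (hnt T hTcard), hl2.eventually W1_ge4,
    hl2.eventually Pool.Agent.H2.NC.W1_le, hl2.eventually (ev_WW (1 / 10) (by norm_num)),
    hl2.eventually (ev_MW 1 1 one_pos one_pos c hc), eventually_ge_atTop (2 / c1),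
    eventually_ge_atTop (2 * (B : ℝ))] with ℓ₀ hgsℓ hntℓ hW4 hW2 hWe F hℓc hℓB
  set ℓ := ℓ₀ - Real.log 2 with hℓdef
  have hlog2 : 0 < Real.log 2 := Real.log_pos (by norm_num)
  have hℓℓ : ℓ ≤ ℓ₀ := by linarith
  have hx2 : Real.exp ℓ₀ = 2 * Real.exp ℓ := by
    rw [hℓdef, Real.exp_sub, Real.exp_log (by norm_num)]
    ring
  obtain ⟨e, A0, hA0, hcard⟩ := hgsℓ
  have hℓ0 := F.ℓ0
  have hℓbig := F.ℓbig
  have hℓ₀0 : 0 < ℓ₀ := by linarith
  set x := Real.exp ℓ with hx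
  have hx0 : 0 < x := Real.exp_pos _
  set W := WW (w1 ℓ) e with hW
  have hWW : W1 ℓ e = W := W1_eq ℓ e
  have hWpos : 0 < W := WW_pos _ _
  have hWr : (0 : ℝ) < W := by exact_mod_cast hWpos
  set L := Real.log (w1 ℓ) with hL
  have hLpos : 0 < L := by linarith [F.z1]
  have hφpos : (0 : ℝ) < (W.totient : ℝ) := by exact_mod_cast Nat.totient_pos.mpr hWpos
  set Gs := GS ℓ δ e A0 H with hGs
  -- pigeonhole
  have hpair : ∀ ν ∈ Gs, ∃ q ∈ PP, Consec (ν + q.1) (q.2 - q.1) := by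
    intro ν hν
    rw [hGs] at hν
    unfold GS at hν
    rw [Finset.mem_filter] at hν
    obtain ⟨_, _, _, h1, h2, _⟩ := hν
    obtain ⟨i, j, hij, τ, hτ, τ', hτ', hlt, hcs⟩ := consec_pair hdisj h1 h2
    refine ⟨(τ, τ'), ?_, hcs⟩
    rw [hPP, Finset.mem_filter, Finset.mem_product]
    refine ⟨⟨?_, ?_⟩, i, j, hij, hτ, hτ', hlt⟩
    · exact Finset.mem_biUnion.mpr ⟨i, Finset.mem_univ _, hτ⟩
    · exact Finset.mem_biUnion.mpr ⟨j, Finset.mem_univ _, hτ'⟩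
  set X : ℝ := α * (x / W) * (L / ℓ) ^ (5 * K) with hX
  have hXpos : 0 < X := by positivity
  have hpig : ∃ q ∈ PP, X / (5 * K) ^ 2 ≤ #(Gs.filter (fun ν => Consec (ν + q.1) (q.2 - q.1))) := by
    by_contra hcon
    push Not at hcon
    have hsub : Gs ⊆ PP.biUnion (fun q => Gs.filter (fun ν => Consec (ν + q.1) (q.2 - q.1))) := by
      intro ν hν
      obtain ⟨q, hq, hqc⟩ := hpair ν hν
      exact Finset.mem_biUnion.mpr ⟨q, hq, Finset.mem_filter.mpr ⟨hν, hqc⟩⟩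
    have h1 : (#Gs : ℝ) ≤ ∑ q ∈ PP, (#(Gs.filter (fun ν => Consec (ν + q.1) (q.2 - q.1))) : ℝ) := by
      have h2 := (Finset.card_le_card hsub).trans Finset.card_biUnion_le
      exact_mod_cast h2
    have hPPne : PP.Nonempty := by
      have h3 : 0 < #Gs := by
        have : (0 : ℝ) < #Gs := lt_of_lt_of_le hXpos hcard
        exact_mod_cast this
      obtain ⟨ν, hν⟩ := Finset.card_pos.mp h3
      obtain ⟨q, hq, _⟩ := hpair ν hν
      exact ⟨q, hq⟩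
    have h4 : ∑ q ∈ PP, (#(Gs.filter (fun ν => Consec (ν + q.1) (q.2 - q.1))) : ℝ) <
        ∑ _q ∈ PP, X / (5 * K) ^ 2 := Finset.sum_lt_sum_of_nonempty hPPne hcon
    rw [Finset.sum_const, nsmul_eq_mul] at h4
    have h5 : (#PP : ℝ) * (X / (5 * K) ^ 2) ≤ (5 * (K : ℝ)) ^ 2 * (X / (5 * K) ^ 2) :=
      mul_le_mul_of_nonneg_right hPPcard (by positivity)
    have h6 : (5 * (K : ℝ)) ^ 2 * (X / (5 * K) ^ 2) = X := by field_simp
    have h7 : X ≤ #Gs := hcard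
    linarith
  obtain ⟨q, hq, hqS⟩ := hpig
  set S := Gs.filter (fun ν => Consec (ν + q.1) (q.2 - q.1)) with hS
  have hSG : ∀ ν ∈ S, ν ∈ Gs ∧ Consec (ν + q.1) (q.2 - q.1) := fun ν hν => Finset.mem_filter.mp hν
  have hGmem : ∀ ν ∈ Gs, (0 < ν ∧ ν ≤ ⌊x⌋₊) ∧ ν ≡ A0 [MOD W] ∧ Real.exp (ℓ / 3) ≤ ν ∧
      ∀ i, ∀ τ ∈ H i, ∀ p, p.Prime → p ∣ ν + τ → Real.exp (δ * ℓ) < p ∨ (p = e ∧ p ≤ w1 ℓ) := by
    intro ν hν
    rw [hGs] at hν
    unfold GS at hν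
    rw [Finset.mem_filter, Finset.mem_Ioc] at hν
    exact ⟨hν.1, hν.2.1, hν.2.2.1, hν.2.2.2.2.2⟩
  -- the engine
  have hphi : c * W ≤ (W.totient : ℝ) * L := F.phi_ge hcV e
  have hratio : ((W1 ℓ e : ℝ) / (((W1 ℓ e).totient : ℕ) * ℓ)) ^ (5 * K) ≤ (L / ℓ) ^ (5 * K) / c ^ (5 * K) := by
    rw [← div_pow, hWW]
    apply pow_le_pow_left₀ (by positivity)
    rw [div_div, div_le_div_iff₀ (by positivity) (by positivity)]
    calc (W : ℝ) * (ℓ * c) = (c * W) * ℓ := by ring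
      _ ≤ ((W.totient : ℝ) * L) * ℓ := mul_le_mul_of_nonneg_right hphi hℓ0.le
      _ = L * (((W.totient : ℕ) : ℝ) * ℓ) := by ring
  have hE4 : 4 * (x / W) ≤ x := by
    have h4 : (4 : ℝ) ≤ W := by
      have := hW4 e
      rw [hWW] at this
      exact_mod_cast this
    rw [← mul_div_assoc, div_le_iff₀ hWr]
    calc 4 * x ≤ W * x := mul_le_mul_of_nonneg_right h4 hx0.le
      _ = x * W := by ring
  have hElow : Real.exp (3 / 4 * ℓ) ≤ x / W := by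
    rw [le_div_iff₀ hWr]
    have h5 : (W : ℝ) ≤ Real.exp (1 / 10 * ℓ) := (hWe e).2
    calc Real.exp (3 / 4 * ℓ) * W ≤ Real.exp (3 / 4 * ℓ) * Real.exp (1 / 10 * ℓ) :=
          mul_le_mul_of_nonneg_left h5 (Real.exp_pos _).le
      _ = Real.exp (3 / 4 * ℓ + 1 / 10 * ℓ) := (Real.exp_add _ _).symm
      _ ≤ x := Real.exp_le_exp.mpr (by linarith)
  have hres := hntℓ e A0 (x / W) hElow hE4 S (by
    intro ν hν
    obtain ⟨hνG, _⟩ := hSG ν hν
    obtain ⟨h1, h2, h3, h4⟩ := hGmem ν hνG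
    refine ⟨h1.1, ?_, by rw [hWW]; exact h2, ?_⟩
    · rw [hWW, mul_div_cancel₀ _ hWr.ne']
      exact (Nat.le_floor_iff hx0.le).mp h1.2
    · intro τ hτ p hp hwp hpe hd
      rw [hT, Finset.mem_biUnion] at hτ
      obtain ⟨i, _, hi⟩ := hτ
      rcases h4 i τ hi p hp hd with h5 | h5
      · exact absurd hpe (not_le.mpr h5)
      · omega) (by
    rw [hTcard]
    refine le_trans ?_ hqS
    have hxW : 0 ≤ x / W := by positivity
    calc δ' * (x / W * ((W1 ℓ e : ℝ) / (((W1 ℓ e).totient : ℕ) * ℓ)) ^ (5 * K))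
        ≤ δ' * (x / W * ((L / ℓ) ^ (5 * K) / c ^ (5 * K))) := by
          apply mul_le_mul_of_nonneg_left _ hδ'0.le
          exact mul_le_mul_of_nonneg_left hratio hxW
      _ = X / (5 * K) ^ 2 := by
          rw [hδ', hX]
          field_simp)
  rw [hTcard] at hres
  have hq' := hq
  rw [hPP, Finset.mem_filter] at hq'
  obtain ⟨hqT, i, j, hij, hq1, hq2, hq12⟩ := hq'
  refine ⟨i, j, hij, q.1, hq1, q.2, hq2, hq12, ?_⟩
  unfold GoodX
  -- the lower bound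
  have hlow : Real.exp ℓ₀ / ℓ₀ ^ (5 * K + 3) ≤
      c1 * (x / W * ((W1 ℓ e : ℝ) / (((W1 ℓ e).totient : ℕ) * ℓ)) ^ (5 * K)) := by
    have h1 : 1 / ℓ₀ ^ (5 * K) ≤ ((W1 ℓ e : ℝ) / (((W1 ℓ e).totient : ℕ) * ℓ)) ^ (5 * K) := by
      rw [← one_div_pow, hWW]
      apply pow_le_pow_left₀ (by positivity)
      rw [div_le_div_iff₀ hℓ₀0 (by positivity), one_mul]
      have h2 : (W.totient : ℝ) ≤ W := by exact_mod_cast Nat.totient_le W
      exact mul_le_mul h2 hℓℓ hℓ0.le hWr.le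
    have h2 : x / ℓ₀ ^ 2 ≤ x / W := by
      apply div_le_div_of_nonneg_left hx0.le hWr
      have h3 := hW2 e
      rw [hWW] at h3
      exact h3.trans (pow_le_pow_left₀ hℓ0.le hℓℓ 2)
    have h3 : 2 / ℓ₀ ≤ c1 := by
      rw [div_le_iff₀ hℓ₀0]
      rw [div_le_iff₀ hc1] at hℓc
      linarith
    calc Real.exp ℓ₀ / ℓ₀ ^ (5 * K + 3) = (2 / ℓ₀) * (x / ℓ₀ ^ 2 * (1 / ℓ₀ ^ (5 * K))) := by
          rw [hx2]
          field_simp
          ring
      _ ≤ c1 * (x / W * ((W1 ℓ e : ℝ) / (((W1 ℓ e).totient : ℕ) * ℓ)) ^ (5 * K)) := by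
          gcongr
  refine hlow.trans (hres.trans ?_)
  have hinj : #(S.filter (fun n => ∃ d : ℕ, 1 ≤ d ∧ (d : ℝ) ≤ ℓ ^ A ∧
        ∀ j ∈ range κ, n + j * (W1 ℓ e * d) ∈ S)) ≤
      #((Icc 1 ⌊Real.exp ℓ₀⌋₊).filter (fun a => ∃ b : ℕ, 1 ≤ b ∧ (b : ℝ) ≤ ℓ₀ ^ (A + 2) ∧
        ∀ j < l, Consec (a + j * b) (q.2 - q.1))) := by
    apply Finset.card_le_card_of_injOn (fun ν => ν + q.1)
    · intro ν hν
      rw [Finset.mem_coe, Finset.mem_filter] at hν
      obtain ⟨hνS, d, hd1, hdA, hdj⟩ := hν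
      obtain ⟨hνG, _⟩ := hSG ν hνS
      obtain ⟨h1, h2, h3, h4⟩ := hGmem ν hνG
      rw [Finset.mem_coe, Finset.mem_filter, Finset.mem_Icc]
      refine ⟨⟨(show 1 ≤ ν + q.1 by omega), ?_⟩, W1 ℓ e * d, ?_, ?_, ?_⟩
      · apply Nat.le_floor
        have h5 : (ν : ℝ) ≤ x := (Nat.le_floor_iff hx0.le).mp h1.2
        have h6 : q.1 ≤ B := Finset.le_sup (f := id) (Finset.mem_product.mp hqT).1
        have h7 : (q.1 : ℝ) ≤ B := by exact_mod_cast h6
        have h8 : ℓ + 1 ≤ x := Real.add_one_le_exp ℓ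
        have h9 : Real.log 2 < 1 := by
          have := Real.log_two_lt_d9
          linarith
        push_cast
        rw [hx2]
        linarith
      · rw [hWW]
        exact Nat.mul_pos hWpos hd1
      · calc ((W1 ℓ e * d : ℕ) : ℝ) = (W1 ℓ e : ℝ) * d := by push_cast; ring
          _ ≤ ℓ ^ 2 * ℓ ^ A := mul_le_mul (hW2 e) hdA (by positivity) (by positivity)
          _ = ℓ ^ (A + 2) := by ring
          _ ≤ ℓ₀ ^ (A + 2) := pow_le_pow_left₀ hℓ0.le hℓℓ _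
      · intro j hj
        have h5 := hdj j (Finset.mem_range.mpr (hj.trans_le (le_max_left _ _)))
        have h6 := (hSG _ h5).2
        have h7 : ν + q.1 + j * (W1 ℓ e * d) = ν + j * (W1 ℓ e * d) + q.1 := by ring
        show Consec (ν + q.1 + j * (W1 ℓ e * d)) _
        rw [h7]
        exact h6
    · intro a _ b _ hab
      have hab' : a + q.1 = b + q.1 := hab
      omega
  exact_mod_cast hinj

theorem cluster_x : ∃ K : ℕ, 0 < K ∧ ∃ D : ℕ, ∀ l : ℕ, ∃ C : ℕ, ∀ B : ℕ, ∀ᶠ ℓ : ℝ in atTop,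
    Pool.Agent.H21.QG3.FC K B (GoodX l C D ℓ) := by
  classical
  obtain ⟨K, hK, h⟩ := cluster_step
  refine ⟨K, hK, 5 * K + 3, fun l => ?_⟩
  obtain ⟨C, hC⟩ := h l
  refine ⟨C, fun B => ?_⟩
  have hfin : {H : Fin 5 → Finset ℕ | ∀ i, H i ∈ (range (B + 1)).powerset}.Finite := by
    have h1 : {H : Fin 5 → Finset ℕ | ∀ i, H i ∈ (range (B + 1)).powerset} =
        (Fintype.piFinset (fun _ : Fin 5 => (range (B + 1)).powerset) : Set (Fin 5 → Finset ℕ)) := by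
      ext H
      rw [Finset.mem_coe, Fintype.mem_piFinset]
      rfl
    rw [h1]
    exact Finset.finite_toSet _
  have hall : ∀ᶠ ℓ : ℝ in atTop, ∀ H ∈ {H : Fin 5 → Finset ℕ | ∀ i, H i ∈ (range (B + 1)).powerset},
      (∀ i, #(H i) = K) → (∀ i j, i ≠ j → Disjoint (H i) (H j)) →
      (∀ p : ℕ, p.Prime → ∃ r, ∀ i, ∀ h ∈ H i, ¬ h ≡ r [MOD p]) →
      ∃ i j, i ≠ j ∧ ∃ h ∈ H i, ∃ h' ∈ H j, h < h' ∧ GoodX l C (5 * K + 3) ℓ (h' - h) := by
    rw [Filter.eventually_all_finite hfin]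
    intro H _
    by_cases h1 : ∀ i, #(H i) = K
    · by_cases h2 : ∀ i j, i ≠ j → Disjoint (H i) (H j)
      · by_cases h3 : ∀ p : ℕ, p.Prime → ∃ r, ∀ i, ∀ h ∈ H i, ¬ h ≡ r [MOD p]
        · filter_upwards [hC H h1 h2 h3] with ℓ hℓ _ _ _
          exact hℓ
        · exact Filter.Eventually.of_forall (fun ℓ _ _ h4 => absurd h4 h3)
      · exact Filter.Eventually.of_forall (fun ℓ _ h4 => absurd h4 h2)
    · exact Filter.Eventually.of_forall (fun ℓ h4 => absurd h4 h1)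
  filter_upwards [hall] with ℓ hℓ
  intro H h1 h2 h3 h4
  apply hℓ H _ h1 h2 h3
  intro i
  rw [Finset.mem_powerset]
  intro u hu
  rw [Finset.mem_range]
  have := h4 i u hu
  omega

end Pool.Agent.H74.QT
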