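import Pool.Agent.H74.QT.Defs

/-!
JOB QT-3a (about 150 lines). The model expectation conditioned on `a p0 = some j0`: reduction to a diagonal sum.

NOTATION. `qb p0 j0`: probability `1` for `some j0` at the prime `p0`, `1/p` at the other primes. For a colouring `c` with
`c p0 = none` put `ub c = zz c + ∑ j, zz (c with p0 coloured j) * ((if j = j0 then 1 else 0) - 1/p0)`.

PROOF. (1) In `EE (qb p0 j0) F = ∑ a (∏ p ww (qb .. p) (a p)) F a` only the `a` with `a p0 = some j0` contribute, because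
`ww (qb .. p0) none = 1 - 1 = 0` and `ww (qb .. p0) (some j) = 0` for `j ≠ j0`.
(2) For such `a`, `Lam g R a = ∑ c, zz g R c * ∏ p, psi (fun _ => 1/p) (c p) (a p)`; group the `c` by their restriction to the primes
`≠ p0`: `∑ c F c = ∑ c with c p0 = none, (F c + ∑ j, F (update c p0 (some j)))` (compare `bad_group` in H10/FF/Bad.lean), and for
`c p0 = none`: `∏ p psi (..) (update c p0 (some j) p) (a p) = ((if j = j0 then 1 else 0) - 1/p0) * ∏ p psi (..) (c p) (a p)`, as
`psi _ none _ = 1` and `psi (fun _ => 1/p0) (some j) (some j0) = (if some j0 = some j then 1 else 0) - 1/p0`. Moreover for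
`c p0 = none` the factor at `p0` is `1` for every `q`, so `psi (fun _ => 1/p)` may be replaced by `psi (qb p0 j0 p)`:
`Lam g R a = ∑ c, z' c * ∏ p, psi (qb p0 j0 p) (c p) (a p)`, `z' c = if c p0 = none then ub c else 0`.
(3) `EE_upper` (H90/MT/Basic.lean) with `q = qb p0 j0`, `z = z'` (`0 ≤ q p j`; `∑ j, q p j = 1` for `p = p0`, `= k/p ≤ 1` otherwise, by
`hPk`): `EE ≤ ∑ c (∏ p dw 1 (q p) (c p)) z' c ^ 2`, and for `c p0 = none`, `∏ p dw 1 (q p) (c p) = 1 / nn c` (`dw 1 q none = 1`,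
`dw 1 q (some j) = q j = 1/p`).
-/

set_option autoImplicit false

open Finset Filter

namespace Pool.Agent.H74.QT

open Pool.Agent.H16
open Pool.Agent.H90

variable {k : ℕ} {P : Finset ℕ}

/-- coefficient after conditioning -/
noncomputable def ub (g : ℕ → ℝ) (R : ℝ) (p0 : {p // p ∈ P}) (j0 : Fin k) (c : MT.Col P k) : ℝ :=
  MT.zz g R c + ∑ j : Fin k, MT.zz g R (Function.update c p0 (some j)) *
    ((if j = j0 then 1 else 0) - 1 / ((p0 : ℕ) : ℝ))

theorem BadA_group (p0 : {p // p ∈ P}) (f : MT.Col P k → ℝ) :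
    ∑ c, f c = ∑ c : MT.Col P k,
      if c p0 = none then (f c + ∑ i, f (Function.update c p0 (some i))) else 0 := by
  rw [← Finset.sum_filter, ← Finset.sum_fiberwise (s := Finset.univ)
    (g := fun c : MT.Col P k => c p0)]
  have h1 : ∀ o : Option (Fin k), ∑ c ∈ univ.filter (fun c : MT.Col P k => c p0 = o), f c =
      ∑ c ∈ univ.filter (fun c : MT.Col P k => c p0 = none),
        f (Function.update c p0 o) := by
    intro o
    refine Finset.sum_bij' (fun c _ => Function.update c p0 none)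
      (fun c _ => Function.update c p0 o) ?_ ?_ ?_ ?_ ?_
    · intro c _
      exact Finset.mem_filter.2 ⟨Finset.mem_univ _, Function.update_self _ _ _⟩
    · intro c _
      exact Finset.mem_filter.2 ⟨Finset.mem_univ _, Function.update_self _ _ _⟩
    · intro c hc
      have h2 := (Finset.mem_filter.1 hc).2
      rw [Function.update_idem, ← h2, Function.update_eq_self]
    · intro c hc
      have h2 := (Finset.mem_filter.1 hc).2
      rw [Function.update_idem, ← h2, Function.update_eq_self]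
    · intro c hc
      have h2 := (Finset.mem_filter.1 hc).2
      rw [Function.update_idem, ← h2, Function.update_eq_self]
  rw [Finset.sum_congr rfl fun o _ => h1 o, Finset.sum_comm]
  refine Finset.sum_congr rfl fun c hc => ?_
  have h2 := (Finset.mem_filter.1 hc).2
  rw [Fintype.sum_option]
  congr 1
  rw [← h2, Function.update_eq_self]

theorem BadA_prod (q : ℕ → Fin k → ℝ) (p0 : {p // p ∈ P}) (c a : MT.Col P k)
    (h0 : c p0 = none) (o : Option (Fin k)) :
    ∏ p : {p // p ∈ P}, MT.psi (q p) (Function.update c p0 o p) (a p) =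
      MT.psi (q p0) o (a p0) * ∏ p : {p // p ∈ P}, MT.psi (q p) (c p) (a p) := by
  rw [← Finset.mul_prod_erase _ _ (Finset.mem_univ p0), Function.update_self]
  congr 1
  rw [← Finset.mul_prod_erase univ (fun p : {p // p ∈ P} => MT.psi (q p) (c p) (a p))
    (Finset.mem_univ p0), h0]
  have h1 : MT.psi (q p0) none (a p0) = 1 := rfl
  rw [h1, one_mul]
  refine Finset.prod_congr rfl fun p hp => ?_
  rw [Function.update_of_ne (Finset.ne_of_mem_erase hp)]

theorem BadA_qb_ne (p0 : {p // p ∈ P}) (j0 : Fin k) (p : {p // p ∈ P}) (h : p ≠ p0) :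
    qb (p0 : ℕ) j0 (p : ℕ) = fun _ => 1 / ((p : ℕ) : ℝ) := by
  funext j
  unfold qb
  rw [if_neg (fun h' => h (Subtype.ext h'))]

theorem BadA_qb_self (p0 : {p // p ∈ P}) (j0 : Fin k) :
    qb (p0 : ℕ) j0 (p0 : ℕ) = fun j => if j = j0 then (1 : ℝ) else 0 := by
  funext j
  unfold qb
  rw [if_pos rfl]

theorem BadA_prod2 (p0 : {p // p ∈ P}) (j0 : Fin k) (c a : MT.Col P k) (h0 : c p0 = none) :
    ∏ p : {p // p ∈ P}, MT.psi (fun _ => 1 / ((p : ℕ) : ℝ)) (c p) (a p) =
      ∏ p : {p // p ∈ P}, MT.psi (qb (p0 : ℕ) j0 (p : ℕ)) (c p) (a p) := by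
  refine Finset.prod_congr rfl fun p _ => ?_
  by_cases h : p = p0
  · subst h
    rw [h0]
    rfl
  · rw [BadA_qb_ne p0 j0 p h]

theorem BadA_Lam (g : ℕ → ℝ) (R : ℝ) (p0 : {p // p ∈ P}) (j0 : Fin k) (a : MT.Col P k)
    (ha : a p0 = some j0) :
    MT.Lam g R a = ∑ c : MT.Col P k, (if c p0 = none then ub g R p0 j0 c else 0) *
      ∏ p : {p // p ∈ P}, MT.psi (qb (p0 : ℕ) j0 (p : ℕ)) (c p) (a p) := by
  unfold MT.Lam
  rw [BadA_group p0]
  refine Finset.sum_congr rfl fun c _ => ?_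
  by_cases h : c p0 = none
  · rw [if_pos h, if_pos h, ← BadA_prod2 p0 j0 c a h]
    have h1 : ∀ i : Fin k, MT.zz g R (Function.update c p0 (some i)) *
        ∏ p : {p // p ∈ P}, MT.psi (fun _ => 1 / ((p : ℕ) : ℝ))
          (Function.update c p0 (some i) p) (a p) =
        (MT.zz g R (Function.update c p0 (some i)) *
          ((if i = j0 then 1 else 0) - 1 / ((p0 : ℕ) : ℝ))) *
          ∏ p : {p // p ∈ P}, MT.psi (fun _ => 1 / ((p : ℕ) : ℝ)) (c p) (a p) := by
      intro i
      have h2 := BadA_prod (fun (p : ℕ) (_ : Fin k) => 1 / (p : ℝ)) p0 c a h (some i)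
      rw [h2]
      have h3 : MT.psi (fun _ : Fin k => 1 / ((p0 : ℕ) : ℝ)) (some i) (a p0) =
          (if i = j0 then 1 else 0) - 1 / ((p0 : ℕ) : ℝ) := by
        rw [ha]
        unfold MT.psi
        by_cases hi : i = j0
        · subst hi
          simp
        · have : ¬ (some j0 = some i) := fun h' => hi (Option.some.inj h').symm
          simp [hi, this]
      rw [h3]
      ring
    rw [Finset.sum_congr rfl fun i _ => h1 i, ← Finset.sum_mul, ← add_mul]
    rfl
  · rw [if_neg h, if_neg h, zero_mul]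

theorem BadA_ww (p0 : {p // p ∈ P}) (j0 : Fin k) (o : Option (Fin k)) (ho : o ≠ some j0) :
    MT.ww (qb (p0 : ℕ) j0 (p0 : ℕ)) o = 0 := by
  rw [BadA_qb_self]
  cases o with
  | none => simp [MT.ww]
  | some j =>
    have : j ≠ j0 := fun h => ho (by rw [h])
    simp [MT.ww, this]

theorem BadA_dw (p0 : {p // p ∈ P}) (j0 : Fin k) (c : MT.Col P k) (h0 : c p0 = none) :
    ∏ p : {p // p ∈ P}, MT.dw 1 (qb (p0 : ℕ) j0 (p : ℕ)) (c p) = 1 / (MT.nn c : ℝ) := by
  unfold MT.nn
  rw [Nat.cast_prod, one_div, ← Finset.prod_inv_distrib]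
  refine Finset.prod_congr rfl fun p _ => ?_
  by_cases h : p = p0
  · subst h
    rw [h0, if_pos rfl]
    simp [MT.dw]
  · rw [BadA_qb_ne p0 j0 p h]
    cases hc : c p with
    | none => simp [MT.dw]
    | some j => simp [MT.dw]

theorem bad_diag (hP : ∀ p ∈ P, p.Prime) (hPk : ∀ p ∈ P, k < p) (g : ℕ → ℝ) (R : ℝ)
    (p0 : {p // p ∈ P}) (j0 : Fin k) :
    MT.EE (qb p0 j0) (fun a : MT.Col P k => MT.Lam g R a ^ 2) ≤
      ∑ c : MT.Col P k, if c p0 = none then 1 / (MT.nn c : ℝ) * ub g R p0 j0 c ^ 2 else 0 := by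
  have e1 : MT.EE (qb (p0 : ℕ) j0) (fun a : MT.Col P k => MT.Lam g R a ^ 2) =
      MT.EE (qb (p0 : ℕ) j0) (fun a : MT.Col P k =>
        (∑ c : MT.Col P k, (if c p0 = none then ub g R p0 j0 c else 0) *
          ∏ p : {p // p ∈ P}, MT.psi (qb (p0 : ℕ) j0 (p : ℕ)) (c p) (a p)) ^ 2) := by
    unfold MT.EE
    refine Finset.sum_congr rfl fun a _ => ?_
    by_cases ha : a p0 = some j0
    · beta_reduce
      rw [BadA_Lam g R p0 j0 a ha]
    · have h0 : ∏ p : {p // p ∈ P}, MT.ww (qb (p0 : ℕ) j0 (p : ℕ)) (a p) = 0 :=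
        Finset.prod_eq_zero (Finset.mem_univ p0) (BadA_ww p0 j0 _ ha)
      rw [h0, zero_mul, zero_mul]
  rw [e1]
  refine (MT.EE_upper (qb (p0 : ℕ) j0) ?_ ?_ _).trans (le_of_eq ?_)
  · intro p _ j
    unfold qb
    split_ifs
    · exact zero_le_one
    · exact le_rfl
    · positivity
  · intro p hp
    by_cases h : p = p0
    · have h1 := BadA_qb_self p0 j0
      rw [h, h1]
      simp
    · have h1 := BadA_qb_ne p0 j0 ⟨p, hp⟩ (fun h' => h (by rw [← h']))
      have h2 : qb (p0 : ℕ) j0 p = fun _ => 1 / (p : ℝ) := h1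
      rw [h2]
      simp only [Finset.sum_const, Finset.card_univ, Fintype.card_fin, nsmul_eq_mul]
      have hp0 : (0 : ℝ) < p := by exact_mod_cast (hP p hp).pos
      rw [mul_one_div, div_le_one hp0]
      exact_mod_cast (hPk p hp).le
  · refine Finset.sum_congr rfl fun c _ => ?_
    by_cases h : c p0 = none
    · rw [if_pos h, if_pos h, BadA_dw p0 j0 c h]
    · rw [if_neg h, if_neg h]
      ring

end Pool.Agent.H74.QT
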