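import Pool.Agent.H74.QT.BadA

/-!
Pointwise bound of the conditioned coefficient.

PROOF. Let `c p0 = none`, `N = nn c`, `G = ∏ j, g (part c j)`, `G_j = g (p0 * part c j) * ∏ i ≠ j, g (part c i)`, `I = 1[N ≤ R]`,
`I' = 1[p0 N ≤ R]`, `s = ±1` the sign of `c`. For `c' = update c p0 (some j)`: `nn c' = p0 * nn c`, `part c' j = p0 * part c j`,
`part c' i = part c i` for `i ≠ j`, and the sign is `-s`. So `zz c = I s G`, `zz c' = - I' s G_j` and
`ub c = s (I G - I' G_{j0} + (1/p0) ∑ j, I' G_j)`. By `GOK.anti`, `0 ≤ G_j ≤ G` (for the sets `cset c j ⊆ insert p0 (cset c j) ⊆ P`),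
`0 ≤ I' ≤ I`, so `0 ≤ I G - I' G_{j0}` and `0 ≤ (1/p0) ∑ j I' G_j ≤ (k/p0) G`. Hence
`ub c ^ 2 ≤ 2 (I G - I' G_{j0})^2 + 2 (k/p0)^2 G^2`, and
`(I G - I' G_{j0})^2 ≤ G (I G - I' G_{j0}) = (I - I') G^2 + I' G (G - G_{j0}) ≤ (I - I') G^2 + G (G - G_{j0})`, with
`I - I' = 1[R/p0 < N ≤ R]` and `G (G - G_{j0}) = (∏_{i ≠ j0} g_i^2) g_{j0} (g_{j0} - g (p0 part c j0)) ≤ (∏_{i ≠ j0} g_i^2) (g_{j0} - g (p0 part c j0))`
(`g ≤ 1`: `GOK.le_one`).
-/

set_option autoImplicit false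

open Finset Filter

namespace Pool.Agent.H74.QT

open Pool.Agent.H16
open Pool.Agent.H90

variable {k : ℕ} {P : Finset ℕ}

theorem BadB_upd {M : Type} [CommMonoid M] (F : Option (Fin k) → {p // p ∈ P} → M)
    (p0 : {p // p ∈ P}) (o : Option (Fin k)) (c : MT.Col P k) (h : F (c p0) p0 = 1) :
    ∏ p, F (Function.update c p0 o p) p = F o p0 * ∏ p, F (c p) p := by
  rw [← Finset.mul_prod_erase univ _ (mem_univ p0),
    ← Finset.mul_prod_erase univ (fun p => F (c p) p) (mem_univ p0), h, one_mul,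
    Function.update_self]
  congr 1
  refine Finset.prod_congr rfl fun p hp => ?_
  rw [Function.update_of_ne (Finset.ne_of_mem_erase hp)]

theorem BadB_nn (p0 : {p // p ∈ P}) (j : Fin k) (c : MT.Col P k) (hc : c p0 = none) :
    MT.nn (Function.update c p0 (some j)) = p0 * MT.nn c := by
  have h := BadB_upd (fun o p => if o = none then 1 else (p : ℕ)) p0 (some j) c (by simp [hc])
  unfold MT.nn
  rw [h]
  simp

theorem BadB_part (p0 : {p // p ∈ P}) (j : Fin k) (c : MT.Col P k) (hc : c p0 = none) :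
    MT.part (Function.update c p0 (some j)) j = p0 * MT.part c j := by
  have h := BadB_upd (fun o p => if o = some j then (p : ℕ) else 1) p0 (some j) c (by simp [hc])
  unfold MT.part
  rw [h]
  simp

theorem BadB_part_ne (p0 : {p // p ∈ P}) (j i : Fin k) (hij : i ≠ j) (c : MT.Col P k)
    (hc : c p0 = none) :
    MT.part (Function.update c p0 (some j)) i = MT.part c i := by
  have h := BadB_upd (fun o p => if o = some i then (p : ℕ) else 1) p0 (some j) c (by simp [hc])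
  unfold MT.part
  rw [h]
  simp [Ne.symm hij]

theorem BadB_sign (p0 : {p // p ∈ P}) (j : Fin k) (c : MT.Col P k) (hc : c p0 = none) :
    (∏ p, if Function.update c p0 (some j) p = none then (1 : ℝ) else -1) =
      -(∏ p, if c p = none then (1 : ℝ) else -1) := by
  have h := BadB_upd (fun o _ => if o = none then (1 : ℝ) else -1) p0 (some j) c (by simp [hc])
  rw [h]
  simp

theorem BadB_prod (g : ℕ → ℝ) (p0 : {p // p ∈ P}) (j : Fin k) (c : MT.Col P k)
    (hc : c p0 = none) :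
    ∏ i, g (MT.part (Function.update c p0 (some j)) i) =
      g (p0 * MT.part c j) * ∏ i ∈ univ.erase j, g (MT.part c i) := by
  rw [← Finset.mul_prod_erase univ _ (mem_univ j), BadB_part p0 j c hc]
  congr 1
  refine Finset.prod_congr rfl fun i hi => ?_
  rw [BadB_part_ne p0 j i (Finset.ne_of_mem_erase hi) c hc]

theorem BadB_zz (g : ℕ → ℝ) (R : ℝ) (p0 : {p // p ∈ P}) (j : Fin k) (c : MT.Col P k)
    (hc : c p0 = none) :
    MT.zz g R (Function.update c p0 (some j)) =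
      -((∏ p, if c p = none then (1 : ℝ) else -1) *
        ((if ((p0 : ℕ) : ℝ) * (MT.nn c : ℝ) ≤ R then 1 else 0) *
          (g (p0 * MT.part c j) * ∏ i ∈ univ.erase j, g (MT.part c i)))) := by
  unfold MT.zz
  rw [BadB_nn p0 j c hc, BadB_sign p0 j c hc, BadB_prod g p0 j c hc, Nat.cast_mul]
  ring

/-- the coefficient of one prime more: between `0` and the old one -/
theorem BadB_mono (g : ℕ → ℝ) (hg : MT.GOK P g) (p0 : {p // p ∈ P}) (j : Fin k)
    (c : MT.Col P k) (hc : c p0 = none) :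
    0 ≤ g (p0 * MT.part c j) ∧ g (p0 * MT.part c j) ≤ g (MT.part c j) := by
  have hnot : (p0 : ℕ) ∉ MT.cset c j := by
    intro h
    obtain ⟨h1, h2⟩ := (MT.mem_cset c j _).1 h
    have : c p0 = some j := h2
    rw [hc] at this
    exact absurd this (by simp)
  have hsub : insert (p0 : ℕ) (MT.cset c j) ⊆ P :=
    Finset.insert_subset p0.2 (MT.cset_subset c j)
  have he : (p0 : ℕ) * MT.part c j = ∏ p ∈ insert (p0 : ℕ) (MT.cset c j), p := by
    rw [Finset.prod_insert hnot, MT.part_eq]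
  rw [he, MT.part_eq]
  exact ⟨hg.nonneg _ hsub, hg.anti _ hsub _ (Finset.subset_insert _ _)⟩

theorem BadB_part_nonneg (g : ℕ → ℝ) (hg : MT.GOK P g) (j : Fin k) (c : MT.Col P k) :
    0 ≤ g (MT.part c j) := by
  rw [MT.part_eq]
  exact hg.nonneg _ (MT.cset_subset c j)

theorem BadB_part_le_one (g : ℕ → ℝ) (hg : MT.GOK P g) (j : Fin k) (c : MT.Col P k) :
    g (MT.part c j) ≤ 1 := by
  rw [MT.part_eq]
  exact MT.GOK.le_one hg (MT.cset_subset c j)

/-- the numerical inequality -/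
theorem BadB_num (s G E a a' B K : ℝ) (I I' : Prop) [Decidable I] [Decidable I'] (hs : s ^ 2 = 1)
    (hG : G = a * E) (ha' : 0 ≤ a') (haa : a' ≤ a) (ha1 : a ≤ 1) (hE : 0 ≤ E) (hB : 0 ≤ B)
    (hBK : B ≤ K * G) (hI : I' → I) :
    (s * ((if I then 1 else 0) * G - (if I' then 1 else 0) * (a' * E) +
        (if I' then 1 else 0) * B)) ^ 2 ≤
      2 * ((if I ∧ ¬ I' then 1 else 0) * G ^ 2 + (a - a') * E ^ 2) + 2 * K ^ 2 * G ^ 2 := by
  rw [mul_pow, hs, one_mul]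
  have hG0 : 0 ≤ G := by rw [hG]; exact mul_nonneg (ha'.trans haa) hE
  have hrest : 0 ≤ (a - a') * E ^ 2 := mul_nonneg (sub_nonneg.2 haa) (sq_nonneg _)
  have hK : 0 ≤ K ^ 2 * G ^ 2 := by positivity
  by_cases h1 : I
  · by_cases h2 : I'
    · rw [if_pos h1, if_pos h2, if_neg (by tauto)]
      have hA0 : 0 ≤ G - a' * E := by
        rw [hG, ← sub_mul]
        exact mul_nonneg (sub_nonneg.2 haa) hE
      have hA : (G - a' * E) ^ 2 ≤ (a - a') * E ^ 2 := by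
        have e1 : (G - a' * E) ^ 2 = (a - a') * ((a - a') * E ^ 2) := by rw [hG]; ring
        rw [e1]
        calc (a - a') * ((a - a') * E ^ 2) ≤ 1 * ((a - a') * E ^ 2) :=
              mul_le_mul_of_nonneg_right (by linarith) hrest
          _ = _ := one_mul _
      have hBB : B ^ 2 ≤ K ^ 2 * G ^ 2 := by
        rw [← mul_pow]
        exact pow_le_pow_left₀ hB hBK 2
      nlinarith [sq_nonneg (G - a' * E - B)]
    · rw [if_pos h1, if_neg h2, if_pos ⟨h1, h2⟩]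
      nlinarith [sq_nonneg G]
  · have h2 : ¬ I' := fun h => h1 (hI h)
    rw [if_neg h1, if_neg h2, if_neg (by tauto)]
    nlinarith

theorem ub_sq_le (hP : ∀ p ∈ P, p.Prime) (g : ℕ → ℝ) (hg : MT.GOK P g) (R : ℝ)
    (p0 : {p // p ∈ P}) (j0 : Fin k) (c : MT.Col P k) (hc : c p0 = none) :
    ub g R p0 j0 c ^ 2 ≤
      2 * ((if R / ((p0 : ℕ) : ℝ) < (MT.nn c : ℝ) ∧ (MT.nn c : ℝ) ≤ R then 1 else 0) *
          ∏ j, g (MT.part c j) ^ 2 +
        (g (MT.part c j0) - g (p0 * MT.part c j0)) * ∏ j ∈ univ.erase j0, g (MT.part c j) ^ 2) +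
      2 * ((k : ℝ) / ((p0 : ℕ) : ℝ)) ^ 2 * ∏ j, g (MT.part c j) ^ 2 := by
  have hp1 : (1 : ℝ) ≤ ((p0 : ℕ) : ℝ) := by exact_mod_cast (hP p0 p0.2).one_lt.le
  have hp0 : (0 : ℝ) < ((p0 : ℕ) : ℝ) := by linarith
  set s : ℝ := ∏ p, if c p = none then (1 : ℝ) else -1 with hs
  set G : ℝ := ∏ j, g (MT.part c j) with hG
  set E : ℝ := ∏ i ∈ univ.erase j0, g (MT.part c i) with hE
  set B : ℝ := 1 / ((p0 : ℕ) : ℝ) *
    ∑ j, g (p0 * MT.part c j) * ∏ i ∈ univ.erase j, g (MT.part c i) with hB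
  have hN0 : (0 : ℝ) ≤ (MT.nn c : ℝ) := Nat.cast_nonneg _
  have hEn : ∀ j : Fin k, 0 ≤ ∏ i ∈ univ.erase j, g (MT.part c i) := fun j =>
    Finset.prod_nonneg fun i _ => BadB_part_nonneg g hg i c
  have hub : ub g R p0 j0 c = s * ((if (MT.nn c : ℝ) ≤ R then 1 else 0) * G -
      (if ((p0 : ℕ) : ℝ) * (MT.nn c : ℝ) ≤ R then 1 else 0) * (g (p0 * MT.part c j0) * E) +
      (if ((p0 : ℕ) : ℝ) * (MT.nn c : ℝ) ≤ R then 1 else 0) * B) := by
    unfold ub
    simp_rw [BadB_zz g R p0 _ c hc, mul_sub]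
    rw [Finset.sum_sub_distrib]
    have e1 : ∑ x : Fin k, -((∏ p, if c p = none then (1 : ℝ) else -1) *
        ((if ((p0 : ℕ) : ℝ) * (MT.nn c : ℝ) ≤ R then 1 else 0) *
          (g (p0 * MT.part c x) * ∏ i ∈ univ.erase x, g (MT.part c i)))) *
          (if x = j0 then 1 else 0) =
        -(s * ((if ((p0 : ℕ) : ℝ) * (MT.nn c : ℝ) ≤ R then 1 else 0) *
          (g (p0 * MT.part c j0) * E))) := by
      simp_rw [mul_ite, mul_one, mul_zero]
      rw [Finset.sum_ite_eq' univ j0, if_pos (mem_univ _)]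
    rw [e1]
    have e2 : ∑ x : Fin k, -((∏ p, if c p = none then (1 : ℝ) else -1) *
        ((if ((p0 : ℕ) : ℝ) * (MT.nn c : ℝ) ≤ R then 1 else 0) *
          (g (p0 * MT.part c x) * ∏ i ∈ univ.erase x, g (MT.part c i)))) *
          (1 / ((p0 : ℕ) : ℝ)) =
        -(s * ((if ((p0 : ℕ) : ℝ) * (MT.nn c : ℝ) ≤ R then 1 else 0) * B)) := by
      rw [hB, Finset.mul_sum, Finset.mul_sum, Finset.mul_sum, ← Finset.sum_neg_distrib]
      refine Finset.sum_congr rfl fun x _ => ?_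
      rw [hs]
      ring
    rw [e2]
    have e3 : MT.zz g R c = s * ((if (MT.nn c : ℝ) ≤ R then 1 else 0) * G) := by
      unfold MT.zz
      rw [hs, hG]
      ring
    rw [e3]
    ring
  rw [hub]
  have hGE : G = g (MT.part c j0) * E := by
    rw [hG, hE, Finset.mul_prod_erase univ (fun i => g (MT.part c i)) (mem_univ j0)]
  obtain ⟨m1, m2⟩ := BadB_mono g hg p0 j0 c hc
  have hB0 : 0 ≤ B := by
    rw [hB]
    refine mul_nonneg (by positivity) (Finset.sum_nonneg fun j _ => ?_)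
    exact mul_nonneg (BadB_mono g hg p0 j c hc).1 (hEn j)
  have hBK : B ≤ (k : ℝ) / ((p0 : ℕ) : ℝ) * G := by
    have h1 : ∑ j, g (p0 * MT.part c j) * ∏ i ∈ univ.erase j, g (MT.part c i) ≤
        ∑ _j : Fin k, G := by
      refine Finset.sum_le_sum fun j _ => ?_
      rw [hG, ← Finset.mul_prod_erase univ (fun i => g (MT.part c i)) (mem_univ j)]
      exact mul_le_mul_of_nonneg_right (BadB_mono g hg p0 j c hc).2 (hEn j)
    rw [Finset.sum_const, Finset.card_univ, Fintype.card_fin, nsmul_eq_mul] at h1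
    calc B ≤ 1 / ((p0 : ℕ) : ℝ) * ((k : ℝ) * G) := by
          rw [hB]
          exact mul_le_mul_of_nonneg_left h1 (by positivity)
      _ = (k : ℝ) / ((p0 : ℕ) : ℝ) * G := by ring
  have hI : ((p0 : ℕ) : ℝ) * (MT.nn c : ℝ) ≤ R → (MT.nn c : ℝ) ≤ R := fun h =>
    le_trans (le_mul_of_one_le_left hN0 hp1) h
  have hmain := BadB_num s G E (g (MT.part c j0)) (g (p0 * MT.part c j0)) B
    ((k : ℝ) / ((p0 : ℕ) : ℝ)) ((MT.nn c : ℝ) ≤ R) (((p0 : ℕ) : ℝ) * (MT.nn c : ℝ) ≤ R)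
    (MT.prod_sign_sq c) hGE m1 m2 (BadB_part_le_one g hg j0 c) (hEn j0) hB0 hBK hI
  refine hmain.trans (le_of_eq ?_)
  rw [Finset.prod_pow, Finset.prod_pow]
  have hiff : ((MT.nn c : ℝ) ≤ R ∧ ¬ ((p0 : ℕ) : ℝ) * (MT.nn c : ℝ) ≤ R) ↔
      (R / ((p0 : ℕ) : ℝ) < (MT.nn c : ℝ) ∧ (MT.nn c : ℝ) ≤ R) := by
    rw [div_lt_iff₀ hp0, not_le, mul_comm ((p0 : ℕ) : ℝ)]
    tauto
  simp only [hiff]
  rw [hG, hE]

end Pool.Agent.H74.QT
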