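import Pool.Agent.H74.QT.BadB

/-!
JOB QT-3c (about 130 lines). Summation over the colourings; the model bound.

PROOF. `nn c = ∏ j, part c j`, `part c j = ∏ (cset c j)` (H90/MT/Combi.lean).
* `sum_main`: `∑ c, (1/nn c) ∏ j g (part c j)^2 = ∑ c, ∏ j F (cset c j)`, `F D = g (∏ D)^2 / ∏ D`: `sum_col_le` with `S j = P.powerset`.
* `sum_diff`: the same with `F j0 D = (if p0 ∈ D then 0 else (g (∏ D) - g (p0 ∏ D)) / ∏ D)`, `F j D = g (∏ D)^2/∏ D` for `j ≠ j0`
  (nonnegative: `GOK.anti` for `D ⊆ insert p0 D ⊆ P`, `∏ (insert p0 D) = p0 ∏ D` for `p0 ∉ D`; for `c p0 = none`, `p0 ∉ cset c j0`), and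
  `∑_{D, p0 ∉ D} (..) ≤ S` is `hS2` (stated for `P.powerset` filtered).
* `sum_bdry`: `Φ E = (1/∏ E) 1[R/p0 < ∏ E ≤ R] ∏ g^2` for a family `E : Fin k → Finset ℕ`; by `cset_injective`
  `∑ c Φ (cset c) ≤ ∑ E ∈ Fintype.piFinset (fun _ => P.powerset), Φ E` (as in the proof of `sum_col_le`). Group by the value at `j0`:
  for the other components `E'` fixed, with product `M ≥ 1`, `g (..)^2 ≤ 1`, the inner sum is
  `≤ ∑ D ∈ P.powerset, 1[(R/M)/p0 < ∏ D ≤ R/M] / ∏ D = shortS P p0 (R/M) ≤ S`; the outer sum is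
  `∏_{j ≠ j0} ∑_D g^2/D = A2^(k-1)`. (One way: `Fintype.piFinset` and `Finset.prod_univ_sum`; split with
  `Fin.insertNthEquiv` or by induction; or bound `Φ E ≤ ∏ j F' j (E j)` is NOT possible, the grouping is necessary.)
* `bad_model`: `bad_diag`, `ub_sq_le`, and the three sums:
  `EE ≤ 2 (S A2^(k-1) + S A2^(k-1)) + 2 (k/p0)^2 A2^k`.
-/

set_option autoImplicit false

open Finset Filter

namespace Pool.Agent.H74.QT

open Pool.Agent.H16
open Pool.Agent.H90

variable {k : ℕ} {P : Finset ℕ}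

theorem badC_term (g : ℕ → ℝ) (c : MT.Col P k) :
    1 / (MT.nn c : ℝ) * ∏ j, g (MT.part c j) ^ 2 =
      ∏ j, (g (∏ p ∈ MT.cset c j, p) ^ 2 / ((∏ p ∈ MT.cset c j, p : ℕ) : ℝ)) := by
  rw [MT.nn_eq, Finset.prod_div_distrib, div_mul_eq_mul_div, one_mul]
  push_cast
  congr 1
  exact Finset.prod_congr rfl fun j _ => by rw [MT.part_eq]

theorem sum_main (g : ℕ → ℝ) : ∑ c : MT.Col P k, 1 / (MT.nn c : ℝ) * ∏ j, g (MT.part c j) ^ 2 ≤
    MT.A2 P g ^ k := by
  rw [Finset.sum_congr rfl fun c _ => badC_term g c]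
  refine (MT.sum_col_le Finset.univ (fun _ => P.powerset)
    (fun _ D => g (∏ p ∈ D, p) ^ 2 / ((∏ p ∈ D, p : ℕ) : ℝ)) ?_ ?_).trans (le_of_eq ?_)
  · exact fun c _ j => Finset.mem_powerset.2 (MT.cset_subset c j)
  · intro j D _
    exact div_nonneg (sq_nonneg _) (Nat.cast_nonneg _)
  · rw [Finset.prod_const, Finset.card_univ, Fintype.card_fin]
    rfl

theorem badC_A2_nonneg (g : ℕ → ℝ) : 0 ≤ MT.A2 P g :=
  Finset.sum_nonneg fun _ _ => div_nonneg (sq_nonneg _) (Nat.cast_nonneg _)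

theorem badC_anti (hP : ∀ p ∈ P, p.Prime) (g : ℕ → ℝ) (hg : MT.GOK P g) (p0 : {p // p ∈ P})
    (D : Finset ℕ) (hD : D ⊆ P) (h0 : (p0 : ℕ) ∉ D) :
    g (p0 * ∏ p ∈ D, p) ≤ g (∏ p ∈ D, p) := by
  have h1 : insert (p0 : ℕ) D ⊆ P := Finset.insert_subset p0.2 hD
  have h2 := hg.anti _ h1 D (Finset.subset_insert _ _)
  rwa [Finset.prod_insert h0] at h2

theorem sum_diff (hP : ∀ p ∈ P, p.Prime) (g : ℕ → ℝ) (hg : MT.GOK P g) (p0 : {p // p ∈ P})
    (j0 : Fin k) (S : ℝ)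
    (hS2 : ∑ D ∈ P.powerset.filter (fun D => (p0 : ℕ) ∉ D),
      (g (∏ p ∈ D, p) - g (p0 * ∏ p ∈ D, p)) / ((∏ p ∈ D, p : ℕ) : ℝ) ≤ S) :
    ∑ c : MT.Col P k, (if c p0 = none then 1 / (MT.nn c : ℝ) *
      ((g (MT.part c j0) - g (p0 * MT.part c j0)) * ∏ j ∈ univ.erase j0, g (MT.part c j) ^ 2) else 0) ≤
      S * MT.A2 P g ^ (k - 1) := by
  set F : Fin k → Finset ℕ → ℝ := fun j D => if j = j0 then
    (if (p0 : ℕ) ∈ D then 0 else (g (∏ p ∈ D, p) - g (p0 * ∏ p ∈ D, p)) / ((∏ p ∈ D, p : ℕ) : ℝ))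
    else g (∏ p ∈ D, p) ^ 2 / ((∏ p ∈ D, p : ℕ) : ℝ) with hF
  have hF0 : ∀ j, ∀ D ∈ P.powerset, 0 ≤ F j D := by
    intro j D hD
    rw [Finset.mem_powerset] at hD
    simp only [hF]
    split_ifs with h1 h2
    · exact le_rfl
    · exact div_nonneg (sub_nonneg.2 (badC_anti hP g hg p0 D hD h2)) (Nat.cast_nonneg _)
    · exact div_nonneg (sq_nonneg _) (Nat.cast_nonneg _)
  have hstep : ∀ c : MT.Col P k, (if c p0 = none then 1 / (MT.nn c : ℝ) *
      ((g (MT.part c j0) - g (p0 * MT.part c j0)) * ∏ j ∈ univ.erase j0, g (MT.part c j) ^ 2) else 0) ≤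
      ∏ j, F j (MT.cset c j) := by
    intro c
    split_ifs with hc
    · have hnot : (p0 : ℕ) ∉ MT.cset c j0 := by
        intro h
        obtain ⟨h1, h2⟩ := (MT.mem_cset c j0 p0).1 h
        have h3 : c p0 = some j0 := h2
        rw [hc] at h3
        exact absurd h3 (by simp)
      rw [← Finset.mul_prod_erase univ (fun j => F j (MT.cset c j)) (Finset.mem_univ j0)]
      have e1 : F j0 (MT.cset c j0) = (g (MT.part c j0) - g (p0 * MT.part c j0)) /
          ((∏ p ∈ MT.cset c j0, p : ℕ) : ℝ) := by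
        simp only [hF, if_true, if_neg hnot]
        rw [MT.part_eq]
      have e2 : ∏ j ∈ univ.erase j0, F j (MT.cset c j) =
          (∏ j ∈ univ.erase j0, g (MT.part c j) ^ 2) /
            ∏ j ∈ univ.erase j0, ((∏ p ∈ MT.cset c j, p : ℕ) : ℝ) := by
        rw [← Finset.prod_div_distrib]
        refine Finset.prod_congr rfl fun j hj => ?_
        simp only [hF, if_neg (Finset.ne_of_mem_erase hj)]
        rw [MT.part_eq]
      have e3 : (MT.nn c : ℝ) = ((∏ p ∈ MT.cset c j0, p : ℕ) : ℝ) *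
          ∏ j ∈ univ.erase j0, ((∏ p ∈ MT.cset c j, p : ℕ) : ℝ) := by
        rw [Finset.mul_prod_erase univ (fun j => ((∏ p ∈ MT.cset c j, p : ℕ) : ℝ)) (Finset.mem_univ j0),
          MT.nn_eq]
        push_cast
        rfl
      rw [e1, e2, e3, one_div, mul_inv, div_eq_mul_inv, div_eq_mul_inv]
      refine le_of_eq ?_
      ring
    · exact Finset.prod_nonneg fun j _ => hF0 j _ (Finset.mem_powerset.2 (MT.cset_subset c j))
  refine (Finset.sum_le_sum fun c _ => hstep c).trans ?_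
  refine (MT.sum_col_le Finset.univ (fun _ => P.powerset) F
    (fun c _ j => Finset.mem_powerset.2 (MT.cset_subset c j)) hF0).trans ?_
  rw [← Finset.mul_prod_erase univ (fun j => ∑ D ∈ P.powerset, F j D) (Finset.mem_univ j0)]
  have e4 : ∏ j ∈ univ.erase j0, ∑ D ∈ P.powerset, F j D = MT.A2 P g ^ (k - 1) := by
    rw [Finset.prod_congr rfl (g := fun _ => MT.A2 P g), Finset.prod_const,
      Finset.card_erase_of_mem (Finset.mem_univ j0), Finset.card_univ, Fintype.card_fin]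
    intro j hj
    unfold MT.A2
    refine Finset.sum_congr rfl fun D _ => ?_
    simp only [hF, if_neg (Finset.ne_of_mem_erase hj)]
  rw [e4]
  refine mul_le_mul_of_nonneg_right ?_ (pow_nonneg (badC_A2_nonneg g) _)
  refine le_trans (le_of_eq ?_) hS2
  rw [Finset.sum_filter]
  refine Finset.sum_congr rfl fun D _ => ?_
  simp only [hF, if_true]
  by_cases h : (p0 : ℕ) ∈ D
  · rw [if_pos h, if_neg (not_not.2 h)]
  · rw [if_neg h, if_pos h]

theorem badC_group (Φ : (Fin k → Finset ℕ) → ℝ) (j0 : Fin k) :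
    ∑ E ∈ Fintype.piFinset (fun _ : Fin k => P.powerset), Φ E =
      ∑ E ∈ Fintype.piFinset (fun j : Fin k => if j = j0 then {∅} else P.powerset),
        ∑ D ∈ P.powerset, Φ (Function.update E j0 D) := by
  rw [← Finset.sum_product']
  refine Finset.sum_bij' (fun E _ => (Function.update E j0 ∅, E j0))
    (fun x _ => Function.update x.1 j0 x.2) ?_ ?_ ?_ ?_ ?_
  · intro E hE
    rw [Fintype.mem_piFinset] at hE
    rw [Finset.mem_product, Fintype.mem_piFinset]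
    refine ⟨fun j => ?_, hE j0⟩
    by_cases hj : j = j0
    · subst hj
      simp
    · simp only [Function.update_of_ne hj, if_neg hj]
      exact hE j
  · intro x hx
    rw [Finset.mem_product, Fintype.mem_piFinset] at hx
    rw [Fintype.mem_piFinset]
    intro j
    by_cases hj : j = j0
    · subst hj
      rw [Function.update_self]
      exact hx.2
    · rw [Function.update_of_ne hj]
      have := hx.1 j
      rwa [if_neg hj] at this
  · intro E _
    simp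
  · intro x hx
    rw [Finset.mem_product, Fintype.mem_piFinset] at hx
    have h1 : x.1 j0 = ∅ := by
      have := hx.1 j0
      rw [if_pos rfl, Finset.mem_singleton] at this
      exact this
    refine Prod.ext ?_ ?_
    · show Function.update (Function.update x.1 j0 x.2) j0 ∅ = x.1
      rw [Function.update_idem, ← h1, Function.update_eq_self]
    · show Function.update x.1 j0 x.2 j0 = x.2
      rw [Function.update_self]
  · intro E _
    show Φ E = Φ (Function.update (Function.update E j0 ∅) j0 (E j0))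
    rw [Function.update_idem, Function.update_eq_self]

theorem sum_bdry (hP : ∀ p ∈ P, p.Prime) (g : ℕ → ℝ) (hg : MT.GOK P g) (R : ℝ) (hR : 0 ≤ R)
    (p0 : ℕ) (j0 : Fin k) (S : ℝ) (hS : ∀ Y : ℝ, 0 ≤ Y → shortS P p0 Y ≤ S) :
    ∑ c : MT.Col P k, 1 / (MT.nn c : ℝ) *
      ((if R / (p0 : ℝ) < (MT.nn c : ℝ) ∧ (MT.nn c : ℝ) ≤ R then 1 else 0) *
          ∏ j, g (MT.part c j) ^ 2) ≤ S * MT.A2 P g ^ (k - 1) := by
  set w : Finset ℕ → ℝ := fun D => ((∏ p ∈ D, p : ℕ) : ℝ) with hw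
  set Φ : (Fin k → Finset ℕ) → ℝ := fun E =>
    (if R / (p0 : ℝ) < ∏ j, w (E j) ∧ ∏ j, w (E j) ≤ R then 1 else 0) *
      ∏ j, (g (∏ p ∈ E j, p) ^ 2 / w (E j)) with hΦ
  have hw0 : ∀ D, 0 ≤ w D := fun D => Nat.cast_nonneg _
  have hΦ0 : ∀ E, 0 ≤ Φ E := by
    intro E
    simp only [hΦ]
    refine mul_nonneg ?_ (Finset.prod_nonneg fun j _ => div_nonneg (sq_nonneg _) (hw0 _))
    split_ifs <;> norm_num
  have hstep : ∀ c : MT.Col P k, 1 / (MT.nn c : ℝ) *
      ((if R / (p0 : ℝ) < (MT.nn c : ℝ) ∧ (MT.nn c : ℝ) ≤ R then 1 else 0) *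
          ∏ j, g (MT.part c j) ^ 2) = Φ (MT.cset c) := by
    intro c
    have e1 : (MT.nn c : ℝ) = ∏ j, w (MT.cset c j) := by
      rw [MT.nn_eq, Nat.cast_prod]
    simp only [hΦ]
    rw [← badC_term g c, ← e1]
    ring
  rw [Finset.sum_congr rfl fun c _ => hstep c]
  have hle : ∑ c : MT.Col P k, Φ (MT.cset c) ≤
      ∑ E ∈ Fintype.piFinset (fun _ : Fin k => P.powerset), Φ E := by
    have e1 : ∑ c : MT.Col P k, Φ (MT.cset c) = ∑ D ∈ Finset.univ.image (MT.cset (P := P) (k := k)), Φ D := by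
      rw [Finset.sum_image]
      intro a _ b _ h
      exact MT.cset_injective h
    rw [e1]
    refine Finset.sum_le_sum_of_subset_of_nonneg ?_ fun E _ _ => hΦ0 E
    intro D hD
    obtain ⟨c, _, rfl⟩ := Finset.mem_image.1 hD
    rw [Fintype.mem_piFinset]
    exact fun j => Finset.mem_powerset.2 (MT.cset_subset c j)
  refine hle.trans ?_
  rw [badC_group Φ j0]
  have hinner : ∀ E ∈ Fintype.piFinset (fun j : Fin k => if j = j0 then {∅} else P.powerset),
      ∑ D ∈ P.powerset, Φ (Function.update E j0 D) ≤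
        (∏ j, if j = j0 then 1 else (g (∏ p ∈ E j, p) ^ 2 / w (E j))) * S := by
    intro E hE
    rw [Fintype.mem_piFinset] at hE
    set M : ℝ := ∏ j ∈ univ.erase j0, w (E j) with hM
    set G : ℝ := ∏ j ∈ univ.erase j0, (g (∏ p ∈ E j, p) ^ 2 / w (E j)) with hG
    have hM0 : 0 < M := by
      refine Finset.prod_pos fun j hj => ?_
      have h1 := hE j
      rw [if_neg (Finset.ne_of_mem_erase hj), Finset.mem_powerset] at h1
      have h2 : 0 < ∏ p ∈ E j, p := Finset.prod_pos fun p hp => (hP p (h1 hp)).pos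
      show (0 : ℝ) < ((∏ p ∈ E j, p : ℕ) : ℝ)
      exact_mod_cast h2
    have hG0 : 0 ≤ G := Finset.prod_nonneg fun j _ => div_nonneg (sq_nonneg _) (hw0 _)
    have eG : (∏ j, if j = j0 then (1 : ℝ) else (g (∏ p ∈ E j, p) ^ 2 / w (E j))) = G := by
      rw [← Finset.mul_prod_erase univ _ (Finset.mem_univ j0), if_pos rfl, one_mul]
      exact Finset.prod_congr rfl fun j hj => by rw [if_neg (Finset.ne_of_mem_erase hj)]
    rw [eG]
    have hsh := hS (R / M) (div_nonneg hR hM0.le)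
    refine le_trans ?_ (mul_le_mul_of_nonneg_left hsh hG0)
    unfold shortS
    rw [Finset.mul_sum]
    refine Finset.sum_le_sum fun D hD => ?_
    rw [Finset.mem_powerset] at hD
    have e1 : ∏ j, w (Function.update E j0 D j) = w D * M := by
      rw [← Finset.mul_prod_erase univ _ (Finset.mem_univ j0), Function.update_self]
      congr 1
      exact Finset.prod_congr rfl fun j hj => by
        rw [Function.update_of_ne (Finset.ne_of_mem_erase hj)]
    have e2 : ∏ j, (g (∏ p ∈ Function.update E j0 D j, p) ^ 2 / w (Function.update E j0 D j)) =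
        (g (∏ p ∈ D, p) ^ 2 / w D) * G := by
      rw [← Finset.mul_prod_erase univ _ (Finset.mem_univ j0), Function.update_self]
      congr 1
      exact Finset.prod_congr rfl fun j hj => by
        rw [Function.update_of_ne (Finset.ne_of_mem_erase hj)]
    simp only [hΦ]
    rw [e1, e2]
    have hiff : (R / (p0 : ℝ) < w D * M ∧ w D * M ≤ R) ↔ (R / M / (p0 : ℝ) < w D ∧ w D ≤ R / M) := by
      rw [div_right_comm, div_lt_iff₀ hM0, le_div_iff₀ hM0]
    have hg1 : g (∏ p ∈ D, p) ≤ 1 := by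
      have := hg.anti D hD ∅ (Finset.empty_subset _)
      rwa [Finset.prod_empty, hg.one] at this
    have hg0 := hg.nonneg D hD
    by_cases hcond : R / (p0 : ℝ) < w D * M ∧ w D * M ≤ R
    · rw [if_pos hcond, if_pos (hiff.1 hcond), one_mul]
      have h3 : g (∏ p ∈ D, p) ^ 2 / w D ≤ 1 / w D :=
        div_le_div_of_nonneg_right (pow_le_one₀ hg0 hg1) (hw0 D)
      calc g (∏ p ∈ D, p) ^ 2 / w D * G ≤ 1 / w D * G := mul_le_mul_of_nonneg_right h3 hG0
        _ = G * (1 / w D) := mul_comm _ _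
    · rw [if_neg hcond, if_neg (fun h => hcond (hiff.2 h)), zero_mul, mul_zero]
  refine (Finset.sum_le_sum hinner).trans (le_of_eq ?_)
  rw [← Finset.sum_mul, mul_comm]
  congr 1
  rw [← Finset.prod_univ_sum (fun j : Fin k => if j = j0 then {∅} else P.powerset)
    (fun j D => if j = j0 then (1 : ℝ) else (g (∏ p ∈ D, p) ^ 2 / w D))]
  rw [← Finset.mul_prod_erase univ _ (Finset.mem_univ j0), if_pos rfl, Finset.sum_singleton,
    if_pos rfl, one_mul, Finset.prod_congr rfl (g := fun _ => MT.A2 P g), Finset.prod_const,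
    Finset.card_erase_of_mem (Finset.mem_univ j0), Finset.card_univ, Fintype.card_fin]
  intro j hj
  rw [if_neg (Finset.ne_of_mem_erase hj)]
  unfold MT.A2
  exact Finset.sum_congr rfl fun D _ => by rw [if_neg (Finset.ne_of_mem_erase hj)]

theorem bad_model (hP : ∀ p ∈ P, p.Prime) (hPk : ∀ p ∈ P, k < p) (g : ℕ → ℝ) (hg : MT.GOK P g)
    (R : ℝ) (hR : 0 ≤ R) (p0 : {p // p ∈ P}) (j0 : Fin k) (S : ℝ)
    (hS : ∀ Y : ℝ, 0 ≤ Y → shortS P ((p0 : ℕ) : ℝ) Y ≤ S)
    (hS2 : ∑ D ∈ P.powerset.filter (fun D => (p0 : ℕ) ∉ D),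
      (g (∏ p ∈ D, p) - g (p0 * ∏ p ∈ D, p)) / ((∏ p ∈ D, p : ℕ) : ℝ) ≤ S) :
    MT.EE (qb p0 j0) (fun a : MT.Col P k => MT.Lam g R a ^ 2) ≤
      4 * S * MT.A2 P g ^ (k - 1) + 2 * ((k : ℝ) / ((p0 : ℕ) : ℝ)) ^ 2 * MT.A2 P g ^ k := by
  refine (bad_diag hP hPk g R p0 j0).trans ?_
  have h1 := sum_main (P := P) (k := k) g
  have h2 := sum_diff hP g hg p0 j0 S hS2
  have h3 := sum_bdry hP g hg R hR (p0 : ℕ) j0 S hS
  have hpt : ∀ c : MT.Col P k, (if c p0 = none then 1 / (MT.nn c : ℝ) * ub g R p0 j0 c ^ 2 else 0) ≤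
      2 * (1 / (MT.nn c : ℝ) *
        ((if R / ((p0 : ℕ) : ℝ) < (MT.nn c : ℝ) ∧ (MT.nn c : ℝ) ≤ R then 1 else 0) *
          ∏ j, g (MT.part c j) ^ 2)) +
      2 * (if c p0 = none then 1 / (MT.nn c : ℝ) *
        ((g (MT.part c j0) - g (p0 * MT.part c j0)) * ∏ j ∈ univ.erase j0, g (MT.part c j) ^ 2) else 0) +
      2 * ((k : ℝ) / ((p0 : ℕ) : ℝ)) ^ 2 * (1 / (MT.nn c : ℝ) * ∏ j, g (MT.part c j) ^ 2) := by
    intro c
    have hn : 0 ≤ 1 / (MT.nn c : ℝ) := by positivity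
    have hprod : 0 ≤ ∏ j, g (MT.part c j) ^ 2 := Finset.prod_nonneg fun j _ => sq_nonneg _
    have hind : (0 : ℝ) ≤ (if R / ((p0 : ℕ) : ℝ) < (MT.nn c : ℝ) ∧ (MT.nn c : ℝ) ≤ R then 1 else 0) := by
      split_ifs <;> norm_num
    by_cases hc : c p0 = none
    · rw [if_pos hc, if_pos hc]
      have h4 := mul_le_mul_of_nonneg_left (ub_sq_le hP g hg R p0 j0 c hc) hn
      refine h4.trans (le_of_eq ?_)
      ring
    · rw [if_neg hc, if_neg hc]
      have h5 : 0 ≤ 1 / (MT.nn c : ℝ) *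
        ((if R / ((p0 : ℕ) : ℝ) < (MT.nn c : ℝ) ∧ (MT.nn c : ℝ) ≤ R then 1 else 0) *
          ∏ j, g (MT.part c j) ^ 2) := mul_nonneg hn (mul_nonneg hind hprod)
      have h6 : 0 ≤ 2 * ((k : ℝ) / ((p0 : ℕ) : ℝ)) ^ 2 * (1 / (MT.nn c : ℝ) * ∏ j, g (MT.part c j) ^ 2) :=
        mul_nonneg (by positivity) (mul_nonneg hn hprod)
      linarith
  refine (Finset.sum_le_sum fun c _ => hpt c).trans ?_
  rw [Finset.sum_add_distrib, Finset.sum_add_distrib, ← Finset.mul_sum, ← Finset.mul_sum,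
    ← Finset.mul_sum]
  have h7 : 2 * ((k : ℝ) / ((p0 : ℕ) : ℝ)) ^ 2 *
      ∑ c : MT.Col P k, 1 / (MT.nn c : ℝ) * ∏ j, g (MT.part c j) ^ 2 ≤
      2 * ((k : ℝ) / ((p0 : ℕ) : ℝ)) ^ 2 * MT.A2 P g ^ k :=
    mul_le_mul_of_nonneg_left h1 (by positivity)
  linarith

end Pool.Agent.H74.QT
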