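import Pool.Agent.H74.QT.Defs

/-!
JOB QT-5 (about 150 lines). The sum over the `ν` with `p0 ∣ ν + h j0`: reduction to the model.

PROOF. Apply `T1Q` (H21/QG/Sums.lean) with `S = S0 ℓ W A0`, `ω ν = if p0 ∣ ν + h j0 then 1 else 0`, `X = N/(W p0)`, `N = ⌊exp ℓ⌋₊`,
`q = qb p0 j0`, `M = fun _ => 30`. The sum over `lev P (YQ ℓ)` of `((k+1)^2)^#D * 30` is at most `30 * (YQ ℓ * B')`, exactly as in the proof of
`sums_S1` in that file. The hypothesis `hM`: let `D ∈ lev P (YQ ℓ)`, `b`. For `p0 ∈ P` and every `ν`: `p0 ∣ ν + h j0 ↔ outc h ν p0 = some j0`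
(`outc_eq_some (hPh p0 ..) j0`, H16/MT5).
* If `p0 ∈ D` and `b p0 ≠ j0`: both terms are `0` (a factor `outc h ν p0 = some (b p0)` contradicts `ω ν ≠ 0`; `qb p0 j0 p0 (b p0) = 0`).
* Otherwise put `D' = insert p0 D ⊆ P`, `b' = Function.update b p0 j0`. Then
  `ω ν * ∏_{p ∈ P} (if p ∈ D → outc h ν p = some (b p) then 1 else 0) = ∏_{p ∈ P} (if p ∈ D' → outc h ν p = some (b' p) then 1 else 0)` and
  `N/(W p0) * ∏_{p ∈ D} qb p0 j0 p (b p) = N/W * ∏_{p ∈ D'} 1/p` (two cases: `p0 ∈ D`: `qb .. = 1` at `p0`; `p0 ∉ D`), and the inequality is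
  `sums_rem` (same file) with weight `1`, `T = N`, `C = 30` (`card_class_abs`, as in `S1Q_flat`), for `D'`, `b'`.
Finally `N ≤ exp ℓ` and `0 ≤ EE (qb p0 j0) (Lam^2)` (all the weights `ww (qb p0 j0 p) (a p)` are `≥ 0`: `1 - k/p ≥ 0` by `hPk`, and
`1 - ∑ j, (if j = j0 then 1 else 0) = 0` at `p0`; see `H90/MT/Basic.lean` for `ww`, `EE`).
-/

set_option autoImplicit false

open Finset Filter Topology

namespace Pool.Agent.H74.QT

open Pool.Agent.H16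
open Pool.Agent.H90
open Pool.Agent.H21.QG (R1 RQ rQ YQ LQ TM)

variable {k : ℕ} {P : Finset ℕ} {n : ℕ} {ρ ℓ : ℝ}

/-- the product of the conditioned densities -/
lemma badSum_prod_qb (p0 : ℕ) (j0 : Fin k) (D : Finset ℕ) (b : ℕ → Fin k) (hb : p0 ∈ D → b p0 = j0) :
    ∏ p ∈ D, qb p0 j0 p (b p) = ∏ p ∈ D.erase p0, 1 / (p : ℝ) := by
  classical
  have h1 : ∏ p ∈ D.erase p0, qb p0 j0 p (b p) = ∏ p ∈ D.erase p0, 1 / (p : ℝ) := by
    apply Finset.prod_congr rfl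
    intro p hp
    rw [Finset.mem_erase] at hp
    unfold qb
    rw [if_neg hp.1]
  by_cases h0 : p0 ∈ D
  · rw [← Finset.mul_prod_erase D _ h0, h1]
    unfold qb
    rw [if_pos rfl, if_pos (hb h0), one_mul]
  · rw [Finset.erase_eq_of_notMem h0] at h1 ⊢
    exact h1

/-- the product with the extra prime -/
lemma badSum_prod_insert (p0 : ℕ) (D : Finset ℕ) :
    ∏ p ∈ insert p0 D, 1 / (p : ℝ) = 1 / (p0 : ℝ) * ∏ p ∈ D.erase p0, 1 / (p : ℝ) := by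
  classical
  have h1 : insert p0 D = insert p0 (D.erase p0) := by
    ext x
    simp only [Finset.mem_insert, Finset.mem_erase]
    tauto
  rw [h1, Finset.prod_insert (Finset.notMem_erase p0 D)]

/-- the summand with the extra divisibility condition -/
lemma badSum_term (h : Fin k → ℕ) (hPh : ∀ p ∈ P, ∀ j j', j ≠ j' → ¬ p ∣ nd (h j) (h j'))
    (p0 : {p // p ∈ P}) (j0 : Fin k) (D : Finset ℕ) (b : ℕ → Fin k)
    (hb : (p0 : ℕ) ∈ D → b p0 = j0) (ν : ℕ) :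
    (if (p0 : ℕ) ∣ ν + h j0 then (1 : ℝ) else 0) *
      ∏ p : {p // p ∈ P}, (if (p : ℕ) ∈ D → outc h ν p = some (b p) then (1 : ℝ) else 0) =
    1 * ∏ p : {p // p ∈ P}, (if (p : ℕ) ∈ insert (p0 : ℕ) D →
      outc h ν p = some (Function.update b (p0 : ℕ) j0 p) then (1 : ℝ) else 0) := by
  classical
  have h0 := outc_eq_some (n := ν) (hPh p0 p0.2) j0
  by_cases hd : (p0 : ℕ) ∣ ν + h j0
  · rw [if_pos hd, one_mul, one_mul]
    apply Finset.prod_congr rfl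
    intro p _
    by_cases hp : (p : ℕ) = (p0 : ℕ)
    · have h1 : outc h ν p = some j0 := by rw [hp]; exact h0.mpr hd
      rw [if_pos, if_pos]
      · intro _
        rw [h1, hp, Function.update_self]
      · intro h2
        rw [h1, hp, hb (by rw [← hp]; exact h2)]
    · have h2 : ((p : ℕ) ∈ insert (p0 : ℕ) D) = ((p : ℕ) ∈ D) := by
        rw [Finset.mem_insert]
        simp [hp]
      rw [Function.update_of_ne hp]
      exact if_congr (by rw [h2]) rfl rfl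
  · rw [if_neg hd, zero_mul, one_mul]
    symm
    apply Finset.prod_eq_zero (Finset.mem_univ p0)
    rw [if_neg]
    intro h1
    have h2 := h1 (Finset.mem_insert_self _ _)
    rw [Function.update_self] at h2
    exact hd (h0.mp h2)

/-- the error sum -/
lemma badSum_err (hP : ∀ p ∈ P, p.Prime) (B' : ℝ)
    (hB' : ∏ p ∈ P, (1 + (((k + 1) ^ 2 : ℕ) : ℝ) / p) ≤ B') :
    ∑ D ∈ lev P (YQ ℓ), (((k + 1) ^ 2 : ℕ) : ℝ) ^ #D * 30 ≤ 30 * (YQ ℓ * B') := by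
  classical
  set Y := YQ ℓ with hY
  have hYpos : 0 < Y := Real.exp_pos _
  have h2 : ∑ D ∈ lev P Y, (((k + 1) ^ 2 : ℕ) : ℝ) ^ #D * 30 ≤
      ∑ D ∈ lev P Y, 30 * (Y * ((((k + 1) ^ 2 : ℕ) : ℝ) ^ #D * ∏ p ∈ D, 1 / (p : ℝ))) := by
    apply Finset.sum_le_sum
    intro D hD
    obtain ⟨hDP, hDY⟩ := mem_lev.mp hD
    have hd0 : (0 : ℝ) < ((∏ p ∈ D, p : ℕ) : ℝ) := by
      exact_mod_cast Finset.prod_pos (fun p hp => (hP p (hDP hp)).pos)
    have e1 : ∏ p ∈ D, 1 / (p : ℝ) = 1 / ((∏ p ∈ D, p : ℕ) : ℝ) := by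
      rw [Finset.prod_div_distrib, Finset.prod_const_one]; push_cast; rfl
    rw [e1]
    have e2 : 1 ≤ Y * (1 / ((∏ p ∈ D, p : ℕ) : ℝ)) := by
      rw [mul_one_div, le_div_iff₀ hd0, one_mul]; exact hDY
    have e3 : (0 : ℝ) ≤ 30 * (((k + 1) ^ 2 : ℕ) : ℝ) ^ #D := by positivity
    calc (((k + 1) ^ 2 : ℕ) : ℝ) ^ #D * 30 = 30 * (((k + 1) ^ 2 : ℕ) : ℝ) ^ #D * 1 := by ring
      _ ≤ 30 * (((k + 1) ^ 2 : ℕ) : ℝ) ^ #D * (Y * (1 / ((∏ p ∈ D, p : ℕ) : ℝ))) :=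
          mul_le_mul_of_nonneg_left e2 e3
      _ = _ := by ring
  refine h2.trans ?_
  rw [← Finset.mul_sum, ← Finset.mul_sum]
  apply mul_le_mul_of_nonneg_left _ (by positivity)
  apply mul_le_mul_of_nonneg_left _ hYpos.le
  refine (sum_pow_card_prod_le P (lev P Y) (Finset.filter_subset _ _) (fun p => 1 / (p : ℝ))
    (fun p _ => by positivity) (((k + 1) ^ 2 : ℕ) : ℝ) (by positivity)).trans ?_
  refine le_trans (le_of_eq ?_) hB'
  apply Finset.prod_congr rfl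
  intro p _
  rw [mul_one_div]

lemma badSum_EE_nonneg (hP : ∀ p ∈ P, p.Prime) (hPk : ∀ p ∈ P, k < p) (p0 : ℕ) (j0 : Fin k)
    (F : MT.Col P k → ℝ) (hF : ∀ a, 0 ≤ F a) : 0 ≤ MT.EE (qb p0 j0) F := by
  classical
  unfold MT.EE
  apply Finset.sum_nonneg
  intro a _
  apply mul_nonneg _ (hF a)
  apply Finset.prod_nonneg
  intro p _
  have hp0 : (0 : ℝ) < ((p : ℕ) : ℝ) := by exact_mod_cast (hP p p.2).pos
  apply MT.ww_nonneg
  · intro j
    unfold qb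
    split_ifs
    · exact zero_le_one
    · exact le_rfl
    · positivity
  · unfold qb
    by_cases hp : (p : ℕ) = p0
    · simp only [if_pos hp]
      rw [Finset.sum_ite_eq' Finset.univ j0]
      simp
    · simp only [if_neg hp]
      rw [Finset.sum_const, Finset.card_univ, Fintype.card_fin, nsmul_eq_mul, mul_one_div,
        div_le_one hp0]
      exact_mod_cast (hPk p p.2).le

theorem bad_sum (hk : 0 < k) (hP : ∀ p ∈ P, p.Prime) (hPk : ∀ p ∈ P, k < p) (hn : 1 ≤ n) (hρ : 0 ≤ ρ)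
    (hℓ : 10 ≤ ℓ) (h : Fin k → ℕ) (hPh : ∀ p ∈ P, ∀ j j', j ≠ j' → ¬ p ∣ nd (h j) (h j')) (W A0 : ℕ)
    (hW : 0 < W) (hPW : ∀ p ∈ P, ¬ p ∣ W) (B B' : ℝ)
    (hB : ∏ p ∈ P, (1 + (k : ℝ) / p) ≤ B)
    (hB' : ∏ p ∈ P, (1 + (((k + 1) ^ 2 : ℕ) : ℝ) / p) ≤ B') (p0 : {p // p ∈ P}) (j0 : Fin k) :
    ∑ ν ∈ (S0 ℓ W A0).filter (fun ν => (p0 : ℕ) ∣ ν + h j0), LQ h P n ρ ℓ ν ≤
      Real.exp ℓ / (W * (p0 : ℕ)) * MT.EE (qb p0 j0) (fun a : MT.Col P k => MT.Lam (gst n ρ) (RQ ℓ) a ^ 2) +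
        B ^ 2 * (30 * (YQ ℓ * B')) := by
  classical
  set N : ℕ := ⌊Real.exp ℓ⌋₊ with hN
  have hsum : ∑ ν ∈ (S0 ℓ W A0).filter (fun ν => (p0 : ℕ) ∣ ν + h j0), LQ h P n ρ ℓ ν =
      ∑ ν ∈ S0 ℓ W A0, (if (p0 : ℕ) ∣ ν + h j0 then (1 : ℝ) else 0) * LQ h P n ρ ℓ ν := by
    rw [Finset.sum_filter]
    apply Finset.sum_congr rfl
    intro ν _
    rw [ite_mul, one_mul, zero_mul]
  rw [hsum]
  have hp0 : (0 : ℝ) < ((p0 : ℕ) : ℝ) := by exact_mod_cast (hP p0 p0.2).pos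
  have hW' : (0 : ℝ) < W := by exact_mod_cast hW
  have hM : ∀ D ∈ lev P (YQ ℓ), ∀ b : ℕ → Fin k,
      |(∑ ν ∈ S0 ℓ W A0, (if (p0 : ℕ) ∣ ν + h j0 then (1 : ℝ) else 0) *
        ∏ p : {p // p ∈ P}, (if (p : ℕ) ∈ D → outc h ν p = some (b p) then (1 : ℝ) else 0)) -
        (N : ℝ) / (W * (p0 : ℕ)) * ∏ p ∈ D, qb p0 j0 p (b p)| ≤ 30 := by
    intro D hD b
    obtain ⟨hDP, -⟩ := mem_lev.mp hD
    by_cases hb : (p0 : ℕ) ∈ D → b p0 = j0
    · simp_rw [badSum_term h hPh p0 j0 D b hb]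
      rw [badSum_prod_qb (p0 : ℕ) j0 D b hb]
      have h1 := Pool.Agent.H21.QG.sums_rem h P hP hPh W A0 N hW hPW (fun _ => 1) (N : ℝ) 30 (by
        intro q a hq
        rw [Finset.sum_const, nsmul_eq_mul, mul_one]
        exact (card_class_abs _ q a hq).trans (by norm_num)) (insert (p0 : ℕ) D)
        (Finset.insert_subset p0.2 hDP) (Function.update b (p0 : ℕ) j0)
      rw [badSum_prod_insert] at h1
      have h2 : (N : ℝ) / (W * (p0 : ℕ)) * ∏ p ∈ D.erase (p0 : ℕ), 1 / (p : ℝ) =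
          (N : ℝ) / W * (1 / ((p0 : ℕ) : ℝ) * ∏ p ∈ D.erase (p0 : ℕ), 1 / (p : ℝ)) := by
        field_simp
      rw [h2]
      exact h1
    · push Not at hb
      obtain ⟨hb1, hb2⟩ := hb
      have h1 : ∑ ν ∈ S0 ℓ W A0, (if (p0 : ℕ) ∣ ν + h j0 then (1 : ℝ) else 0) *
          ∏ p : {p // p ∈ P}, (if (p : ℕ) ∈ D → outc h ν p = some (b p) then (1 : ℝ) else 0) = 0 := by
        apply Finset.sum_eq_zero
        intro ν _
        by_cases hd : (p0 : ℕ) ∣ ν + h j0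
        · have h2 : outc h ν p0 = some j0 := (outc_eq_some (hPh p0 p0.2) j0).mpr hd
          rw [Finset.prod_eq_zero (Finset.mem_univ p0), mul_zero]
          rw [if_neg]
          intro h3
          have h4 := h3 hb1
          rw [h2, Option.some.injEq] at h4
          exact hb2 h4.symm
        · rw [if_neg hd, zero_mul]
      have h2 : ∏ p ∈ D, qb p0 j0 p (b p) = 0 := by
        apply Finset.prod_eq_zero hb1
        unfold qb
        rw [if_pos rfl, if_neg hb2]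
      rw [h1, h2, mul_zero, sub_zero, abs_zero]
      norm_num
  have h1 := Pool.Agent.H21.QG.T1Q (n := n) (ρ := ρ) (ℓ := ℓ) hk hP hn hρ (by linarith) h (S0 ℓ W A0)
    (fun ν => if (p0 : ℕ) ∣ ν + h j0 then (1 : ℝ) else 0)
    ((N : ℝ) / (W * (p0 : ℕ))) (qb p0 j0) (fun _ => 30) (fun _ _ => by positivity) hM
    B (30 * (YQ ℓ * B')) hB (badSum_err hP B' hB')
  have h2 := (abs_le.mp h1).2
  have h3 : 0 ≤ MT.EE (qb p0 j0) (fun a : MT.Col P k => MT.Lam (gst n ρ) (RQ ℓ) a ^ 2) :=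
    badSum_EE_nonneg hP hPk p0 j0 _ (fun a => sq_nonneg _)
  have h4 : (N : ℝ) / (W * (p0 : ℕ)) ≤ Real.exp ℓ / (W * (p0 : ℕ)) :=
    div_le_div_of_nonneg_right (Nat.floor_le (Real.exp_pos _).le) (by positivity)
  have h5 := mul_le_mul_of_nonneg_right h4 h3
  linarith

end Pool.Agent.H74.QT
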