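import Pool.Agent.H74.QT.Defs
import Pool.Agent.H2.NC.WFacts
import Pool.Agent.H21.QG.GFinal

/-!
JOB QT-4 (about 200 lines). The sieving set `PT e ℓ` for large `ℓ` (here `z = w1 ℓ = ⌊log ℓ⌋₊`, `W = WW z e`).

Everything is an adaptation of `Pool/Agent/H21/QG/Large.lean` (structure `MQ`, `ev_MQ`, `gYle`, `HL`, `HU`, `sigma`, `PQ_sub`) and of
`Pool/Agent/H21/QG/GFinal.lean` (`G_main`, `phi_ge`), with `zf ℓ` replaced by `w1 ℓ` and the excluded set `insert e (exclh h)` replaced by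
`{e}` (so `card_E` becomes `1000 * 1 ≤ w1 ℓ`). Everything there uses the general lemmas `S1d_lower`, `S1d_upper`, `G1_lower`,
`totient_WW_eq`, `one_sub_sum_le_prod` (public in `GFinal.lean`), which hold for every `z`.
* `ev_MW`: `w1 ℓ → ∞` (`Nat.floor` of `log ℓ`), `ev_log_pow 1 1 (c ^ 2 / (1280000 * k * n))` for `zρ` (as in `ev_MQ`).
* `ev_WW`: `WW (w1 ℓ) e = W1 ℓ e ≤ ℓ ^ 2` (`W1_le`), and `2 log ℓ ≤ ℓ/(2 (log ℓ)^2)`, `ℓ ^ 2 ≤ exp (ε ℓ)` for large `ℓ` (`ev_log_pow`).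
-/

set_option autoImplicit false

open Finset Filter Topology

namespace Pool.Agent.H74.QT

open Pool.Agent.H16
open Pool.Agent.H2.NC (w1 W1 P1 nu1)
open Pool.Agent.H21.QG (R1 RQ rQ YQ LQ TM G1 G1_lower totient_WW_eq one_sub_sum_le_prod)

/-- facts for large `ℓ` -/
structure MW (k n : ℕ) (c ℓ : ℝ) : Prop where
  ℓbig : 1000 ≤ ℓ
  z1 : 100 ≤ Real.log (w1 ℓ)
  zk : 16000 * (k : ℝ) ^ 2 + 2 * k + 3000 ≤ w1 ℓ
  zρ : Real.log ℓ ≤ rQ c k n ℓ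

theorem ev_MW (k n : ℕ) (hk : 0 < k) (hn : 0 < n) (c : ℝ) (hc : 0 < c) :
    ∀ᶠ ℓ : ℝ in atTop, MW k n c ℓ := by
  have hk0 : (0 : ℝ) < k := by exact_mod_cast hk
  have hn0 : (0 : ℝ) < n := by exact_mod_cast hn
  have hw : Tendsto (fun ℓ : ℝ => ((w1 ℓ : ℕ) : ℝ)) atTop atTop := by
    unfold w1
    exact tendsto_natCast_atTop_atTop.comp (tendsto_nat_floor_atTop.comp Real.tendsto_log_atTop)
  filter_upwards [eventually_ge_atTop (1000 : ℝ),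
    (Real.tendsto_log_atTop.comp hw).eventually (eventually_ge_atTop (100 : ℝ)),
    hw.eventually (eventually_ge_atTop (16000 * (k : ℝ) ^ 2 + 2 * k + 3000)),
    ev_log_pow 1 1 (c ^ 2 / (1280000 * k * n)) one_pos (by positivity)] with ℓ h1 h2 h3 h4
  rw [pow_one, Real.rpow_one] at h4
  exact ⟨h1, h2, h3, h4⟩

theorem W1_eq (ℓ : ℝ) (e : ℕ) : W1 ℓ e = WW (w1 ℓ) e := by
  unfold W1 WW
  congr 2
  ext p
  rw [mem_primesIoc, Nat.mem_primesLE]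
  constructor
  · rintro ⟨_, h2, h3⟩
    exact ⟨h2, h3⟩
  · rintro ⟨h2, h3⟩
    exact ⟨h3.one_lt, h2, h3⟩

theorem ev_WW (ε : ℝ) (hε : 0 < ε) : ∀ᶠ ℓ : ℝ in atTop, ∀ e : ℕ,
    Real.log (WW (w1 ℓ) e) ≤ ℓ / (2 * (Real.log ℓ) ^ 2) ∧ (WW (w1 ℓ) e : ℝ) ≤ Real.exp (ε * ℓ) := by
  filter_upwards [Pool.Agent.H2.NC.W1_le, eventually_ge_atTop (1000 : ℝ),
    ev_log_pow 3 1 (1 / 4) one_pos (by norm_num), ev_log_pow 1 1 (ε / 2) one_pos (by positivity)] with ℓ h1 h2 h3 h4 e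
  rw [Real.rpow_one] at h3 h4
  rw [pow_one] at h4
  have hℓ0 : 0 < ℓ := by linarith
  have hL : 0 < Real.log ℓ := Real.log_pos (by linarith)
  have hW0 : (0 : ℝ) < WW (w1 ℓ) e := by exact_mod_cast WW_pos (w1 ℓ) e
  have h5 : (WW (w1 ℓ) e : ℝ) ≤ ℓ ^ 2 := by rw [← W1_eq]; exact h1 e
  have h6 : Real.log (WW (w1 ℓ) e) ≤ 2 * Real.log ℓ := by
    have h7 := Real.log_le_log hW0 h5
    rw [Real.log_pow] at h7
    push_cast at h7
    exact h7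
  refine ⟨h6.trans ?_, ?_⟩
  · rw [le_div_iff₀ (by positivity)]
    nlinarith
  · rw [← Real.log_le_iff_le_exp hW0]
    linarith

theorem mem_PT {e : ℕ} {ℓ : ℝ} {p : ℕ} : p ∈ PT e ℓ ↔
    (w1 ℓ < p ∧ p ≤ ⌈R1 ℓ⌉₊ ∧ p.Prime) ∧ p ≠ e := by
  unfold PT
  rw [mem_PE, Finset.mem_singleton]

/-- all sieving primes are `≤ yy ℓ` -/
theorem PT_sub {ℓ : ℝ} (hℓ : 1000 ≤ ℓ) (e : ℕ) : PT e ℓ ⊆ primesIoc (w1 ℓ) (yy ℓ) := by
  have hR : ⌈R1 ℓ⌉₊ ≤ yy ℓ := by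
    unfold yy
    apply Nat.le_floor
    have h0 := Pool.Agent.H21.QG.R1_pos ℓ
    have h1 := Nat.ceil_lt_add_one h0.le
    have h2 : R1 ℓ * 2 ≤ Real.exp (ℓ / 2) := by
      have h3 : Real.exp (ℓ / 2) = R1 ℓ * Real.exp (13 * ℓ / 50) := by
        unfold R1
        rw [← Real.exp_add]; congr 1; ring
      rw [h3]
      apply mul_le_mul_of_nonneg_left _ h0.le
      have := Real.add_one_le_exp (13 * ℓ / 50)
      linarith
    have h4 : 1 ≤ R1 ℓ := Real.one_le_exp (by linarith)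
    linarith
  intro p hp
  have h1 := (mem_PT.mp hp).1
  unfold primesIoc
  rw [Finset.mem_filter, Finset.mem_Ioc]
  exact ⟨⟨h1.1, h1.2.1.trans hR⟩, h1.2.2⟩

variable {k n : ℕ} {c ℓ : ℝ}

theorem MW.ℓ0 (F : MW k n c ℓ) : 0 < ℓ := by linarith [F.ℓbig]

theorem MW.z0 (F : MW k n c ℓ) : (0 : ℝ) < w1 ℓ := by
  have h1 := F.zk
  have h2 : (0 : ℝ) ≤ k := Nat.cast_nonneg k
  have h3 : (0 : ℝ) ≤ (k : ℝ) ^ 2 := by positivity
  linarith

theorem MW.z2' (F : MW k n c ℓ) : 2 ≤ w1 ℓ := by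
  have h1 := F.zk
  have h2 : (0 : ℝ) ≤ k := Nat.cast_nonneg k
  have h3 : (0 : ℝ) ≤ (k : ℝ) ^ 2 := by positivity
  have : (2 : ℝ) ≤ w1 ℓ := by linarith
  exact_mod_cast this

theorem MW.zle (F : MW k n c ℓ) : (w1 ℓ : ℝ) ≤ Real.log ℓ := by
  unfold w1
  exact Nat.floor_le (Real.log_nonneg (by linarith [F.ℓbig]))

/-- `log (w1 ℓ) ≤ log ℓ` and `w1 ℓ ≤ ℓ` -/
theorem MW.zle2 (F : MW k n c ℓ) : Real.log (w1 ℓ) ≤ Real.log ℓ ∧ (w1 ℓ : ℝ) ≤ ℓ := by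
  have h1 := F.zle
  have h2 := Real.log_le_sub_one_of_pos F.ℓ0
  have h3 : (w1 ℓ : ℝ) ≤ ℓ := by linarith
  exact ⟨Real.log_le_log F.z0 h3, h3⟩

theorem MW.zy (F : MW k n c ℓ) : w1 ℓ ≤ yy ℓ := by
  unfold yy
  apply Nat.le_floor
  have h1 := F.zle
  have h0 : 0 ≤ ℓ / 2 := by linarith [F.ℓbig]
  have h2 := Real.add_one_le_exp (ℓ / 2)
  have h3 := Real.log_le_sub_one_of_pos (show 0 < ℓ / 2 by linarith [F.ℓbig])
  have h4 : Real.log ℓ = Real.log (ℓ / 2) + Real.log 2 := by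
    rw [← Real.log_mul (by linarith [F.ℓbig]) (by norm_num)]
    congr 1; ring
  have h5 := Real.log_two_lt_d9
  linarith

theorem facts_rQ_nonneg (F : MW k n c ℓ) : 0 ≤ rQ c k n ℓ := by
  unfold rQ
  have := F.ℓ0
  positivity

theorem facts_card (F : MW k n c ℓ) (e : ℕ) : 1000 * #({e} : Finset ℕ) ≤ w1 ℓ := by
  rw [Finset.card_singleton, mul_one]
  have h1 := F.zk
  have h2 : (0 : ℝ) ≤ k := Nat.cast_nonneg k
  have h3 : (0 : ℝ) ≤ (k : ℝ) ^ 2 := by positivity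
  have : (1000 : ℝ) ≤ w1 ℓ := by linarith
  exact_mod_cast this

theorem facts_gYle (F : MW k n c ℓ) (hk : 0 < k) (hn : 0 < n) (hc : 0 < c) (hc1 : c ≤ 1) (hk2 : 2 ^ n ≤ k)
    {i : ℕ} (hi : i < n) : gY (rQ c k n ℓ) i ≤ R1 ℓ := by
  unfold gY R1 rQ
  apply Real.exp_le_exp.mpr
  have hk0 : (0 : ℝ) < k := by exact_mod_cast hk
  have hn1 : (1 : ℝ) ≤ n := by exact_mod_cast hn
  have hℓ := F.ℓ0
  have h1 : (2 : ℝ) ^ i ≤ k := by
    have h2 : 2 ^ i ≤ k := (Nat.pow_le_pow_right (by norm_num) hi.le).trans hk2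
    exact_mod_cast h2
  have hc2 : c ^ 2 ≤ 1 := pow_le_one₀ hc.le hc1
  calc (2 : ℝ) ^ i * (c ^ 2 / (1280000 * k * n) * ℓ) ≤ k * (1 / (1280000 * k * 1) * ℓ) := by
        apply mul_le_mul h1 _ (by positivity) hk0.le
        apply mul_le_mul_of_nonneg_right _ hℓ.le
        apply div_le_div₀ zero_le_one hc2 (by positivity)
        exact mul_le_mul_of_nonneg_left hn1 (by positivity)
    _ = ℓ / 1280000 := by field_simp
    _ ≤ (1 / 4 - 1 / 100) * ℓ := by linarith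

theorem MW.HL (F : MW k n c ℓ) (hk : 0 < k) (hn : 0 < n) (hc : 0 < c) (hc1 : c ≤ 1) (hk2 : 2 ^ n ≤ k)
    (hcV : ∀ n : ℕ, 2 ≤ n → c / Real.log n ≤ Vp n) (e : ℕ) : ∀ i < n,
    c / 4 * (2 ^ i * rQ c k n ℓ) / Real.log (w1 ℓ) ≤ S1d (PT e ℓ) (gY (rQ c k n ℓ) i) := by
  intro i hi
  have hρ0 := facts_rQ_nonneg F
  have hY := facts_gYle F hk hn hc hc1 hk2 hi
  set ρ := rQ c k n ℓ with hρ
  have hL : 0 < Real.log (w1 ℓ) := by linarith [F.z1]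
  have hE : 2 * #({e} : Finset ℕ) ≤ w1 ℓ := by
    have := facts_card F e
    omega
  have h1 := S1d_lower (w1 ℓ) ⌈R1 ℓ⌉₊ F.z2' {e} hE (gY ρ i)
    (gY_ge_one hρ0 i) (hY.trans (Nat.le_ceil _))
  rw [log_gY] at h1
  refine le_trans ?_ h1
  have h2 := hcV (w1 ℓ) F.z2'
  calc c / 4 * (2 ^ i * ρ) / Real.log (w1 ℓ) = 2 ^ i * ρ * (c / Real.log (w1 ℓ) / 4) := by ring
    _ ≤ 2 ^ i * ρ * (Vp (w1 ℓ) / 4) := by
        apply mul_le_mul_of_nonneg_left _ (by positivity)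
        linarith

theorem MW.HU (F : MW k n c ℓ) (hc : 0 < c)
    (hcV : ∀ n : ℕ, 2 ≤ n → c / Real.log n ≤ Vp n) (e : ℕ) : ∀ i < n,
    S1d (PT e ℓ) (gY (rQ c k n ℓ) i) ≤ 1 / c * (2 ^ i * rQ c k n ℓ) / Real.log (w1 ℓ) := by
  intro i _
  have hρ0 := facts_rQ_nonneg F
  have hzρ := F.zρ
  set ρ := rQ c k n ℓ with hρ
  have hzY : (w1 ℓ : ℝ) ≤ gY ρ i := by
    refine le_trans ?_ (gY_mono hρ0 (Nat.zero_le i))
    unfold gY
    rw [pow_zero, one_mul, ← Real.log_le_iff_le_exp F.z0]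
    exact F.zle2.1.trans hzρ
  have h1 := S1d_upper hc hcV (w1 ℓ) ⌈R1 ℓ⌉₊ (by linarith [F.z1]) (PT e ℓ)
    (PE_sub _ _ _) (gY ρ i) hzY
  rw [log_gY] at h1
  refine h1.trans (le_of_eq ?_)
  field_simp

theorem MW.sigma (F : MW k n c ℓ) (e : ℕ) :
    ∑ p ∈ PT e ℓ, 1 / ((p : ℝ) - 1) ^ 2 ≤ 2 / (w1 ℓ : ℝ) := by
  set z := w1 ℓ with hz
  have hz2 := F.z2'
  have hz0 := F.z0
  have hinj : Set.InjOn (fun p : ℕ => p - 1) (PT e ℓ : Set ℕ) := by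
    intro a ha b hb hab
    have h1 := (mem_PT.mp (Finset.mem_coe.mp ha)).1.2.2.two_le
    have h2 := (mem_PT.mp (Finset.mem_coe.mp hb)).1.2.2.two_le
    simp only at hab
    omega
  have h1 : ∑ p ∈ PT e ℓ, 1 / ((p : ℝ) - 1) ^ 2 =
      ∑ q ∈ (PT e ℓ).image (fun p : ℕ => p - 1), 1 / (q : ℝ) ^ 2 := by
    rw [Finset.sum_image hinj]
    apply Finset.sum_congr rfl
    intro p hp
    have h2 := (mem_PT.mp hp).1.2.2.one_le
    rw [Nat.cast_sub h2, Nat.cast_one]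
  rw [h1]
  have h2 : (PT e ℓ).image (fun p : ℕ => p - 1) ⊆ Finset.Ioc (z - 1) ⌈R1 ℓ⌉₊ := by
    intro q hq
    rw [Finset.mem_image] at hq
    obtain ⟨p, hp, rfl⟩ := hq
    have h3 := (mem_PT.mp hp).1
    rw [Finset.mem_Ioc]
    omega
  refine (Finset.sum_le_sum_of_subset_of_nonneg h2 (fun q _ _ => by positivity)).trans ?_
  refine (sum_inv_sq_Ioc (z - 1) _ (by omega)).trans ?_
  have h3 : ((z - 1 : ℕ) : ℝ) = (z : ℝ) - 1 := by rw [Nat.cast_sub (by omega), Nat.cast_one]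
  rw [h3]
  have hzr : (2 : ℝ) ≤ z := by exact_mod_cast hz2
  rw [div_le_div_iff₀ (by linarith) hz0]
  linarith

theorem MW.G_main (F : MW k n c ℓ) (e : ℕ) (he : e = 1 ∨ (e.Prime ∧ 200 < e)) :
    (1 - 1 / 50) * (((WW (w1 ℓ) e).totient : ℝ) / WW (w1 ℓ) e) * (24 / 100 * ℓ) ≤
      G1 (PT e ℓ) (R1 ℓ) := by
  classical
  set z := w1 ℓ with hz
  set E := ({e} : Finset ℕ) with hE
  have hcard : 1000 * #E ≤ z := facts_card F e
  have hz0 : (0 : ℝ) < z := F.z0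
  have hℓ0 := F.ℓ0
  have hR1 : 1 ≤ R1 ℓ := Real.one_le_exp (by nlinarith)
  have h1 := G1_lower z ⌈R1 ℓ⌉₊ E (R1 ℓ) hR1 (Nat.le_ceil _)
  have hlogR : Real.log (R1 ℓ) = 24 / 100 * ℓ := by
    unfold R1
    rw [Real.log_exp]
    ring
  rw [hlogR] at h1
  have hPT : PT e ℓ = PE z ⌈R1 ℓ⌉₊ E := rfl
  rw [hPT]
  refine le_trans ?_ h1
  set A := (Nat.primesLE z).erase e with hA
  set B := Nat.primesLE z ∪ E.filter (fun p => p.Prime) with hB
  have hAB : A ⊆ B := by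
    intro p hp
    exact Finset.mem_union_left _ (Finset.mem_of_mem_erase hp)
  have hBp : ∀ p ∈ B, p.Prime := by
    intro p hp
    rcases Finset.mem_union.mp hp with h2 | h2
    · exact (Nat.mem_primesLE.mp h2).2
    · exact (Finset.mem_filter.mp h2).2
  have hsplit : (∏ p ∈ B \ A, (1 - 1 / (p : ℝ))) * ∏ p ∈ A, (1 - 1 / (p : ℝ)) = ∏ p ∈ B, (1 - 1 / (p : ℝ)) :=
    Finset.prod_sdiff hAB
  have hW0 : (0 : ℝ) < WW z e := by exact_mod_cast WW_pos z e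
  have hφ : ((WW z e).totient : ℝ) / WW z e = ∏ p ∈ A, (1 - 1 / (p : ℝ)) := by
    rw [totient_WW_eq, mul_comm, mul_div_assoc, div_self hW0.ne', mul_one]
  rw [hφ, ← hsplit]
  have hA0 : 0 ≤ ∏ p ∈ A, (1 - 1 / (p : ℝ)) := Finset.prod_nonneg (fun p hp => by
    have h2 : (1 : ℝ) ≤ p := by exact_mod_cast (hBp p (hAB hp)).one_le
    have : 1 / (p : ℝ) ≤ 1 := by rw [div_le_one (by linarith)]; exact h2
    linarith)
  have hkey : (1 : ℝ) - 1 / 50 ≤ ∏ p ∈ B \ A, (1 - 1 / (p : ℝ)) := by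
    have h2 := (one_sub_sum_le_prod (B \ A) (fun p => 1 / (p : ℝ)) (fun p _ => by positivity) (fun p hp => by
      have h3 : (1 : ℝ) ≤ p := by exact_mod_cast (hBp p (Finset.mem_sdiff.mp hp).1).one_le
      rw [div_le_one (by linarith)]; exact h3)).1
    refine le_trans ?_ h2
    have hsub : B \ A ⊆ ({e} : Finset ℕ).filter (fun p => p.Prime) ∪ E.filter (fun p => z < p) := by
      intro p hp
      rw [Finset.mem_sdiff] at hp
      have hpp := hBp p hp.1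
      rw [Finset.mem_union, Finset.mem_filter, Finset.mem_singleton, Finset.mem_filter]
      by_cases hpe : p = e
      · exact Or.inl ⟨hpe, hpp⟩
      · right
        have hzp : z < p := by
          by_contra hcon
          exact hp.2 (mem_WWset.mpr ⟨hpp, not_lt.mp hcon, hpe⟩)
        refine ⟨?_, hzp⟩
        rcases Finset.mem_union.mp hp.1 with h3 | h3
        · exact absurd (Nat.mem_primesLE.mp h3).1 (not_le.mpr hzp)
        · exact (Finset.mem_filter.mp h3).1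
    have h3 : ∑ p ∈ B \ A, 1 / (p : ℝ) ≤
        ∑ p ∈ ({e} : Finset ℕ).filter (fun p => p.Prime), 1 / (p : ℝ) + ∑ p ∈ E.filter (fun p => z < p), 1 / (p : ℝ) := by
      refine (Finset.sum_le_sum_of_subset_of_nonneg hsub (fun p _ _ => by positivity)).trans ?_
      have h4 := Finset.sum_union_inter (s₁ := ({e} : Finset ℕ).filter (fun p => p.Prime))
        (s₂ := E.filter (fun p => z < p)) (f := fun p : ℕ => 1 / (p : ℝ))
      have h5 : 0 ≤ ∑ p ∈ ({e} : Finset ℕ).filter (fun p => p.Prime) ∩ E.filter (fun p => z < p), 1 / (p : ℝ) :=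
        Finset.sum_nonneg (fun p _ => by positivity)
      linarith
    have h4 : ∑ p ∈ ({e} : Finset ℕ).filter (fun p => p.Prime), 1 / (p : ℝ) ≤ 1 / 200 := by
      rcases he with he | ⟨he1, he2⟩
      · have : ({e} : Finset ℕ).filter (fun p => p.Prime) = ∅ := by
          rw [Finset.filter_eq_empty_iff]
          intro p hp hpp
          rw [Finset.mem_singleton] at hp
          rw [hp, he] at hpp
          exact Nat.not_prime_one hpp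
        rw [this, Finset.sum_empty]
        norm_num
      · refine (Finset.sum_le_sum_of_subset_of_nonneg (Finset.filter_subset _ _) (fun p _ _ => by positivity)).trans ?_
        rw [Finset.sum_singleton]
        apply one_div_le_one_div_of_le (by norm_num)
        exact_mod_cast he2.le
    have h5 : ∑ p ∈ E.filter (fun p => z < p), 1 / (p : ℝ) ≤ 1 / 1000 := by
      have h6 : ∀ p ∈ E.filter (fun p => z < p), 1 / (p : ℝ) ≤ 1 / z := by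
        intro p hp
        apply one_div_le_one_div_of_le hz0
        exact_mod_cast (Finset.mem_filter.mp hp).2.le
      refine (Finset.sum_le_sum h6).trans ?_
      rw [Finset.sum_const, nsmul_eq_mul]
      have h7 : (#(E.filter (fun p => z < p)) : ℝ) ≤ #E := by exact_mod_cast Finset.card_filter_le _ _
      have h8 : (1000 : ℝ) * #E ≤ z := by exact_mod_cast hcard
      rw [mul_one_div, div_le_div_iff₀ hz0 (by norm_num)]
      linarith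
    linarith
  calc (1 - 1 / 50) * (∏ p ∈ A, (1 - 1 / (p : ℝ))) * (24 / 100 * ℓ)
      ≤ (∏ p ∈ B \ A, (1 - 1 / (p : ℝ))) * (∏ p ∈ A, (1 - 1 / (p : ℝ))) * (24 / 100 * ℓ) := by
        apply mul_le_mul_of_nonneg_right _ (by positivity)
        exact mul_le_mul_of_nonneg_right hkey hA0
    _ = _ := by ring

/-- `φ(W)/W ≥ c / log z` -/
theorem MW.phi_ge (F : MW k n c ℓ) (hcV : ∀ n : ℕ, 2 ≤ n → c / Real.log n ≤ Vp n) (e : ℕ) :
    c * WW (w1 ℓ) e ≤ ((WW (w1 ℓ) e).totient : ℝ) * Real.log (w1 ℓ) := by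
  classical
  have h1 := hcV (w1 ℓ) F.z2'
  have hL : 0 < Real.log (w1 ℓ) := by linarith [F.z1]
  have hW0 : (0 : ℝ) < WW (w1 ℓ) e := by exact_mod_cast WW_pos (w1 ℓ) e
  have hpr : ∀ p ∈ Nat.primesLE (w1 ℓ), (0 : ℝ) ≤ 1 - 1 / (p : ℝ) ∧ 1 - 1 / (p : ℝ) ≤ 1 := by
    intro p hp
    have h3 : (1 : ℝ) ≤ p := by exact_mod_cast (Nat.mem_primesLE.mp hp).2.one_le
    have h4 : 1 / (p : ℝ) ≤ 1 := by rw [div_le_one (by linarith)]; exact h3
    have h5 : 0 ≤ 1 / (p : ℝ) := by positivity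
    constructor <;> linarith
  have h2 : Vp (w1 ℓ) ≤ ∏ p ∈ (Nat.primesLE (w1 ℓ)).erase e, (1 - 1 / (p : ℝ)) := by
    unfold Vp
    rw [← Finset.prod_sdiff (Finset.erase_subset e (Nat.primesLE (w1 ℓ)))]
    have h3 : ∏ p ∈ Nat.primesLE (w1 ℓ) \ (Nat.primesLE (w1 ℓ)).erase e, (1 - 1 / (p : ℝ)) ≤ 1 :=
      Finset.prod_le_one (fun p hp => (hpr p (Finset.mem_sdiff.mp hp).1).1)
        (fun p hp => (hpr p (Finset.mem_sdiff.mp hp).1).2)
    have h4 : 0 ≤ ∏ p ∈ (Nat.primesLE (w1 ℓ)).erase e, (1 - 1 / (p : ℝ)) :=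
      Finset.prod_nonneg (fun p hp => (hpr p (Finset.mem_of_mem_erase hp)).1)
    exact mul_le_of_le_one_left h4 h3
  rw [totient_WW_eq]
  have h3 : c ≤ (∏ p ∈ (Nat.primesLE (w1 ℓ)).erase e, (1 - 1 / (p : ℝ))) * Real.log (w1 ℓ) := by
    rw [div_le_iff₀ hL] at h1
    exact h1.trans (mul_le_mul_of_nonneg_right h2 hL.le)
  calc c * WW (w1 ℓ) e ≤ ((∏ p ∈ (Nat.primesLE (w1 ℓ)).erase e, (1 - 1 / (p : ℝ))) * Real.log (w1 ℓ)) * WW (w1 ℓ) e :=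
        mul_le_mul_of_nonneg_right h3 hW0.le
    _ = _ := by ring

end Pool.Agent.H74.QT
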