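import Pool.Agent.H74.QT.Defs
import Pool.Agent.H16.MT1

/-!
JOB QT-1 (about 130 lines). Rough numbers in dyadic intervals, and in short multiplicative intervals.

PROOF of `rough_count`. The number of `m ∈ (y, 2y]` without prime factors `≤ z`, `2 ≤ z ≤ 2 y`, is `≤ C y / log z`.
Use `card_setVg` (H16/MT1.lean): constant `C₀`. Put `t = y`, `i = m - y - 1 ∈ range y`, and `s p` with `i + y + 1 ≢ 0 mod p` iff
`i % p ≠ s p % p`: e.g. `s p = (p - 1) * (y + 1)` (`i ≡ (p-1)(y+1) mod p` iff `p ∣ i + y + 1`, because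
`(p - 1) (y + 1) + (y + 1) = p (y + 1)`); `p0 = 0`. So for every `w ≤ z`, `2 ≤ w`, `w ^ 60 ≤ y` the number is at most
`#(setVg s w y 0)` (arguments in the order of the definition) `≤ C₀ y / log w` (all primes `p ≤ w ≤ z` do not divide `m`).
* If `z ^ 60 ≤ y` take `w = z`.
* If `y < z ^ 60` and `2 ^ 60 ≤ y` take `w = ⌊y^(1/60)⌋ ≥ 2`; as `y^(1/60) < w + 1 ≤ w^2`,
  `log w ≥ (1/2) log (y^(1/60)) = (1/120) log y ≥ (1/240) log z`, since `z ≤ 2 y ≤ y ^ 2`; and `w ≤ z` because `w^60 ≤ y < z^60`.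
* If `y < 2 ^ 60`: trivial bound `y`, and `log z ≤ log (2 y) ≤ 61 log 2 ≤ 61`, so `y ≤ 61 y / log z`.
So `C = 240 C₀ + 61` works (`C₀ > 0`, `log z > 0`).

PROOF of `rough_sum`. Let `P` be a finite set of primes `> z`, `z ≤ q`, `0 ≤ Y`, `2 ≤ z`. The products `m = ∏ D` of subsets of `P` are
distinct (`D = m.primeFactors`) and have no prime factor `≤ z`; so `m = 1` or `m > z`.
The term with `m = 1` is at most `1 ≤ log q / log z`. For the others, `max (Y/q) z < m ≤ Y`: cover by the intervals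
`(y_i, 2 y_i]`, `y_i = 2^i y_0`, where `y_0 = max 1 ⌊max (Y/q) (z/2)⌋₊`, `i = 0, .., I - 1`: it is enough that `2^I y_0 ≥ Y`, and one can take
`I = ⌈log (2 q + 2) / log 2⌉₊ + 1`, `I ≤ 6 log q` (`q ≥ 2`) [`Y ≤ q (Y/q) ≤ q (y_0 + 1) ≤ 2 q y_0`]. Moreover `z ≤ 2 y_0 + 1..`: choose
`y_0` with `z ≤ 2 y_0`, for instance `y_0 = max ⌈z/2⌉₊ ⌊Y/q⌋₊` (natural numbers; every `m > z` satisfies `m > ⌈z/2⌉₊`, and
`m > Y/q` gives `m > ⌊Y/q⌋₊`; so `m > y_0`). In `(y_i, 2 y_i]` the sum of `1/m` is at most `(number)/y_i ≤ C / log z`.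
Total `≤ log q/log z + I C/log z ≤ (1 + 6 C) log q / log z`.
-/

set_option autoImplicit false

open Finset Filter

namespace Pool.Agent.H74.QT

open Pool.Agent.H16

theorem rough_root (n y : ℕ) (hn : n ≠ 0) : ∃ w : ℕ, w ^ n ≤ y ∧ y < (w + 1) ^ n := by
  classical
  have hex : ∃ w, y < (w + 1) ^ n :=
    ⟨y, lt_of_lt_of_le (Nat.lt_succ_self y) (Nat.le_self_pow hn _)⟩
  refine ⟨Nat.find hex, ?_, Nat.find_spec hex⟩
  rcases Nat.eq_zero_or_pos (Nat.find hex) with h | h
  · rw [h, zero_pow hn]; exact Nat.zero_le _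
  · have h1 : ¬ (y < ((Nat.find hex - 1) + 1) ^ n) := Nat.find_min hex (by omega)
    have h2 : Nat.find hex - 1 + 1 = Nat.find hex := by omega
    rw [h2] at h1
    exact not_lt.mp h1

open Classical in
theorem rough_count : ∃ C : ℝ, 0 < C ∧ ∀ z y : ℕ, 2 ≤ z → z ≤ 2 * y →
    (#({m ∈ Ioc y (2 * y) | ∀ p, p.Prime → p ∣ m → z < p}) : ℝ) ≤ C * (y / Real.log z) := by
  obtain ⟨C₀, hC₀, hV⟩ := card_setVg
  refine ⟨240 * C₀ + 61, by positivity, ?_⟩
  intro z y hz hzy
  set S : Finset ℕ := {m ∈ Ioc y (2 * y) | ∀ p, p.Prime → p ∣ m → z < p} with hS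
  have hz' : (2 : ℝ) ≤ z := by exact_mod_cast hz
  have hlz : 0 < Real.log z := Real.log_pos (by linarith)
  have hy0 : (0 : ℝ) ≤ y := by positivity
  have hy1 : 1 ≤ y := by omega
  have hy1' : (1 : ℝ) ≤ y := by exact_mod_cast hy1
  have hzy' : (z : ℝ) ≤ 2 * y := by exact_mod_cast hzy
  have hq0 : 0 ≤ (y : ℝ) / Real.log z := by positivity
  have key : ∀ w : ℕ, 2 ≤ w → w ≤ z → w ^ 60 ≤ y → (#S : ℝ) ≤ C₀ * (y / Real.log w) := by
    intro w hw hwz hwy
    have h1 := hV (fun p => (p - 1) * (y + 1)) w y 0 hw hwy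
    refine le_trans ?_ h1
    have h2 : S ⊆ (setVg (fun p => (p - 1) * (y + 1)) y w 0).image (fun i => i + (y + 1)) := by
      intro m hm
      rw [hS, Finset.mem_filter, Finset.mem_Ioc] at hm
      rw [Finset.mem_image]
      refine ⟨m - (y + 1), ?_, by omega⟩
      unfold setVg
      rw [Finset.mem_filter, Finset.mem_range]
      refine ⟨by omega, ?_⟩
      intro p hp _ he
      rw [Nat.mem_primesLE] at hp
      have h3 : m - (y + 1) + (y + 1) ≡ (p - 1) * (y + 1) + (y + 1) [MOD p] :=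
        Nat.ModEq.add_right _ he
      have h4 : (p - 1) * (y + 1) + (y + 1) = p * (y + 1) := by
        have := hp.2.pos
        obtain ⟨r, rfl⟩ : ∃ r, p = r + 1 := ⟨p - 1, by omega⟩
        simp only [Nat.add_sub_cancel]
        ring
      rw [h4] at h3
      have h5 : m - (y + 1) + (y + 1) = m := by omega
      rw [h5] at h3
      have h6 : p ∣ m := by
        have := h3.trans (Nat.modEq_zero_iff_dvd.mpr (Dvd.intro _ rfl))
        exact Nat.modEq_zero_iff_dvd.mp this
      have := hm.2 p hp.2 h6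
      omega
    have h3 := (Finset.card_le_card h2).trans Finset.card_image_le
    exact_mod_cast h3
  rcases le_or_gt (z ^ 60) y with hc | hc
  · refine (key z hz le_rfl hc).trans ?_
    apply mul_le_mul_of_nonneg_right _ hq0
    linarith
  · rcases le_or_gt (2 ^ 60) y with hc2 | hc2
    · obtain ⟨w, hw3, hw1⟩ := rough_root 60 y (by norm_num)
      have hw2 : 2 ≤ w := by
        have h1 : 2 ^ 60 < (w + 1) ^ 60 := lt_of_le_of_lt hc2 hw1
        have h2 : 2 < w + 1 := lt_of_pow_lt_pow_left₀ 60 (Nat.zero_le _) h1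
        exact Nat.lt_succ_iff.mp h2
      have hw4 : w ≤ z := by
        have h1 : w ^ 60 < z ^ 60 := lt_of_le_of_lt hw3 hc
        exact (lt_of_pow_lt_pow_left₀ 60 (Nat.zero_le _) h1).le
      have hw' : (2 : ℝ) ≤ w := by exact_mod_cast hw2
      have hlw : 0 < Real.log w := Real.log_pos (by linarith)
      have hw5 : (y : ℝ) ≤ (w : ℝ) ^ 120 := by
        have h1 : w + 1 ≤ w ^ 2 := by
          calc w + 1 ≤ 2 * w := by clear hw1 hw3 hc hc2; omega
            _ ≤ w * w := Nat.mul_le_mul_right w hw2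
            _ = w ^ 2 := (sq w).symm
        have h2 : y ≤ (w ^ 2) ^ 60 := hw1.le.trans (Nat.pow_le_pow_left h1 60)
        rw [← pow_mul] at h2
        exact_mod_cast h2
      have hly : Real.log y ≤ 120 * Real.log w := by
        have h1 := Real.log_le_log (by linarith) hw5
        rw [Real.log_pow] at h1
        push_cast at h1
        linarith
      have hl2 : Real.log z ≤ 240 * Real.log w := by
        have h1 : (z : ℝ) ≤ (y : ℝ) ^ 2 := by
          have h2 : (2 : ℝ) ≤ y := by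
            have : 2 ≤ y := le_trans (by norm_num) hc2
            exact_mod_cast this
          calc (z : ℝ) ≤ 2 * y := hzy'
            _ ≤ y * y := mul_le_mul_of_nonneg_right h2 hy0
            _ = (y : ℝ) ^ 2 := (sq _).symm
        have h2 := Real.log_le_log (by linarith) h1
        rw [Real.log_pow] at h2
        push_cast at h2
        linarith
      refine (key w hw2 hw4 hw3).trans ?_
      have h3 : (y : ℝ) / Real.log w ≤ 240 * (y / Real.log z) := by
        rw [div_le_iff₀ hlw, mul_div_assoc', div_mul_eq_mul_div, le_div_iff₀ hlz]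
        have h4 := mul_le_mul_of_nonneg_left hl2 hy0
        calc (y : ℝ) * Real.log z ≤ y * (240 * Real.log w) := h4
          _ = 240 * y * Real.log w := by ring
      calc C₀ * ((y : ℝ) / Real.log w) ≤ C₀ * (240 * (y / Real.log z)) :=
            mul_le_mul_of_nonneg_left h3 hC₀.le
        _ = (240 * C₀) * (y / Real.log z) := by ring
        _ ≤ (240 * C₀ + 61) * (y / Real.log z) :=
            mul_le_mul_of_nonneg_right (by linarith) hq0
    · have h1 : (#S : ℝ) ≤ y := by
        have h2 : #S ≤ #(Ioc y (2 * y)) := Finset.card_filter_le _ _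
        rw [Nat.card_Ioc] at h2
        have h3 : #S ≤ y := by omega
        exact_mod_cast h3
      have h2 : Real.log z ≤ 61 := by
        have h3 : (z : ℝ) ≤ (2 : ℝ) ^ 61 := by
          have h4 : z ≤ 2 ^ 61 := by
            have : (2 : ℕ) ^ 61 = 2 * 2 ^ 60 := by norm_num
            omega
          exact_mod_cast h4
        have h4 := Real.log_le_log (by linarith) h3
        rw [Real.log_pow] at h4
        have h5 : Real.log 2 ≤ 1 := by
          have := Real.log_two_lt_d9
          linarith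
        push_cast at h4
        linarith
      have h3 : (y : ℝ) ≤ 61 * (y / Real.log z) := by
        rw [mul_div_assoc', le_div_iff₀ hlz]
        nlinarith
      refine h1.trans (h3.trans ?_)
      apply mul_le_mul_of_nonneg_right _ hq0
      linarith

theorem rough_sum : ∃ C : ℝ, 0 < C ∧ ∀ (z : ℕ) (P : Finset ℕ), 2 ≤ z → (∀ p ∈ P, p.Prime ∧ z < p) →
    ∀ q Y : ℝ, (z : ℝ) ≤ q → 0 ≤ Y → shortS P q Y ≤ C * (Real.log q / Real.log z) := by
  classical
  obtain ⟨C₁, hC₁, hR⟩ := rough_count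
  refine ⟨1 + 6 * C₁, by positivity, ?_⟩
  intro z P hz hP q Y hzq hY
  have hz' : (2 : ℝ) ≤ z := by exact_mod_cast hz
  have hq2 : (2 : ℝ) ≤ q := hz'.trans hzq
  have hq0 : (0 : ℝ) < q := by linarith
  have hlz : 0 < Real.log z := Real.log_pos (by linarith)
  have hlq : 0 < Real.log q := Real.log_pos (by linarith)
  have hlzq : Real.log z ≤ Real.log q := Real.log_le_log (by linarith) hzq
  have hl2 : (1 / 2 : ℝ) < Real.log 2 := by
    have := Real.log_two_gt_d9
    linarith
  have hl2q : Real.log 2 ≤ Real.log q := Real.log_le_log (by norm_num) hq2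
  set y₀ : ℕ := max z ⌊Y / q⌋₊ with hy₀
  have hzy : z ≤ y₀ := le_max_left _ _
  have hy₀pos : 1 ≤ y₀ := by omega
  have hy₀' : (1 : ℝ) ≤ y₀ := by exact_mod_cast hy₀pos
  set I : ℕ := ⌈Real.log (2 * q) / Real.log 2⌉₊ with hI
  have hIq : 2 * q ≤ (2 : ℝ) ^ I := by
    have h1 : Real.log (2 * q) / Real.log 2 ≤ I := Nat.le_ceil _
    rw [div_le_iff₀ (by linarith)] at h1
    have h2 : Real.log (2 * q) ≤ Real.log ((2 : ℝ) ^ I) := by
      rw [Real.log_pow]; exact h1
    exact (Real.log_le_log_iff (by positivity) (by positivity)).mp h2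
  have hI6 : (I : ℝ) ≤ 6 * Real.log q := by
    have h0 : 0 ≤ Real.log (2 * q) / Real.log 2 := by
      apply div_nonneg _ (by linarith)
      apply Real.log_nonneg
      linarith
    have h1 : (I : ℝ) < Real.log (2 * q) / Real.log 2 + 1 := Nat.ceil_lt_add_one h0
    have h2 : Real.log (2 * q) = Real.log 2 + Real.log q := Real.log_mul (by norm_num) (by linarith)
    have h3 : Real.log (2 * q) / Real.log 2 + 1 ≤ 6 * Real.log q := by
      rw [h2, add_div, div_self (by linarith)]
      have h4 : Real.log q / Real.log 2 ≤ 2 * Real.log q := by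
        rw [div_le_iff₀ (by linarith)]
        nlinarith
      linarith
    linarith
  have hYI : Y ≤ (2 : ℝ) ^ I * y₀ := by
    have h1 : Y / q < ⌊Y / q⌋₊ + 1 := Nat.lt_floor_add_one _
    have h2 : (⌊Y / q⌋₊ : ℝ) ≤ y₀ := by exact_mod_cast le_max_right z ⌊Y / q⌋₊
    have h3 : Y / q ≤ 2 * y₀ := by linarith
    rw [div_le_iff₀ hq0] at h3
    calc Y ≤ 2 * y₀ * q := h3
      _ = (2 * q) * y₀ := by ring
      _ ≤ (2 : ℝ) ^ I * y₀ := mul_le_mul_of_nonneg_right hIq (by linarith)
  -- the products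
  set f : ℕ → ℝ := fun m => if Y / q < (m : ℝ) ∧ (m : ℝ) ≤ Y then 1 / (m : ℝ) else 0 with hf
  set M : Finset ℕ := P.powerset.image (fun D => ∏ p ∈ D, p) with hM
  have hsum : shortS P q Y = ∑ m ∈ M, f m := by
    rw [hM, Finset.sum_image]
    · rfl
    · intro D hD E hE h
      have hD' : ∀ p ∈ D, p.Prime := fun p hp => (hP p (Finset.mem_powerset.mp hD hp)).1
      have hE' : ∀ p ∈ E, p.Prime := fun p hp => (hP p (Finset.mem_powerset.mp hE hp)).1
      have h1 := Nat.primeFactors_prod hD'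
      have h2 := Nat.primeFactors_prod hE'
      simp only at h
      rw [← h1, h, h2]
  have hMr : ∀ m ∈ M, m = 1 ∨ (z < m ∧ ∀ p, p.Prime → p ∣ m → z < p) := by
    intro m hm
    rw [hM, Finset.mem_image] at hm
    obtain ⟨D, hD, rfl⟩ := hm
    rw [Finset.mem_powerset] at hD
    rcases Finset.eq_empty_or_nonempty D with rfl | ⟨r, hr⟩
    · left; simp
    · right
      have hr' := hP r (hD hr)
      have h1 : r ∣ ∏ p ∈ D, p := Finset.dvd_prod_of_mem _ hr
      have h2 : 0 < ∏ p ∈ D, p := Finset.prod_pos (fun p hp => (hP p (hD hp)).1.pos)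
      refine ⟨lt_of_lt_of_le hr'.2 (Nat.le_of_dvd h2 h1), ?_⟩
      intro p hp hpd
      obtain ⟨a, ha, hpa⟩ := (hp.prime.dvd_finsetProd_iff _).mp hpd
      have := (Nat.prime_dvd_prime_iff_eq hp (hP a (hD ha)).1).mp hpa
      rw [this]
      exact (hP a (hD ha)).2
  set g : ℕ → ℕ → ℝ := fun i m => if m ∈ Ioc (2 ^ i * y₀) (2 * (2 ^ i * y₀)) ∧
    (∀ p, p.Prime → p ∣ m → z < p) then 1 / ((2 : ℝ) ^ i * y₀) else 0 with hg
  have hgnn : ∀ i m, 0 ≤ g i m := by
    intro i m
    rw [hg]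
    simp only
    split_ifs
    · positivity
    · exact le_rfl
  have hbound : ∀ m ∈ M, f m ≤ (if m = 1 then (1 : ℝ) else 0) + ∑ i ∈ range I, g i m := by
    intro m hm
    have h0 : 0 ≤ ∑ i ∈ range I, g i m := Finset.sum_nonneg (fun i _ => hgnn i m)
    have h00 : 0 ≤ (if m = 1 then (1 : ℝ) else 0) := by split_ifs <;> norm_num
    by_cases hc : Y / q < (m : ℝ) ∧ (m : ℝ) ≤ Y
    · have hfm : f m = 1 / (m : ℝ) := by rw [hf]; simp only; rw [if_pos hc]
      rcases hMr m hm with h1 | ⟨h1, h2⟩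
      · rw [hfm, h1, if_pos rfl, Nat.cast_one, div_one]
        subst h1
        linarith
      · -- exists i
        have hmy : y₀ < m := by
          rw [hy₀]
          apply max_lt h1
          have : ⌊Y / q⌋₊ < m := by
            rw [Nat.floor_lt (by positivity)]
            exact hc.1
          exact this
        have hmI : m ≤ 2 ^ I * y₀ := by
          have : (m : ℝ) ≤ (2 : ℝ) ^ I * y₀ := hc.2.trans hYI
          exact_mod_cast this
        have hex : ∃ j, m ≤ 2 ^ j * y₀ := ⟨I, hmI⟩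
        set j := Nat.find hex with hj
        have hj1 : m ≤ 2 ^ j * y₀ := Nat.find_spec hex
        have hjI : j ≤ I := Nat.find_min' hex hmI
        have hj0 : j ≠ 0 := by
          intro h
          rw [h] at hj1
          simp at hj1
          omega
        obtain ⟨i, hi⟩ : ∃ i, j = i + 1 := ⟨j - 1, by omega⟩
        have hi1 : 2 ^ i * y₀ < m := by
          have : ¬ (m ≤ 2 ^ i * y₀) := Nat.find_min hex (by omega)
          omega
        have hi2 : m ≤ 2 * (2 ^ i * y₀) := by
          rw [hi, pow_succ] at hj1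
          calc m ≤ 2 ^ i * 2 * y₀ := hj1
            _ = 2 * (2 ^ i * y₀) := by ring
        have hgi : g i m = 1 / ((2 : ℝ) ^ i * y₀) := by
          rw [hg]
          simp only
          rw [if_pos ⟨Finset.mem_Ioc.mpr ⟨hi1, hi2⟩, h2⟩]
        have hle : g i m ≤ ∑ i ∈ range I, g i m :=
          Finset.single_le_sum (f := fun i => g i m) (fun i _ => hgnn i m)
            (Finset.mem_range.mpr (by omega))
        have hfi : 1 / (m : ℝ) ≤ 1 / ((2 : ℝ) ^ i * y₀) := by
          apply one_div_le_one_div_of_le (by positivity)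
          have : ((2 ^ i * y₀ : ℕ) : ℝ) ≤ (m : ℝ) := by exact_mod_cast hi1.le
          push_cast at this
          exact this
        rw [hfm]
        linarith
    · have hfm : f m = 0 := by rw [hf]; simp only; rw [if_neg hc]
      rw [hfm]
      linarith
  have hone : ∑ m ∈ M, (if m = 1 then (1 : ℝ) else 0) ≤ 1 := by
    rw [Finset.sum_ite_eq']
    split_ifs <;> norm_num
  have hgi : ∀ i ∈ range I, ∑ m ∈ M, g i m ≤ C₁ / Real.log z := by
    intro i _
    have hyi : (0 : ℝ) < (2 : ℝ) ^ i * y₀ := by positivity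
    have h1 : ∑ m ∈ M, g i m = (#({m ∈ M | m ∈ Ioc (2 ^ i * y₀) (2 * (2 ^ i * y₀)) ∧
        (∀ p, p.Prime → p ∣ m → z < p)}) : ℝ) * (1 / ((2 : ℝ) ^ i * y₀)) := by
      rw [hg]
      simp only
      rw [← Finset.sum_filter, Finset.sum_const, nsmul_eq_mul]
    have h2 : (#({m ∈ M | m ∈ Ioc (2 ^ i * y₀) (2 * (2 ^ i * y₀)) ∧
        (∀ p, p.Prime → p ∣ m → z < p)}) : ℝ) ≤ C₁ * (((2 ^ i * y₀ : ℕ) : ℝ) / Real.log z) := by
      refine le_trans ?_ (hR z (2 ^ i * y₀) hz ?_)
      · have : ({m ∈ M | m ∈ Ioc (2 ^ i * y₀) (2 * (2 ^ i * y₀)) ∧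
            (∀ p, p.Prime → p ∣ m → z < p)} : Finset ℕ) ⊆
            {m ∈ Ioc (2 ^ i * y₀) (2 * (2 ^ i * y₀)) | ∀ p, p.Prime → p ∣ m → z < p} := by
          intro m hm
          rw [Finset.mem_filter] at hm ⊢
          exact hm.2
        exact_mod_cast Finset.card_le_card this
      · have : 1 ≤ 2 ^ i := Nat.one_le_two_pow
        nlinarith
    rw [h1]
    calc _ ≤ C₁ * (((2 ^ i * y₀ : ℕ) : ℝ) / Real.log z) * (1 / ((2 : ℝ) ^ i * y₀)) :=
          mul_le_mul_of_nonneg_right h2 (by positivity)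
      _ = C₁ / Real.log z := by
          push_cast
          field_simp
  rw [hsum]
  have hzq1 : 1 ≤ Real.log q / Real.log z := by
    rw [le_div_iff₀ hlz]; linarith
  calc ∑ m ∈ M, f m ≤ ∑ m ∈ M, ((if m = 1 then (1 : ℝ) else 0) + ∑ i ∈ range I, g i m) :=
        Finset.sum_le_sum hbound
    _ = ∑ m ∈ M, (if m = 1 then (1 : ℝ) else 0) + ∑ i ∈ range I, ∑ m ∈ M, g i m := by
        rw [Finset.sum_add_distrib, Finset.sum_comm]
    _ ≤ 1 + ∑ i ∈ range I, C₁ / Real.log z := add_le_add hone (Finset.sum_le_sum hgi)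
    _ = 1 + I * (C₁ / Real.log z) := by rw [Finset.sum_const, Finset.card_range, nsmul_eq_mul]
    _ ≤ Real.log q / Real.log z + 6 * Real.log q * (C₁ / Real.log z) := by
        apply add_le_add hzq1
        apply mul_le_mul_of_nonneg_right hI6 (by positivity)
    _ = (1 + 6 * C₁) * (Real.log q / Real.log z) := by ring

end Pool.Agent.H74.QT
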