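import Pool.Agent.H74.QT.Defs

/-!
JOB QT-2 (about 60 lines). Differences of the step function.

PROOF. `gst n ρ a = (∑ i ∈ range n, 2^{-i} 1[a ≤ gY ρ i]) / gG n`. For `d = ∏ D ≥ 1` (product of primes) and `p0 ≥ 1`,
`gst n ρ d - gst n ρ (p0 d) = (∑ i, 2^{-i} 1[gY ρ i / p0 < d ≤ gY ρ i]) / gG n`
(`p0 d ≤ Y` iff `d ≤ Y / p0`; and `d ≤ Y/p0` implies `d ≤ Y`). Divide by `d`, sum over `D`, interchange the sums:
`= (∑ i, 2^{-i} shortS P p0 (gY ρ i)) / gG n ≤ (∑ i, 2^{-i}) S / gG n = S`.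
-/

set_option autoImplicit false

open Finset Filter

namespace Pool.Agent.H74.QT

open Pool.Agent.H16

theorem step_ite (p0 : ℕ) (hp0 : 0 < p0) (d : ℕ) (Y : ℝ) :
    (if (d : ℝ) ≤ Y then (1 : ℝ) else 0) - (if ((p0 * d : ℕ) : ℝ) ≤ Y then (1 : ℝ) else 0) =
      if Y / (p0 : ℝ) < (d : ℝ) ∧ (d : ℝ) ≤ Y then 1 else 0 := by
  have h0 : (0 : ℝ) < p0 := by exact_mod_cast hp0
  have h1 : (1 : ℝ) ≤ p0 := by exact_mod_cast hp0
  have hd : (0 : ℝ) ≤ d := Nat.cast_nonneg d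
  by_cases h : ((p0 * d : ℕ) : ℝ) ≤ Y
  · have h' : (p0 : ℝ) * d ≤ Y := by
      push_cast at h
      exact h
    have h2 : (d : ℝ) ≤ Y := by nlinarith
    have h3 : ¬ Y / (p0 : ℝ) < (d : ℝ) := by
      rw [not_lt, le_div_iff₀ h0, mul_comm]
      exact h'
    rw [if_pos h2, if_pos h, if_neg (fun h4 => h3 h4.1), sub_self]
  · have h' : Y / (p0 : ℝ) < (d : ℝ) := by
      rw [div_lt_iff₀ h0, mul_comm]
      push_cast at h
      exact not_le.1 h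
    rw [if_neg h, sub_zero]
    by_cases h2 : (d : ℝ) ≤ Y
    · rw [if_pos h2, if_pos ⟨h', h2⟩]
    · rw [if_neg h2, if_neg (fun h4 => h2 h4.2)]

theorem step_term (n : ℕ) (ρ : ℝ) (p0 : ℕ) (hp0 : 0 < p0) (d : ℕ) :
    (gst n ρ d - gst n ρ (p0 * d)) / (d : ℝ) =
      (∑ i ∈ range n, (1 / 2 : ℝ) ^ i *
        (if gY ρ i / (p0 : ℝ) < (d : ℝ) ∧ (d : ℝ) ≤ gY ρ i then 1 / (d : ℝ) else 0)) / gG n := by
  unfold gst
  rw [← sub_div, ← Finset.sum_sub_distrib, div_right_comm, Finset.sum_div]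
  congr 1
  refine Finset.sum_congr rfl fun i _ => ?_
  rw [← mul_sub, step_ite p0 hp0 d, mul_div_assoc]
  congr 1
  rw [ite_div, zero_div]

theorem step_diff (P : Finset ℕ) (hP : ∀ p ∈ P, p.Prime) (n : ℕ) (hn : 1 ≤ n) (ρ : ℝ) (hρ : 0 ≤ ρ)
    (p0 : ℕ) (hp0 : 0 < p0) (S : ℝ) (hS : ∀ Y : ℝ, 0 ≤ Y → shortS P p0 Y ≤ S) :
    ∑ D ∈ P.powerset, (gst n ρ (∏ p ∈ D, p) - gst n ρ (p0 * ∏ p ∈ D, p)) / ((∏ p ∈ D, p : ℕ) : ℝ) ≤ S := by
  have hG : 0 < gG n := by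
    unfold gG
    exact Finset.sum_pos (fun i _ => by positivity) ⟨0, Finset.mem_range.2 hn⟩
  rw [Finset.sum_congr rfl fun D _ => step_term n ρ p0 hp0 (∏ p ∈ D, p), ← Finset.sum_div,
    Finset.sum_comm, div_le_iff₀ hG]
  calc ∑ i ∈ range n, ∑ D ∈ P.powerset, (1 / 2 : ℝ) ^ i *
        (if gY ρ i / (p0 : ℝ) < ((∏ p ∈ D, p : ℕ) : ℝ) ∧ ((∏ p ∈ D, p : ℕ) : ℝ) ≤ gY ρ i then
          1 / ((∏ p ∈ D, p : ℕ) : ℝ) else 0)
      = ∑ i ∈ range n, (1 / 2 : ℝ) ^ i * shortS P p0 (gY ρ i) := by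
        refine Finset.sum_congr rfl fun i _ => ?_
        rw [← Finset.mul_sum]
        rfl
    _ ≤ ∑ i ∈ range n, (1 / 2 : ℝ) ^ i * S := by
        refine Finset.sum_le_sum fun i _ => ?_
        refine mul_le_mul_of_nonneg_left (hS _ ?_) (by positivity)
        unfold gY
        positivity
    _ = S * gG n := by
        rw [← Finset.sum_mul, mul_comm]
        rfl

end Pool.Agent.H74.QT
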