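import Pool.Agent.H74.QT.BadC
import Pool.Agent.H74.QT.BadSum
import Pool.Agent.H74.QT.Step
import Pool.Agent.H74.QT.Rough
import Pool.Agent.H74.QT.Facts

/-!
JOB QT-6 (about 130 lines). The sum over the `ν` with `p0 ∣ ν + h j0`, final bound.

NOTATION. `P = PT e ℓ`, `ρ = rQ c k n ℓ`, `g = gst n ρ`, `L = log (w1 ℓ)`, `A2 = MT.A2 P g`, `W = WW (w1 ℓ) e`, `B = (ℓ/c)^k`,
`B' = (ℓ/c)^((k+1)^2)`.
PROOF. `C = 16 C₁`, `C₁` from `rough_sum`. Put `S = C₁ log p0 / L`. By `rough_sum` (`z = w1 ℓ ≤ p0`), `shortS P p0 Y ≤ S` for all `Y ≥ 0`; by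
`step_diff`, `∑_{D ⊆ P} (g (∏ D) - g (p0 ∏ D))/∏ D ≤ S`, hence also the sum over the `D` with `p0 ∉ D` (the terms are `≥ 0`, because
`gst` is antitone: `gst n ρ (p0 d) ≤ gst n ρ d`). `gst_GOK` gives `MT.GOK P g`. `bad_model` with `R = RQ ℓ`:
`EE ≤ 4 S A2^(k-1) + 2 (k/p0)^2 A2^k`. By `A2_lower` (H16/MT7, `c1 = c/4`, `F.HL` at `i = 0`): `c ρ / (4 L) ≤ A2`; so
`S A2^(k-1) = (S / A2) A2^k ≤ C₁ (log p0/L) (4 L/(c ρ)) A2^k = 4 C₁/(c ρ) log p0 A2^k` (`k ≥ 1`). With `bad_sum`: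
`∑ ≤ exp ℓ/(W p0) (16 C₁/(c ρ) log p0 + 2 (k/p0)^2) A2^k + B^2 (30 (YQ ℓ B'))`.
The hypotheses of `bad_sum`: `hP`, `hPk` from `mem_PT` and `F.zk` (`k < w1 ℓ < p`); `hPh`: `p ∣ nd (h j) (h j')`, `nd .. ≠ 0`
(`nd_ne_zero`, injectivity), `nd .. ≤ w1 ℓ < p` (`nd_le`, `hh`) is impossible; `hPW`: `prime_dvd_WW`; `hB`, `hB'`: `prodk_le` (H16/MT11) with
`y = yy ℓ`, `F.zy`, `yy_le`, `PT_sub`.
-/

set_option autoImplicit false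

open Finset Filter Topology

namespace Pool.Agent.H74.QT

open Pool.Agent.H16
open Pool.Agent.H90
open Pool.Agent.H2.NC (w1 W1 P1 nu1)
open Pool.Agent.H21.QG (R1 RQ rQ YQ LQ TM G1)

theorem badOne_alg {C₁ c ρ L lp p0 K A W X : ℝ} {k : ℕ} (hC : 0 < C₁) (hc : 0 < c) (hρ : 0 < ρ)
    (hL : 0 < L) (hlp : 0 ≤ lp) (hp0 : 0 < p0) (hW : 0 < W) (hX : 0 ≤ X) (hk : 0 < k)
    (hA : c / 4 * ρ / L ≤ A) :
    X / (W * p0) * (4 * (C₁ * (lp / L)) * A ^ (k - 1) + 2 * (K / p0) ^ 2 * A ^ k) ≤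
      X / W * A ^ k * (16 * C₁ / (c * ρ) * (lp / p0) + 2 * K ^ 2 / p0 ^ 3) := by
  have hA0 : 0 < A := lt_of_lt_of_le (by positivity) hA
  have h1 : 1 / L ≤ 4 / (c * ρ) * A := by
    have h2 : 4 / (c * ρ) * (c / 4 * ρ / L) ≤ 4 / (c * ρ) * A :=
      mul_le_mul_of_nonneg_left hA (by positivity)
    refine le_trans (le_of_eq ?_) h2
    field_simp
  have h3 : A ^ k = A * A ^ (k - 1) := by
    rw [← pow_succ']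
    congr 1
    omega
  have h4 : 4 * (C₁ * (lp / L)) * A ^ (k - 1) ≤ 16 * C₁ / (c * ρ) * lp * A ^ k := by
    calc 4 * (C₁ * (lp / L)) * A ^ (k - 1) = 4 * C₁ * lp * A ^ (k - 1) * (1 / L) := by ring
      _ ≤ 4 * C₁ * lp * A ^ (k - 1) * (4 / (c * ρ) * A) :=
          mul_le_mul_of_nonneg_left h1 (by positivity)
      _ = _ := by rw [h3]; ring
  calc X / (W * p0) * (4 * (C₁ * (lp / L)) * A ^ (k - 1) + 2 * (K / p0) ^ 2 * A ^ k)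
      ≤ X / (W * p0) * (16 * C₁ / (c * ρ) * lp * A ^ k + 2 * (K / p0) ^ 2 * A ^ k) :=
        mul_le_mul_of_nonneg_left (by linarith) (by positivity)
    _ = _ := by
        field_simp

theorem bad_one : ∃ C : ℝ, 0 < C ∧ ∀ (k n : ℕ) (c ℓ : ℝ), MW k n c ℓ → 0 < k → 0 < n → 0 < c → c ≤ 1 →
    2 ^ n ≤ k → (∀ n : ℕ, 2 ≤ n → c / Real.log n ≤ Vp n) →
    ∀ h : Fin k → ℕ, Function.Injective h → (∀ j, h j ≤ w1 ℓ) → ∀ (e A0 p0 : ℕ), p0 ∈ PT e ℓ →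
    ∀ j0 : Fin k,
    ∑ ν ∈ (S0 ℓ (WW (w1 ℓ) e) A0).filter (fun ν => p0 ∣ ν + h j0), LQ h (PT e ℓ) n (rQ c k n ℓ) ℓ ν ≤
      Real.exp ℓ / WW (w1 ℓ) e * MT.A2 (PT e ℓ) (gst n (rQ c k n ℓ)) ^ k *
        (C / (c * rQ c k n ℓ) * (Real.log p0 / p0) + 2 * (k : ℝ) ^ 2 / (p0 : ℝ) ^ 3) +
      ((ℓ / c) ^ k) ^ 2 * (30 * (YQ ℓ * (ℓ / c) ^ ((k + 1) ^ 2))) := by
  obtain ⟨C₁, hC₁, hrough⟩ := rough_sum
  refine ⟨16 * C₁, by positivity, ?_⟩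
  intro k n c ℓ F hk hn hc hc1 hk2 hcV h hinj hh e A0 p0 hp0 j0
  have hP : ∀ p ∈ PT e ℓ, p.Prime := fun p hp => (mem_PT.1 hp).1.2.2
  have hPz : ∀ p ∈ PT e ℓ, w1 ℓ < p := fun p hp => (mem_PT.1 hp).1.1
  have hkw : k < w1 ℓ := by
    have h1 := F.zk
    have h2 : (0 : ℝ) ≤ k := Nat.cast_nonneg k
    have h3 : (0 : ℝ) ≤ (k : ℝ) ^ 2 := by positivity
    have : (k : ℝ) < w1 ℓ := by linarith
    exact_mod_cast this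
  have hPk : ∀ p ∈ PT e ℓ, k < p := fun p hp => hkw.trans (hPz p hp)
  have hℓb := F.ℓbig
  have hlogpos : 0 < Real.log ℓ := Real.log_pos (by linarith)
  have hρ : 0 < rQ c k n ℓ := lt_of_lt_of_le hlogpos F.zρ
  have hL : 0 < Real.log (w1 ℓ) := by linarith [F.z1]
  have hPh : ∀ p ∈ PT e ℓ, ∀ j j', j ≠ j' → ¬ p ∣ nd (h j) (h j') := by
    intro p hp j j' hjj hd
    have h1 := nd_ne_zero (fun h1 => hjj (hinj h1))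
    have h2 := Nat.le_of_dvd (Nat.pos_of_ne_zero h1) hd
    have h3 := nd_le (hh j) (hh j')
    have h4 := hPz p hp
    omega
  have hPW : ∀ p ∈ PT e ℓ, ¬ p ∣ WW (w1 ℓ) e := by
    intro p hp hd
    have h1 := (prime_dvd_WW (hP p hp)).1 hd
    have h2 := hPz p hp
    omega
  have hB : ∏ p ∈ PT e ℓ, (1 + (k : ℝ) / p) ≤ (ℓ / c) ^ k :=
    prodk_le hc hcV (w1 ℓ) (yy ℓ) F.z2' (by linarith [F.z1]) F.zy (yy_le ℓ) F.ℓ0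
      (PT_sub hℓb e) k
  have hB' : ∏ p ∈ PT e ℓ, (1 + (((k + 1) ^ 2 : ℕ) : ℝ) / p) ≤ (ℓ / c) ^ ((k + 1) ^ 2) :=
    prodk_le hc hcV (w1 ℓ) (yy ℓ) F.z2' (by linarith [F.z1]) F.zy (yy_le ℓ) F.ℓ0
      (PT_sub hℓb e) ((k + 1) ^ 2)
  have hp0z : w1 ℓ < p0 := hPz p0 hp0
  have hp0pos : (0 : ℝ) < p0 := by exact_mod_cast (hP p0 hp0).pos
  have hwp : ((w1 ℓ : ℕ) : ℝ) ≤ (p0 : ℝ) := by exact_mod_cast hp0z.le
  set S : ℝ := C₁ * (Real.log p0 / Real.log (w1 ℓ)) with hSdef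
  have hS : ∀ Y : ℝ, 0 ≤ Y → shortS (PT e ℓ) (p0 : ℝ) Y ≤ S := fun Y hY =>
    hrough (w1 ℓ) (PT e ℓ) F.z2' (fun p hp => ⟨hP p hp, hPz p hp⟩) p0 Y hwp hY
  have hS2 : ∑ D ∈ (PT e ℓ).powerset.filter (fun D => p0 ∉ D),
      (gst n (rQ c k n ℓ) (∏ p ∈ D, p) - gst n (rQ c k n ℓ) (p0 * ∏ p ∈ D, p)) /
        ((∏ p ∈ D, p : ℕ) : ℝ) ≤ S := by
    refine le_trans ?_ (step_diff (PT e ℓ) hP n hn (rQ c k n ℓ) hρ.le p0 (hP p0 hp0).pos S hS)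
    apply Finset.sum_le_sum_of_subset_of_nonneg (Finset.filter_subset _ _)
    intro D _ _
    apply div_nonneg _ (Nat.cast_nonneg _)
    rw [sub_nonneg]
    exact gst_anti n _ (Nat.le_mul_of_pos_left _ (hP p0 hp0).pos)
  have hmodel := bad_model hP hPk (gst n (rQ c k n ℓ)) (gst_GOK hP hn hρ.le) (RQ ℓ)
    (Real.exp_pos _).le ⟨p0, hp0⟩ j0 S hS hS2
  have hℓ10 : 10 ≤ ℓ := by linarith
  have hsum := bad_sum (n := n) (ρ := rQ c k n ℓ) hk hP hPk hn hρ.le hℓ10 h hPh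
    (WW (w1 ℓ) e) A0 (WW_pos _ _) hPW _ _ hB hB' ⟨p0, hp0⟩ j0
  have hA : c / 4 * rQ c k n ℓ / Real.log (w1 ℓ) ≤ MT.A2 (PT e ℓ) (gst n (rQ c k n ℓ)) := by
    have h1 := F.HL hk hn hc hc1 hk2 hcV e 0 hn
    rw [pow_zero, one_mul] at h1
    exact A2_lower hn hρ.le h1
  have hWpos : (0 : ℝ) < WW (w1 ℓ) e := by exact_mod_cast WW_pos (w1 ℓ) e
  have hlp : 0 ≤ Real.log (p0 : ℝ) := Real.log_natCast_nonneg p0
  have halg := badOne_alg (K := (k : ℝ)) hC₁ hc hρ hL hlp hp0pos hWpos (Real.exp_pos ℓ).le hk hA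
  have hmul : Real.exp ℓ / (WW (w1 ℓ) e * (p0 : ℝ)) *
      MT.EE (qb p0 j0) (fun a : MT.Col (PT e ℓ) k => MT.Lam (gst n (rQ c k n ℓ)) (RQ ℓ) a ^ 2) ≤
      Real.exp ℓ / (WW (w1 ℓ) e * (p0 : ℝ)) *
        (4 * (C₁ * (Real.log p0 / Real.log (w1 ℓ))) * MT.A2 (PT e ℓ) (gst n (rQ c k n ℓ)) ^ (k - 1) +
          2 * ((k : ℝ) / p0) ^ 2 * MT.A2 (PT e ℓ) (gst n (rQ c k n ℓ)) ^ k) :=
    mul_le_mul_of_nonneg_left hmodel (by positivity)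
  exact hsum.trans (add_le_add (hmul.trans halg) le_rfl)

end Pool.Agent.H74.QT
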