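import Pool.Agent.H74.QT.BadOne

/-!
JOB QT-7 (about 200 lines). The total contribution of the `ν` for which some `ν + h j` has a small prime factor.

NOTATION. As in `BadOne`: `P = PT e ℓ`, `ρ = rQ c k n ℓ`, `A2 = MT.A2 P (gst n ρ)`, `z = w1 ℓ`, `W = WW z e`, `x = exp ℓ`,
`Er = ((ℓ/c)^k)^2 * (30 * (YQ ℓ * (ℓ/c)^((k+1)^2)))`, `V = x/W * A2^k`.
PROOF. Let `C` be the constant of `bad_one`, `C' = C * 1280000 * k * n / c^3` (so `C/(c ρ) = C'/ℓ`), and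
`δ = min (1/10) (κ/(4 k (C' + 1)))`.
(1) The filtered sum is at most `∑ j ∑_{p0 ∈ P, p0 ≤ exp (δ ℓ)} ∑_{ν ∈ S0, p0 ∣ ν + h j} LQ + ∑ j ∑_{ν ∈ S0, e ∣ ν + h j} LQ [if e is a prime, w1 ℓ < e]`
(union bound, `LQ ≥ 0`, `Finset.sum_biUnion_le`-type argument; a prime `p` with `w1 ℓ < p ≤ exp (δ ℓ)`, `p ≠ e` is in `PT e ℓ`, because
`exp (δ ℓ) ≤ R1 ℓ ≤ ⌈R1 ℓ⌉₊`).
(2) By `bad_one` the first double sum is at most
`k V (C'/ℓ ∑_{p ≤ exp(δℓ)} log p/p + 2 k^2 ∑_{p > z} 1/p^3) + k exp (δ ℓ) Er`. Mertens: `mA_le` (H16/Mertens.lean), `∑ ≤ log ⌊exp (δℓ)⌋ + log 4 ≤ δ ℓ + 2`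
(if `⌊exp (δ ℓ)⌋₊ ≥ 1`); `∑_{z < p ≤ y} 1/p^3 ≤ ∑_{z < n ≤ y} 1/n^2 ≤ 1/z` (`sum_inv_sq_Ioc`). The number of terms is `≤ exp (δ ℓ)`.
So it is `≤ V (k C' δ + 2 k C'/ℓ + 2 k^3/z) + k exp(δ ℓ) Er`, and `k C' δ ≤ κ/4`, `2 k C'/ℓ ≤ κ/8`, `2 k^3/z ≤ κ/8` for large `ℓ` (`z = w1 ℓ → ∞`).
(3) For `e` prime, `w1 ℓ < e`: `e ∤ W`, so there is `A1` with `A1 ≡ A0 mod W`, `A1 + h j ≡ 0 mod e` (`Nat.chineseRemainder`; class
`(e - 1) * h j`, compare `class_shift`), and `{ν ∈ S0 ℓ W A0 | e ∣ ν + h j} ⊆ S0 ℓ (W * e) A1`. `S1Q_flat` (H21/QG/Sums.lean) with `W * e`, `A1`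
(no prime of `P` divides `W * e`): `≤ x/(W e) A2^k + Er ≤ V/z + Er`. Sum over `j`: `≤ k V/z + k Er`, `k/z ≤ κ/8` for large `ℓ`.
(4) `k (exp (δ ℓ) + 1) Er ≤ (κ/8) x/W ≤ (κ/8) V`: `A2 ≥ 1` (`A2_ge_one`), `W ≤ exp (ℓ/10)` (`ev_WW`), `YQ ℓ = exp (0.49 ℓ)`, `δ ≤ 1/10`, so it is enough that
`k * 2 * 30 * (ℓ/c)^(2k + (k+1)^2) ≤ (κ/8) exp (0.31 ℓ)` for large `ℓ` (`ev_exp_pow`, H21/QG/Err2.lean or H16; see how it is used in `ev_errQ`).
-/

set_option autoImplicit false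

open Finset Filter Topology

namespace Pool.Agent.H74.QT

open Pool.Agent.H16
open Pool.Agent.H90
open Pool.Agent.H2.NC (w1 W1 P1 nu1)
open Pool.Agent.H21.QG (R1 RQ rQ YQ LQ TM G1)

/-- the sum over the small sieving primes -/
private lemma badtot_mertens (P : Finset ℕ) (z : ℕ) (hz : 1 ≤ z) (hP : ∀ p ∈ P, p.Prime ∧ z < p) {y : ℝ}
    (hy : 0 ≤ y) (hPy : ∀ p ∈ P, (p : ℝ) ≤ Real.exp y) :
    (#P : ℝ) ≤ Real.exp y ∧ ∑ p ∈ P, Real.log p / (p : ℝ) ≤ y + 2 ∧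
      ∑ p ∈ P, 1 / (p : ℝ) ^ 3 ≤ 1 / (z : ℝ) := by
  have hfl : ∀ p ∈ P, p ≤ ⌊Real.exp y⌋₊ := fun p hp => Nat.le_floor (hPy p hp)
  have h1 : 1 ≤ ⌊Real.exp y⌋₊ := Nat.le_floor (by rw [Nat.cast_one]; exact Real.one_le_exp hy)
  refine ⟨?_, ?_, ?_⟩
  · have h2 : P ⊆ Finset.Ioc 0 ⌊Real.exp y⌋₊ := fun p hp => by
      rw [Finset.mem_Ioc]; exact ⟨(hP p hp).1.pos, hfl p hp⟩
    have h3 := Finset.card_le_card h2
    rw [Nat.card_Ioc, Nat.sub_zero] at h3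
    have h4 : (#P : ℝ) ≤ ⌊Real.exp y⌋₊ := by exact_mod_cast h3
    exact h4.trans (Nat.floor_le (Real.exp_pos _).le)
  · have h2 : ∑ p ∈ P, Real.log p / (p : ℝ) ≤ mA ⌊Real.exp y⌋₊ := by
      unfold mA
      apply Finset.sum_le_sum_of_subset_of_nonneg
      · intro p hp
        rw [Nat.mem_primesLE]
        exact ⟨hfl p hp, (hP p hp).1⟩
      · intro p _ _
        exact div_nonneg (Real.log_natCast_nonneg p) (Nat.cast_nonneg p)
    have h3 := mA_le ⌊Real.exp y⌋₊ h1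
    have h4 : Real.log ⌊Real.exp y⌋₊ ≤ y := by
      rw [Real.log_le_iff_le_exp (by exact_mod_cast h1)]
      exact Nat.floor_le (Real.exp_pos _).le
    have h5 : Real.log 4 ≤ 2 := by
      have h6 : Real.log 4 = 2 * Real.log 2 := by
        rw [show (4 : ℝ) = 2 ^ 2 by norm_num, Real.log_pow]; norm_num
      have := Real.log_two_lt_d9
      rw [h6]
      linarith
    linarith
  · refine le_trans ?_ (sum_inv_sq_Ioc z ⌊Real.exp y⌋₊ hz)
    refine le_trans (Finset.sum_le_sum (g := fun p : ℕ => 1 / (p : ℝ) ^ 2) fun p hp => ?_) ?_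
    · have h2 : (1 : ℝ) ≤ p := by exact_mod_cast (hP p hp).1.one_lt.le
      apply one_div_le_one_div_of_le (by positivity)
      exact pow_le_pow_right₀ h2 (by norm_num)
    · apply Finset.sum_le_sum_of_subset_of_nonneg
      · intro p hp
        rw [Finset.mem_Ioc]
        exact ⟨(hP p hp).2, hfl p hp⟩
      · intro p _ _
        positivity

/-- the integers divisible by the exceptional prime -/
private lemma badtot_exc {k n : ℕ} {c ℓ : ℝ} (F : MW k n c ℓ) (hk : 0 < k) (hn : 0 < n) (hc : 0 < c)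
    (hcV : ∀ n : ℕ, 2 ≤ n → c / Real.log n ≤ Vp n) (h : Fin k → ℕ) (hinj : Function.Injective h)
    (hh : ∀ j, h j ≤ w1 ℓ) (e A0 : ℕ) (he : e.Prime) (hez : w1 ℓ < e) (j : Fin k) :
    ∑ ν ∈ (S0 ℓ (WW (w1 ℓ) e) A0).filter (fun ν => e ∣ ν + h j), LQ h (PT e ℓ) n (rQ c k n ℓ) ℓ ν ≤
      Real.exp ℓ / WW (w1 ℓ) e * MT.A2 (PT e ℓ) (gst n (rQ c k n ℓ)) ^ k * (1 / (w1 ℓ : ℝ)) +
      ((ℓ / c) ^ k) ^ 2 * (30 * (YQ ℓ * (ℓ / c) ^ ((k + 1) ^ 2))) := by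
  have hz0 := F.z0
  have hz2 := F.z2'
  have hℓ0 := F.ℓ0
  have hWpos : 0 < WW (w1 ℓ) e := WW_pos _ _
  have hcop : Nat.Coprime (WW (w1 ℓ) e) e := by
    rw [Nat.coprime_comm, Nat.Prime.coprime_iff_not_dvd he]
    intro h1
    exact ((prime_dvd_WW he).mp h1).2 rfl
  obtain ⟨A1, hA1, hA1e⟩ := Nat.chineseRemainder hcop A0 ((e - 1) * h j)
  have hsub : (S0 ℓ (WW (w1 ℓ) e) A0).filter (fun ν => e ∣ ν + h j) ⊆
      S0 ℓ (WW (w1 ℓ) e * e) A1 := by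
    intro ν hν
    rw [Finset.mem_filter] at hν
    unfold S0 at hν ⊢
    rw [Finset.mem_filter] at hν ⊢
    refine ⟨hν.1.1, ?_⟩
    rw [← Nat.modEq_and_modEq_iff_modEq_mul hcop]
    refine ⟨hν.1.2.trans hA1.symm, ?_⟩
    have h1 := (class_shift (i := 0) he.one_le).mp hν.2
    rw [add_zero, zero_add] at h1
    exact h1.trans hA1e.symm
  have hρ : 0 ≤ rQ c k n ℓ := (Real.log_nonneg (by linarith [F.ℓbig])).trans F.zρ
  have hPp : ∀ p ∈ PT e ℓ, p.Prime := fun p hp => (mem_PT.mp hp).1.2.2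
  have hPz : ∀ p ∈ PT e ℓ, w1 ℓ < p := fun p hp => (mem_PT.mp hp).1.1
  have hkz : k < w1 ℓ := by
    have h1 := F.zk
    have h2 : (0 : ℝ) ≤ k := Nat.cast_nonneg k
    have h3 : (0 : ℝ) ≤ (k : ℝ) ^ 2 := by positivity
    have h4 : (k : ℝ) < w1 ℓ := by linarith
    exact_mod_cast h4
  have hexp : (yy ℓ : ℝ) ≤ Real.exp (ℓ / 2) := yy_le ℓ
  have h1 := Pool.Agent.H21.QG.S1Q_flat (P := PT e ℓ) (n := n) (ρ := rQ c k n ℓ) (ℓ := ℓ) hk hPp
    (fun p hp => hkz.trans (hPz p hp)) hn hρ (by linarith [F.ℓbig]) h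
    (fun p hp j j' hjj hdvd => by
      have h2 : nd (h j) (h j') ≠ 0 := nd_ne_zero (fun h3 => hjj (hinj h3))
      have h3 : nd (h j) (h j') ≤ w1 ℓ := nd_le (hh j) (hh j')
      have h4 := Nat.le_of_dvd (Nat.pos_of_ne_zero h2) hdvd
      have h5 := hPz p hp
      omega)
    (WW (w1 ℓ) e * e) A1 (Nat.mul_pos hWpos he.pos)
    (fun p hp hdvd => by
      rcases (hPp p hp).dvd_mul.mp hdvd with h2 | h2
      · have h3 := ((prime_dvd_WW (hPp p hp)).mp h2).1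
        have h4 := hPz p hp
        omega
      · exact (mem_PT.mp hp).2 ((Nat.prime_dvd_prime_iff_eq (hPp p hp) he).mp h2))
    ((ℓ / c) ^ k) ((ℓ / c) ^ ((k + 1) ^ 2))
    (prodk_le hc hcV (w1 ℓ) (yy ℓ) hz2 (by linarith [F.z1]) F.zy hexp hℓ0 (PT_sub F.ℓbig e) k)
    (prodk_le hc hcV (w1 ℓ) (yy ℓ) hz2 (by linarith [F.z1]) F.zy hexp hℓ0 (PT_sub F.ℓbig e)
      ((k + 1) ^ 2))
  refine (Finset.sum_le_sum_of_subset_of_nonneg hsub
    (fun ν _ _ => Pool.Agent.H21.QG.LQ_nonneg h _ n _ ℓ ν)).trans (h1.trans ?_)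
  apply add_le_add_left
  have hW0 : (0 : ℝ) < WW (w1 ℓ) e := by exact_mod_cast hWpos
  have he0 : (0 : ℝ) < e := by exact_mod_cast he.pos
  have hze : (w1 ℓ : ℝ) ≤ e := by exact_mod_cast hez.le
  have hA : 0 ≤ MT.A2 (PT e ℓ) (gst n (rQ c k n ℓ)) ^ k :=
    pow_nonneg (zero_le_one.trans (A2_ge_one hPp hn hρ)) k
  have e1 : Real.exp ℓ / ((WW (w1 ℓ) e * e : ℕ) : ℝ) * MT.A2 (PT e ℓ) (gst n (rQ c k n ℓ)) ^ k =
      Real.exp ℓ / WW (w1 ℓ) e * MT.A2 (PT e ℓ) (gst n (rQ c k n ℓ)) ^ k * (1 / (e : ℝ)) := by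
    push_cast
    field_simp
  rw [e1]
  apply mul_le_mul_of_nonneg_left _ (by positivity)
  exact one_div_le_one_div_of_le hz0 hze

open Classical in
theorem bad_tot (k n : ℕ) (hk : 0 < k) (hn : 0 < n) (hk2 : 2 ^ n ≤ k) (c : ℝ) (hc : 0 < c) (hc1 : c ≤ 1)
    (hcV : ∀ n : ℕ, 2 ≤ n → c / Real.log n ≤ Vp n) (κ : ℝ) (hκ : 0 < κ) :
    ∃ δ : ℝ, 0 < δ ∧ δ ≤ 1 / 10 ∧ ∀ h : Fin k → ℕ, Function.Injective h →
    ∀ᶠ ℓ : ℝ in atTop, ∀ e A0 : ℕ,
    ∑ ν ∈ (S0 ℓ (WW (w1 ℓ) e) A0).filter (fun ν => ∃ j, ∃ p, p.Prime ∧ w1 ℓ < p ∧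
        (p = e ∨ (p : ℝ) ≤ Real.exp (δ * ℓ)) ∧ p ∣ ν + h j),
      LQ h (PT e ℓ) n (rQ c k n ℓ) ℓ ν ≤
    κ * (Real.exp ℓ / WW (w1 ℓ) e * MT.A2 (PT e ℓ) (gst n (rQ c k n ℓ)) ^ k) := by
  obtain ⟨C, hC, hone⟩ := bad_one
  have hk0 : (0 : ℝ) < k := by exact_mod_cast hk
  have hn0 : (0 : ℝ) < n := by exact_mod_cast hn
  set C' : ℝ := C * 1280000 * k * n / c ^ 3 with hC'
  have hC'0 : 0 < C' := by positivity
  set δ : ℝ := min (1 / 10) (κ / (4 * k * (C' + 1))) with hδ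
  have hδ0 : 0 < δ := lt_min (by norm_num) (by positivity)
  have hδ1 : δ ≤ 1 / 10 := min_le_left _ _
  have hδ2 : k * (C' * δ) ≤ κ / 4 := by
    have h1 : δ ≤ κ / (4 * k * (C' + 1)) := min_le_right _ _
    rw [le_div_iff₀ (by positivity)] at h1
    nlinarith [mul_pos hk0 hδ0]
  refine ⟨δ, hδ0, hδ1, fun h hinj => ?_⟩
  -- large `ℓ`
  have hw1 : Tendsto (fun ℓ : ℝ => ((w1 ℓ : ℕ) : ℝ)) atTop atTop := by
    unfold w1
    exact tendsto_natCast_atTop_atTop.comp (tendsto_nat_floor_atTop.comp Real.tendsto_log_atTop)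
  have hw1' : ∀ M : ℝ, ∀ᶠ ℓ : ℝ in atTop, M ≤ ((w1 ℓ : ℕ) : ℝ) := fun M =>
    hw1.eventually_ge_atTop M
  set E : ℕ := 2 * k + (k + 1) ^ 2 with hE
  filter_upwards [ev_MW k n hk hn c hc, ev_WW (1 / 10) (by norm_num),
    hw1' (∑ j, (h j : ℝ)), hw1' (16 * k ^ 3 / κ), hw1' (8 * k / κ),
    eventually_ge_atTop (16 * k * C' / κ),
    ev_exp_pow (31 / 100) E (480 * k / κ * (1 / c) ^ E) (by norm_num) (by positivity)]
    with ℓ F hWW hsumh hz3 hz1 hℓC hexpE e A0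
  have hz0 := F.z0
  have hz2 := F.z2'
  have hℓ0 := F.ℓ0
  have hh : ∀ j, h j ≤ w1 ℓ := by
    intro j
    have h1 : (h j : ℝ) ≤ ∑ j, (h j : ℝ) :=
      Finset.single_le_sum (f := fun j => (h j : ℝ)) (fun _ _ => Nat.cast_nonneg _)
        (Finset.mem_univ j)
    exact_mod_cast h1.trans hsumh
  have hρ : 0 ≤ rQ c k n ℓ := (Real.log_nonneg (by linarith [F.ℓbig])).trans F.zρ
  have hPp : ∀ p ∈ PT e ℓ, p.Prime := fun p hp => (mem_PT.mp hp).1.2.2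
  have hPz : ∀ p ∈ PT e ℓ, w1 ℓ < p := fun p hp => (mem_PT.mp hp).1.1
  set W := WW (w1 ℓ) e with hW
  have hWpos : 0 < W := WW_pos _ _
  have hW0 : (0 : ℝ) < W := by exact_mod_cast hWpos
  set A2 := MT.A2 (PT e ℓ) (gst n (rQ c k n ℓ)) with hA2
  have hA1 : 1 ≤ A2 ^ k := one_le_pow₀ (A2_ge_one hPp hn hρ)
  set V : ℝ := Real.exp ℓ / W * A2 ^ k with hV
  have hV0 : 0 ≤ V := by positivity
  set Er : ℝ := ((ℓ / c) ^ k) ^ 2 * (30 * (YQ ℓ * (ℓ / c) ^ ((k + 1) ^ 2))) with hEr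
  have hYQ : 0 < YQ ℓ := by unfold Pool.Agent.H21.QG.YQ; exact Real.exp_pos _
  have hEr0 : 0 ≤ Er := by positivity
  set S := S0 ℓ W A0 with hS
  set L : ℕ → ℝ := fun ν => LQ h (PT e ℓ) n (rQ c k n ℓ) ℓ ν with hL
  have hL0 : ∀ ν, 0 ≤ L ν := fun ν => Pool.Agent.H21.QG.LQ_nonneg h _ n _ ℓ ν
  set P' : Finset ℕ := (PT e ℓ).filter (fun p => (p : ℝ) ≤ Real.exp (δ * ℓ)) with hP'
  have hP'1 : ∀ p ∈ P', p.Prime ∧ w1 ℓ < p := fun p hp =>
    ⟨hPp p (Finset.mem_filter.mp hp).1, hPz p (Finset.mem_filter.mp hp).1⟩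
  -- the union bound
  have hunion : ∑ ν ∈ S.filter (fun ν => ∃ j, ∃ p, p.Prime ∧ w1 ℓ < p ∧
        (p = e ∨ (p : ℝ) ≤ Real.exp (δ * ℓ)) ∧ p ∣ ν + h j), L ν ≤
      ∑ j : Fin k, ∑ p ∈ P', ∑ ν ∈ S.filter (fun ν => p ∣ ν + h j), L ν +
      ∑ j : Fin k, (if e.Prime ∧ w1 ℓ < e then ∑ ν ∈ S.filter (fun ν => e ∣ ν + h j), L ν
        else 0) := by
    have e1 : ∑ j : Fin k, ∑ p ∈ P', ∑ ν ∈ S.filter (fun ν => p ∣ ν + h j), L ν =
        ∑ ν ∈ S, ∑ j : Fin k, ∑ p ∈ P', (if p ∣ ν + h j then L ν else 0) := by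
      symm
      rw [Finset.sum_comm]
      apply Finset.sum_congr rfl
      intro j _
      rw [Finset.sum_comm]
      apply Finset.sum_congr rfl
      intro p _
      rw [Finset.sum_filter]
    have e2 : ∑ j : Fin k, (if e.Prime ∧ w1 ℓ < e then ∑ ν ∈ S.filter (fun ν => e ∣ ν + h j), L ν
        else 0) = ∑ ν ∈ S, ∑ j : Fin k, (if e.Prime ∧ w1 ℓ < e then
          (if e ∣ ν + h j then L ν else 0) else 0) := by
      rw [Finset.sum_comm]
      apply Finset.sum_congr rfl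
      intro j _
      by_cases hc1 : e.Prime ∧ w1 ℓ < e
      · simp only [if_pos hc1]
        rw [Finset.sum_filter]
      · simp only [if_neg hc1]
        rw [Finset.sum_const_zero]
    rw [e1, e2, ← Finset.sum_add_distrib, Finset.sum_filter]
    apply Finset.sum_le_sum
    intro ν _
    have n1 : 0 ≤ ∑ j : Fin k, ∑ p ∈ P', (if p ∣ ν + h j then L ν else 0) :=
      Finset.sum_nonneg (fun j _ => Finset.sum_nonneg (fun p _ => by
        split_ifs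
        · exact hL0 ν
        · exact le_rfl))
    have n2' : ∀ j : Fin k, 0 ≤ (if e.Prime ∧ w1 ℓ < e then
        (if e ∣ ν + h j then L ν else 0) else 0) := fun j => by
      split_ifs
      · exact hL0 ν
      · exact le_rfl
      · exact le_rfl
    have n2 : 0 ≤ ∑ j : Fin k, (if e.Prime ∧ w1 ℓ < e then
        (if e ∣ ν + h j then L ν else 0) else 0) := Finset.sum_nonneg (fun j _ => n2' j)
    by_cases hbad : ∃ j, ∃ p, p.Prime ∧ w1 ℓ < p ∧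
        (p = e ∨ (p : ℝ) ≤ Real.exp (δ * ℓ)) ∧ p ∣ ν + h j
    · rw [if_pos hbad]
      obtain ⟨j, p, hp, hzp, hpe, hdvd⟩ := hbad
      by_cases hpe' : p = e
      · subst hpe'
        have h1 : L ν ≤ ∑ j : Fin k, (if p.Prime ∧ w1 ℓ < p then
            (if p ∣ ν + h j then L ν else 0) else 0) := by
          refine le_trans (le_of_eq ?_) (Finset.single_le_sum (f := fun j : Fin k =>
            (if p.Prime ∧ w1 ℓ < p then (if p ∣ ν + h j then L ν else 0) else 0))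
            (fun j _ => n2' j) (Finset.mem_univ j))
          simp only [if_pos (show p.Prime ∧ w1 ℓ < p from ⟨hp, hzp⟩), if_pos hdvd]
        linarith
      · have hpl : (p : ℝ) ≤ Real.exp (δ * ℓ) := by
          rcases hpe with h1 | h1
          · exact absurd h1 hpe'
          · exact h1
        have hpP' : p ∈ P' := by
          rw [hP', Finset.mem_filter, mem_PT]
          refine ⟨⟨⟨hzp, ?_, hp⟩, hpe'⟩, hpl⟩
          have h1 : (p : ℝ) ≤ R1 ℓ := by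
            refine hpl.trans ?_
            unfold Pool.Agent.H21.QG.R1
            apply Real.exp_le_exp.mpr
            nlinarith
          exact_mod_cast h1.trans (Nat.le_ceil _)
        have h1 : L ν ≤ ∑ j : Fin k, ∑ p ∈ P', (if p ∣ ν + h j then L ν else 0) := by
          refine le_trans ?_ (Finset.single_le_sum (f := fun j : Fin k =>
            ∑ p ∈ P', (if p ∣ ν + h j then L ν else 0))
            (fun j _ => Finset.sum_nonneg (fun p _ => by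
              split_ifs
              · exact hL0 ν
              · exact le_rfl)) (Finset.mem_univ j))
          refine le_trans (le_of_eq ?_) (Finset.single_le_sum (f := fun p : ℕ =>
            (if p ∣ ν + h j then L ν else 0)) (fun p _ => by
              split_ifs
              · exact hL0 ν
              · exact le_rfl) hpP')
          simp only [if_pos hdvd]
        linarith
    · rw [if_neg hbad]
      linarith
  refine hunion.trans ?_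
  -- the first sum
  obtain ⟨hm1, hm2, hm3⟩ := badtot_mertens P' (w1 ℓ) (by omega) hP'1 (y := δ * ℓ)
    (by positivity) (fun p hp => (Finset.mem_filter.mp hp).2)
  have hCρ : C / (c * rQ c k n ℓ) = C' / ℓ := by
    rw [hC']
    unfold Pool.Agent.H21.QG.rQ
    field_simp
  have hfirst : ∀ j : Fin k, ∑ p ∈ P', ∑ ν ∈ S.filter (fun ν => p ∣ ν + h j), L ν ≤
      V * (C' / ℓ * (δ * ℓ + 2) + 2 * (k : ℝ) ^ 2 * (1 / (w1 ℓ : ℝ))) +
        Real.exp (δ * ℓ) * Er := by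
    intro j
    calc ∑ p ∈ P', ∑ ν ∈ S.filter (fun ν => p ∣ ν + h j), L ν ≤
        ∑ p ∈ P', (V * (C' / ℓ * (Real.log p / (p : ℝ)) + 2 * (k : ℝ) ^ 2 * (1 / (p : ℝ) ^ 3)) +
          Er) := by
          apply Finset.sum_le_sum
          intro p hp
          have h1 := hone k n c ℓ F hk hn hc hc1 hk2 hcV h hinj hh e A0 p
            (Finset.mem_filter.mp hp).1 j
          rw [hCρ] at h1
          refine h1.trans (le_of_eq ?_)
          rw [hV, hEr]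
          ring
      _ = V * (C' / ℓ * (∑ p ∈ P', Real.log p / (p : ℝ)) +
            2 * (k : ℝ) ^ 2 * (∑ p ∈ P', 1 / (p : ℝ) ^ 3)) + #P' * Er := by
          rw [Finset.sum_add_distrib, Finset.sum_const, nsmul_eq_mul, ← Finset.mul_sum,
            Finset.sum_add_distrib, ← Finset.mul_sum, ← Finset.mul_sum]
      _ ≤ _ := by
          apply add_le_add
          · apply mul_le_mul_of_nonneg_left _ hV0
            apply add_le_add
            · exact mul_le_mul_of_nonneg_left hm2 (by positivity)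
            · exact mul_le_mul_of_nonneg_left hm3 (by positivity)
          · exact mul_le_mul_of_nonneg_right hm1 hEr0
  have hsecond : ∀ j : Fin k, (if e.Prime ∧ w1 ℓ < e then
      ∑ ν ∈ S.filter (fun ν => e ∣ ν + h j), L ν else 0) ≤ V * (1 / (w1 ℓ : ℝ)) + Er := by
    intro j
    split_ifs with he
    · exact badtot_exc F hk hn hc hcV h hinj hh e A0 he.1 he.2 j
    · positivity
  have hsum : ∑ j : Fin k, ∑ p ∈ P', ∑ ν ∈ S.filter (fun ν => p ∣ ν + h j), L ν +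
      ∑ j : Fin k, (if e.Prime ∧ w1 ℓ < e then ∑ ν ∈ S.filter (fun ν => e ∣ ν + h j), L ν
        else 0) ≤
      k * (V * (C' / ℓ * (δ * ℓ + 2) + 2 * (k : ℝ) ^ 2 * (1 / (w1 ℓ : ℝ))) +
        Real.exp (δ * ℓ) * Er) + k * (V * (1 / (w1 ℓ : ℝ)) + Er) := by
    apply add_le_add
    · refine (Finset.sum_le_sum (fun j _ => hfirst j)).trans (le_of_eq ?_)
      rw [Finset.sum_const, Finset.card_univ, Fintype.card_fin, nsmul_eq_mul]
    · refine (Finset.sum_le_sum (fun j _ => hsecond j)).trans (le_of_eq ?_)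
      rw [Finset.sum_const, Finset.card_univ, Fintype.card_fin, nsmul_eq_mul]
  refine hsum.trans ?_
  -- the four small terms
  have t1 : k * (C' / ℓ * (δ * ℓ + 2)) ≤ κ / 4 + κ / 8 := by
    have e1 : k * (C' / ℓ * (δ * ℓ + 2)) = k * (C' * δ) + 2 * k * C' / ℓ := by
      field_simp
    rw [e1]
    apply add_le_add hδ2
    rw [div_le_iff₀ hℓ0]
    rw [div_le_iff₀ hκ] at hℓC
    linarith
  have t2 : k * (2 * (k : ℝ) ^ 2 * (1 / (w1 ℓ : ℝ))) ≤ κ / 8 := by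
    have e1 : k * (2 * (k : ℝ) ^ 2 * (1 / (w1 ℓ : ℝ))) = 2 * k ^ 3 / (w1 ℓ : ℝ) := by ring
    rw [e1, div_le_iff₀ hz0]
    rw [div_le_iff₀ hκ] at hz3
    linarith
  have t3 : k * (1 / (w1 ℓ : ℝ)) ≤ κ / 8 := by
    rw [mul_one_div, div_le_iff₀ hz0]
    rw [div_le_iff₀ hκ] at hz1
    linarith
  have t4 : k * (Real.exp (δ * ℓ) * Er + Er) ≤ κ / 8 * V := by
    have h1 : Real.exp (δ * ℓ) ≤ Real.exp (1 / 10 * ℓ) :=
      Real.exp_le_exp.mpr (mul_le_mul_of_nonneg_right hδ1 hℓ0.le)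
    have h2 : 1 ≤ Real.exp (1 / 10 * ℓ) := Real.one_le_exp (by positivity)
    have h3 : Real.exp (9 / 10 * ℓ) ≤ V := by
      have h4 : Real.exp (9 / 10 * ℓ) ≤ Real.exp ℓ / W := by
        rw [le_div_iff₀ hW0]
        refine (mul_le_mul_of_nonneg_left (hWW e).2 (Real.exp_pos _).le).trans (le_of_eq ?_)
        rw [← Real.exp_add]
        congr 1
        ring
      calc Real.exp (9 / 10 * ℓ) ≤ Real.exp ℓ / W := h4
        _ = Real.exp ℓ / W * 1 := (mul_one _).symm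
        _ ≤ V := mul_le_mul_of_nonneg_left hA1 (by positivity)
    have h5 : Er = 30 * ((1 / c) ^ E * ℓ ^ E * Real.exp (49 / 100 * ℓ)) := by
      rw [hEr, hE]
      unfold Pool.Agent.H21.QG.YQ
      rw [show ((1 : ℝ) / 2 - 1 / 100) * ℓ = 49 / 100 * ℓ by ring, ← mul_pow,
        show 1 / c * ℓ = ℓ / c by ring, pow_add, pow_mul', ← pow_mul, mul_comm k 2]
      ring
    have h6 : k * (Real.exp (δ * ℓ) * Er + Er) ≤ k * (2 * (Real.exp (1 / 10 * ℓ) * Er)) := by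
      apply mul_le_mul_of_nonneg_left _ hk0.le
      have := mul_le_mul_of_nonneg_right h1 hEr0
      have := mul_le_mul_of_nonneg_right h2 hEr0
      linarith
    refine h6.trans (le_trans ?_ (mul_le_mul_of_nonneg_left h3 (by positivity)))
    rw [Real.rpow_natCast] at hexpE
    have h7 : Real.exp (-(31 / 100 * ℓ)) * Real.exp (9 / 10 * ℓ) = Real.exp (59 / 100 * ℓ) := by
      rw [← Real.exp_add]; congr 1; ring
    have h8 : Real.exp (1 / 10 * ℓ) * Real.exp (49 / 100 * ℓ) = Real.exp (59 / 100 * ℓ) := by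
      rw [← Real.exp_add]; congr 1; ring
    have h9 : k * (2 * (Real.exp (1 / 10 * ℓ) * Er)) =
        κ / 8 * ((480 * k / κ * (1 / c) ^ E * ℓ ^ E * Real.exp (-(31 / 100 * ℓ))) *
          Real.exp (9 / 10 * ℓ)) := by
      rw [h5, mul_assoc (480 * k / κ * (1 / c) ^ E * ℓ ^ E), h7, ← h8]
      field_simp
      ring
    rw [h9]
    apply mul_le_mul_of_nonneg_left _ (by positivity)
    calc (480 * k / κ * (1 / c) ^ E * ℓ ^ E * Real.exp (-(31 / 100 * ℓ))) *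
          Real.exp (9 / 10 * ℓ) ≤ 1 * Real.exp (9 / 10 * ℓ) :=
          mul_le_mul_of_nonneg_right hexpE (Real.exp_pos _).le
      _ = _ := one_mul _
  have hfinal : k * (V * (C' / ℓ * (δ * ℓ + 2) + 2 * (k : ℝ) ^ 2 * (1 / (w1 ℓ : ℝ))) +
        Real.exp (δ * ℓ) * Er) + k * (V * (1 / (w1 ℓ : ℝ)) + Er) =
      V * (k * (C' / ℓ * (δ * ℓ + 2)) + k * (2 * (k : ℝ) ^ 2 * (1 / (w1 ℓ : ℝ))) +
        k * (1 / (w1 ℓ : ℝ))) + k * (Real.exp (δ * ℓ) * Er + Er) := by ring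
  rw [hfinal]
  have h1 : V * (k * (C' / ℓ * (δ * ℓ + 2)) + k * (2 * (k : ℝ) ^ 2 * (1 / (w1 ℓ : ℝ))) +
        k * (1 / (w1 ℓ : ℝ))) ≤ V * (5 / 8 * κ) :=
    mul_le_mul_of_nonneg_left (by linarith) hV0
  have h2 : 0 ≤ κ * V := mul_nonneg hκ.le hV0
  linarith

end Pool.Agent.H74.QT
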