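import Mathlib

/-!
Copy of H21/QG/Core.lean (helper21 and team) with the stronger conclusion `7/100 V ≤ ..`.

Variables: `x = exp ℓ`, `L = log z`, `φ = φ(W)`, `X = XT`, `T = TM`, `A1, A2`, `Ap = A2^(k-2)`, `G = G1 P R1`, `k = 5 K`.
Put `V = T/W * (Ap * A2^2)` (upper bound for the smooth sum), `a = (X/φ) (1 - 1/100) A1^2 (Ap A2)/(ℓ V)`,
`b = (X/φ)(1 + 1/100) A1^4 Ap/(G ℓ V)`.
* `b/a^2 = (1.01/0.99^2) (T/X) (φ/W) (ℓ/G) ≤ 4.5`: `T ≤ X/0.99`, `G ≥ 0.98 (φ/W) (24/100) ℓ`: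
  `1.01/0.9801/0.99/0.98/0.24 = 4.4257..`.
* `u = K a ≥ 40`: `a = 0.99 (X/T) (W/φ) A1^2/(A2 ℓ) ≥ 0.99*0.99*(L/2)*(c n ρ/(8 L))^2/(8 ρ/(c L))/ℓ ≥ c^3 n^2 ρ/(1100 ℓ)`
  `= c^5 n/(1100*1280000*k)`, `K = k/5`, so `u ≥ c^5 n/(5*1100*1280000) ≥ 40` by `hnm`.
* with `t = 1 + 9/2 * u`: `5 ((2/t - 1/t^2) u - (9/2) u^2/t^2) = 5 u/t ≥ 5 * 40/181 ≥ 1.104` (increasing in `u`).
* `S1f ≤ (x/W) Ap A2^2 + e1`, `x/100 ≤ 20/100 T`?? NO: the term is `1/100 * S1f`, `x ≤ 20 T` gives only `0.2 V`;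
  therefore the flat term has the small coefficient `κ0 = 1/2000` here: `κ0 * S1f ≤ (20/2000) V + κ0 e1 = 0.01 V + ..`.
* uncovered: `10/ℓ * u0 * (X/φ) 8 Ap A2^2 ≤ 0.01 V`: `X ≤ 2 x ≤ 40 T`, `1/φ ≤ L/(c W)`, `u0 ≤ c/(4*10^5) * ℓ/L` (`hul`):
  `80 * 40 * c/(4*10^5)/c = 0.008`.
* total `≥ V (1.104 - 1 - 0.01 - 0.01) - errors ≥ 0.08 V - errors`, `V ≥ T/W ≥ x/(20 W)`; errors `≤ x/(10000 W)`.
-/

set_option autoImplicit false
set_option linter.unusedVariables false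

namespace Pool.Agent.H74.QT

theorem coreQ2 {x ℓ L φ W X T A1 A2 Ap G ρ c n k K u0 t u e1 e2 e3 S1 S1f S2 S3 SU : ℝ}
    (hx : 0 < x) (hℓ : 1 ≤ ℓ) (hL : 0 < L) (hφ : 0 < φ) (hW : 0 < W) (hc : 0 < c) (hc1 : c ≤ 1)
    (hn : 0 < n) (hK : 1 ≤ K) (hk : k = 5 * K) (hu0 : 0 ≤ u0)
    (hA1 : c * n * ρ / (8 * L) ≤ A1) (hA2 : A2 ≤ 8 * ρ / (c * L)) (hA21 : 1 ≤ A2) (hAp : 1 ≤ Ap)
    (hTx : x ≤ 20 * T) (hXT : (1 - 1 / 100) * T ≤ X) (hXx : X ≤ 2 * x)
    (hφW : φ * L ≤ 2 * W) (hφW2 : c * W ≤ φ * L)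
    (hG : (1 - 1 / 50) * (φ / W) * (24 / 100 * ℓ) ≤ G)
    (hρ : ρ = c ^ 2 / (1280000 * k * n) * ℓ)
    (hnm : 40 * 5 * 1100 * 1280000 ≤ c ^ 5 * n)
    (hul : 400000 * u0 * L ≤ c * ℓ)
    (hu : u = K * ((X / φ) * (1 - 1 / 100) * A1 ^ 2 * (Ap * A2) / (ℓ * (T / W * (Ap * A2 ^ 2)))))
    (ht : t = 1 + 9 / 2 * u)
    (herr : 10 * K * e2 + 10 * K ^ 2 * e3 + 2 * e1 + 10 * u0 * e2 ≤ x / (10000 * W))
    (he1 : 0 ≤ e1) (he2 : 0 ≤ e2) (he3 : 0 ≤ e3)
    (h2 : k * (X / φ * (A1 ^ 2 * ((1 - 1 / 100) * (Ap * A2))) - e2) ≤ S2)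
    (h3 : S3 ≤ k * (K - 1) * (X / φ * ((1 + 1 / 100) * A1 ^ 4 * Ap / G) + e3))
    (h1 : S1 ≤ T / W * (Ap * A2 ^ 2) + e1)
    (h1f : S1f ≤ x / W * (Ap * A2 ^ 2) + e1)
    (hU : SU ≤ u0 * (X / φ * (8 * (Ap * A2 ^ 2)) + e2)) :
    1 ≤ t ∧ 7 / 100 * (T / W * (Ap * A2 ^ 2)) ≤
      (2 / t - 1 / t ^ 2) * (S2 / ℓ) - 1 / t ^ 2 * (S3 / ℓ) - S1 - 1 / 2000 * S1f - 10 * (SU / ℓ) := by
  have hℓ0 : 0 < ℓ := by linarith
  have hK0 : 0 < K := by linarith
  have hk0 : 0 < k := by rw [hk]; linarith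
  have hρ0 : 0 < ρ := by rw [hρ]; positivity
  have hT : 0 < T := by linarith
  have hX : 0 < X := by linarith
  have hA1p : 0 < A1 := lt_of_lt_of_le (by positivity) hA1
  have hA2p : 0 < A2 := by linarith
  have hApp : 0 < Ap := by linarith
  have hG0 : 0 < G := lt_of_lt_of_le (by norm_num; positivity) hG
  set V := T / W * (Ap * A2 ^ 2) with hV
  have hVp : 0 < V := by positivity
  set a := (X / φ) * (1 - 1 / 100) * A1 ^ 2 * (Ap * A2) / (ℓ * V) with ha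
  have ha1 : X / φ * (A1 ^ 2 * ((1 - 1 / 100) * (Ap * A2))) = a * (ℓ * V) := by
    rw [ha, div_mul_cancel₀ _ (by positivity)]
    ring
  have ha0 : 0 < a := by
    rw [ha]
    have : (0 : ℝ) < 1 - 1 / 100 := by norm_num
    positivity
  -- lower bound of `u`
  have e1' : a = 99 / 100 * (X / T) * (W / φ) * A1 ^ 2 * (1 / A2) / ℓ := by
    rw [ha, hV]
    field_simp
    ring
  have hXT1 : 99 / 100 ≤ X / T := by
    rw [le_div_iff₀ hT]
    linarith
  have hWφ : L / 2 ≤ W / φ := by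
    rw [le_div_iff₀ hφ]
    linarith
  have hA2i : c * L / (8 * ρ) ≤ 1 / A2 := by
    rw [div_le_div_iff₀ (by positivity) hA2p]
    rw [le_div_iff₀ (by positivity)] at hA2
    linarith
  have hA1sq : (c * n * ρ / (8 * L)) ^ 2 ≤ A1 ^ 2 := by
    have : 0 ≤ c * n * ρ / (8 * L) := by positivity
    gcongr
  have h5 : c ^ 5 * n / (1100 * 1280000 * k) ≤ a := by
    calc c ^ 5 * n / (1100 * 1280000 * k)
        ≤ 9801 / 10000 * (c ^ 5 * n / (1024 * 1280000 * k)) := by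
          rw [← mul_div_assoc, div_le_div_iff₀ (by positivity) (by positivity)]
          have : 0 < c ^ 5 * n * k := by positivity
          linarith
      _ = 99 / 100 * (99 / 100) * (L / 2) * (c * n * ρ / (8 * L)) ^ 2 * (c * L / (8 * ρ)) / ℓ := by
          rw [hρ]
          field_simp
          ring
      _ ≤ 99 / 100 * (X / T) * (W / φ) * A1 ^ 2 * (1 / A2) / ℓ := by gcongr
      _ = a := e1'.symm
  have hu40 : 40 ≤ u := by
    have h6 : u = k * a / 5 := by rw [hu, hk]; ring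
    have h7 : c ^ 5 * n / (1100 * 1280000) ≤ k * a := by
      calc c ^ 5 * n / (1100 * 1280000) = k * (c ^ 5 * n / (1100 * 1280000 * k)) := by
            field_simp
        _ ≤ k * a := by gcongr
    rw [div_le_iff₀ (by norm_num)] at h7
    rw [h6]
    linarith
  have hu0' : 0 < u := by linarith
  have ht1 : 1 ≤ t := by rw [ht]; linarith
  have ht0 : 0 < t := by linarith
  refine ⟨ht1, ?_⟩
  have huK : u = K * a := hu
  -- the pair constant
  have hb : X / φ * ((1 + 1 / 100) * A1 ^ 4 * Ap / G) ≤ 9 / 2 * a ^ 2 * (ℓ * V) := by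
    have e2' : 9 / 2 * a ^ 2 * (ℓ * V) =
        (X / φ * A1 ^ 4 * Ap) * (9 / 2 * (9801 / 10000) * ((X / T) * (W / (φ * ℓ)))) := by
      rw [ha, hV]
      field_simp
      ring
    have e3' : X / φ * ((1 + 1 / 100) * A1 ^ 4 * Ap / G) =
        (X / φ * A1 ^ 4 * Ap) * (101 / 100 * (1 / G)) := by
      field_simp
      ring
    rw [e2', e3']
    have h8 : 1 / G ≤ 10000 / 2352 * (W / (φ * ℓ)) := by
      rw [← mul_div_assoc, div_le_div_iff₀ hG0 (by positivity)]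
      have h9 : (1 - 1 / 50) * (φ / W) * (24 / 100 * ℓ) = 2352 / 10000 * (φ * ℓ) / W := by
        field_simp
        ring
      rw [h9, div_le_iff₀ hW] at hG
      linarith
    have h10 : 0 < W / (φ * ℓ) := by positivity
    have h11 : 101 / 100 * (1 / G) ≤ 9 / 2 * (9801 / 10000) * ((X / T) * (W / (φ * ℓ))) := by
      calc 101 / 100 * (1 / G) ≤ 101 / 100 * (10000 / 2352 * (W / (φ * ℓ))) := by gcongr
        _ ≤ 9 / 2 * (9801 / 10000) * ((99 / 100) * (W / (φ * ℓ))) := by linarith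
        _ ≤ 9 / 2 * (9801 / 10000) * ((X / T) * (W / (φ * ℓ))) := by gcongr
    exact mul_le_mul_of_nonneg_left h11 (by positivity)
  have hq0 : 0 ≤ 2 / t - 1 / t ^ 2 := by
    have : 2 / t - 1 / t ^ 2 = (2 * t - 1) / t ^ 2 := by field_simp
    rw [this]
    exact div_nonneg (by linarith) (by positivity)
  have hq1 : 2 / t - 1 / t ^ 2 ≤ 1 := by
    have : 2 / t - 1 / t ^ 2 = 1 - (1 - 1 / t) ^ 2 := by field_simp; ring
    rw [this]
    linarith [sq_nonneg (1 - 1 / t)]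
  have hr1 : 1 / t ^ 2 ≤ 1 := by
    rw [div_le_one (by positivity)]
    exact one_le_pow₀ ht1
  have hr0 : 0 ≤ 1 / t ^ 2 := by positivity
  -- the primes
  have k2 : (2 / t - 1 / t ^ 2) * (5 * u * V) - 5 * K * e2 ≤ (2 / t - 1 / t ^ 2) * (S2 / ℓ) := by
    have h12 : 5 * u * V - 5 * K * e2 ≤ S2 / ℓ := by
      rw [le_div_iff₀ hℓ0]
      rw [ha1] at h2
      refine le_trans ?_ h2
      rw [huK, hk]
      have : 0 ≤ K * e2 * (ℓ - 1) := mul_nonneg (by positivity) (by linarith)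
      linarith
    have h13 : (2 / t - 1 / t ^ 2) * (5 * K * e2) ≤ 1 * (5 * K * e2) :=
      mul_le_mul_of_nonneg_right hq1 (by positivity)
    have h14 := mul_le_mul_of_nonneg_left h12 hq0
    rw [mul_sub] at h14
    linarith
  have k3 : 1 / t ^ 2 * (S3 / ℓ) ≤ 1 / t ^ 2 * (45 / 2 * u ^ 2 * V) + 5 * K ^ 2 * e3 := by
    have h12 : S3 / ℓ ≤ 45 / 2 * u ^ 2 * V + 5 * K ^ 2 * e3 := by
      rw [div_le_iff₀ hℓ0]
      refine h3.trans ?_
      have h15 : 0 ≤ 9 / 2 * a ^ 2 * (ℓ * V) + e3 := by positivity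
      calc k * (K - 1) * (X / φ * ((1 + 1 / 100) * A1 ^ 4 * Ap / G) + e3)
          ≤ k * (K - 1) * (9 / 2 * a ^ 2 * (ℓ * V) + e3) := by
            have : 0 ≤ k * (K - 1) := mul_nonneg hk0.le (by linarith)
            gcongr
        _ ≤ k * K * (9 / 2 * a ^ 2 * (ℓ * V) + e3) := by
            have : k * (K - 1) ≤ k * K := by linarith
            gcongr
        _ = 45 / 2 * u ^ 2 * V * ℓ + 5 * K ^ 2 * e3 := by
            rw [hk, huK]
            ring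
        _ ≤ (45 / 2 * u ^ 2 * V + 5 * K ^ 2 * e3) * ℓ := by
            have : 0 ≤ 5 * K ^ 2 * e3 * (ℓ - 1) := mul_nonneg (by positivity) (by linarith)
            linarith
    have h13 : 1 / t ^ 2 * (5 * K ^ 2 * e3) ≤ 1 * (5 * K ^ 2 * e3) :=
      mul_le_mul_of_nonneg_right hr1 (by positivity)
    have h14 := mul_le_mul_of_nonneg_left h12 hr0
    rw [mul_add] at h14
    linarith
  have k1 : S1 ≤ V + e1 := h1
  have k1f : 1 / 2000 * S1f ≤ 1 / 100 * V + 1 / 2000 * e1 := by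
    have h16 : x / W * (Ap * A2 ^ 2) ≤ 20 * V := by
      rw [hV]
      calc x / W * (Ap * A2 ^ 2) ≤ (20 * T) / W * (Ap * A2 ^ 2) := by gcongr
        _ = 20 * (T / W * (Ap * A2 ^ 2)) := by ring
    linarith
  have kU : 10 * (SU / ℓ) ≤ 1 / 125 * V + 10 * u0 * e2 := by
    have h17 : SU / ℓ ≤ u0 * (X / φ * (8 * (Ap * A2 ^ 2))) / ℓ + u0 * e2 := by
      rw [div_add' _ _ _ hℓ0.ne', div_le_div_iff_of_pos_right hℓ0]
      refine hU.trans ?_
      have : 0 ≤ u0 * e2 * (ℓ - 1) := mul_nonneg (by positivity) (by linarith)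
      linarith
    have h18 : X / φ ≤ 40 * T * (L / (c * W)) := by
      have h19 : 1 / φ ≤ L / (c * W) := by
        rw [div_le_div_iff₀ hφ (by positivity)]
        linarith
      calc X / φ = X * (1 / φ) := by ring
        _ ≤ (40 * T) * (L / (c * W)) := by
            have : X ≤ 40 * T := by linarith
            gcongr
    have h20 : u0 * (X / φ * (8 * (Ap * A2 ^ 2))) / ℓ ≤ 1 / 1250 * V := by
      calc u0 * (X / φ * (8 * (Ap * A2 ^ 2))) / ℓ
          ≤ u0 * (40 * T * (L / (c * W)) * (8 * (Ap * A2 ^ 2))) / ℓ := by gcongr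
        _ = 320 * (u0 * L / (c * ℓ)) * V := by
            rw [hV]
            field_simp
            ring
        _ ≤ 320 * (1 / 400000) * V := by
            have : u0 * L / (c * ℓ) ≤ 1 / 400000 := by
              rw [div_le_div_iff₀ (by positivity) (by norm_num)]
              linarith
            gcongr
        _ = 1 / 1250 * V := by ring
    linarith
  -- the main inequality
  have km : 200 / 181 * V ≤ (2 / t - 1 / t ^ 2) * (5 * u * V) - 1 / t ^ 2 * (45 / 2 * u ^ 2 * V) := by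
    have h21 : (2 / t - 1 / t ^ 2) * (5 * u * V) - 1 / t ^ 2 * (45 / 2 * u ^ 2 * V) = 5 * u / t * V := by
      have h22 : (2 / t - 1 / t ^ 2) * (5 * u * V) - 1 / t ^ 2 * (45 / 2 * u ^ 2 * V) =
          5 * u * V * (2 * t - 1 - 9 / 2 * u) / t ^ 2 := by
        field_simp
        ring
      rw [h22]
      have h23 : 2 * t - 1 - 9 / 2 * u = t := by rw [ht]; ring
      rw [h23]
      field_simp
    rw [h21]
    have h24 : 200 / 181 ≤ 5 * u / t := by
      rw [div_le_div_iff₀ (by norm_num) ht0, ht]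
      linarith
    gcongr
  have hVx : x / (20 * W) ≤ V := by
    rw [hV]
    have h25 : 1 ≤ Ap * A2 ^ 2 := one_le_mul_of_one_le_of_one_le hAp (one_le_pow₀ hA21)
    calc x / (20 * W) = (x / 20) / W := by field_simp
      _ ≤ T / W := by
          have : x / 20 ≤ T := by linarith
          gcongr
      _ = T / W * 1 := by ring
      _ ≤ T / W * (Ap * A2 ^ 2) := by gcongr
  have hxW : x / (20 * W) = 500 * (x / (10000 * W)) := by field_simp; ring
  have hxW0 : 0 < x / (10000 * W) := by positivity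
  have hKe2 : 0 ≤ K * e2 := by positivity
  have hKe3 : 0 ≤ K ^ 2 * e3 := by positivity
  rw [hxW] at hVx
  linarith

end Pool.Agent.H74.QT
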