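import Mathlib

/-!
Elementary facts for the assembly.
-/

set_option autoImplicit false

open Finset

namespace Pool.Agent.H74.QT

open Classical in
theorem count2 (S G : Finset ℕ) (F br : ℕ → ℝ) (bad : ℕ → Prop) (C M : ℝ) (hC : 0 ≤ C) (hM : 0 ≤ M)
    (hF : ∀ ν ∈ S, 0 ≤ F ν) (hbr : ∀ ν ∈ S, br ν ≤ C) (hFM : ∀ ν ∈ S, ¬ bad ν → F ν ≤ M)
    (hG : ∀ ν ∈ S, 0 < br ν → ¬ bad ν → ν ∈ G) :
    ∑ ν ∈ S, br ν * F ν ≤ C * (#G * M + ∑ ν ∈ S.filter (fun ν => bad ν), F ν) := by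
  have h1 : ∑ ν ∈ S, br ν * F ν ≤ ∑ ν ∈ S, C * ((if ν ∈ G then M else 0) + (if bad ν then F ν else 0)) := by
    apply Finset.sum_le_sum
    intro ν hν
    have hF0 := hF ν hν
    have hb := hbr ν hν
    by_cases hpos : 0 < br ν
    · by_cases hbad : bad ν
      · rw [if_pos hbad]
        have h2 : (0 : ℝ) ≤ (if ν ∈ G then M else 0) := by split_ifs <;> [exact hM; exact le_rfl]
        calc br ν * F ν ≤ C * F ν := mul_le_mul_of_nonneg_right hb hF0
          _ ≤ _ := mul_le_mul_of_nonneg_left (by linarith) hC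
      · rw [if_neg hbad, if_pos (hG ν hν hpos hbad), add_zero]
        exact mul_le_mul hb (hFM ν hν hbad) hF0 hC
    · have h3 : br ν * F ν ≤ 0 := mul_nonpos_of_nonpos_of_nonneg (not_lt.mp hpos) hF0
      refine h3.trans ?_
      apply mul_nonneg hC
      apply add_nonneg
      · split_ifs <;> [exact hM; exact le_rfl]
      · split_ifs <;> [exact hF0; exact le_rfl]
  refine h1.trans ?_
  rw [← Finset.mul_sum]
  apply mul_le_mul_of_nonneg_left _ hC
  rw [Finset.sum_add_distrib]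
  apply add_le_add
  · rw [← Finset.sum_filter, Finset.sum_const, nsmul_eq_mul]
    apply mul_le_mul_of_nonneg_right _ hM
    have h2 : S.filter (fun ν => ν ∈ G) ⊆ G := fun ν hν => (Finset.mem_filter.mp hν).2
    exact_mod_cast Finset.card_le_card h2
  · rw [Finset.sum_filter]

/-- final numerical inequality -/
theorem final_num {V x W a2 c ℓ L ρ kn Bd N k' : ℝ} {k : ℕ} (hx : 0 < x) (hW : 0 < W) (hc : 0 < c)
    (hL : 0 < L) (hℓ : 0 < ℓ) (hkn : 0 < kn) (hBd : 0 < Bd) (hk' : 0 < k')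
    (hρ : ρ = c ^ 2 / kn * ℓ) (hV : x / W * a2 ^ k ≤ 20 * V) (ha2 : c / 4 * ρ / L ≤ a2)
    (hN : 5 / 100 * V ≤ 2 * k' * (N * (Bd * (ℓ / (c * L)) ^ (2 * k)))) :
    (c ^ 3 / (4 * kn)) ^ k * c ^ (2 * k) / (800 * k' * Bd) * (x / W) * (L / ℓ) ^ k ≤ N := by
  have e0 : c / 4 * ρ / L = c ^ 3 / (4 * kn) * (ℓ / L) := by
    rw [hρ]; field_simp
  rw [e0] at ha2
  have hq : 0 < ℓ / L := by positivity
  have h1 : (c ^ 3 / (4 * kn)) ^ k * (ℓ / L) ^ k ≤ a2 ^ k := by
    rw [← mul_pow]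
    exact pow_le_pow_left₀ (by positivity) ha2 k
  have h2 : x / W * ((c ^ 3 / (4 * kn)) ^ k * (ℓ / L) ^ k) ≤ 20 * V :=
    (mul_le_mul_of_nonneg_left h1 (by positivity)).trans hV
  have e1 : (ℓ / (c * L)) ^ (2 * k) = (ℓ / L) ^ k * (ℓ / L) ^ k / c ^ (2 * k) := by
    have : ℓ / (c * L) = (ℓ / L) / c := by field_simp
    rw [this, div_pow, two_mul, pow_add]
  have e2 : (L / ℓ) ^ k = 1 / (ℓ / L) ^ k := by
    rw [← one_div_pow]; congr 1; field_simp
  rw [e1] at hN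
  rw [e2]
  set q := (ℓ / L) ^ k with hq'
  have hqp : 0 < q := by positivity
  set D := (c ^ 3 / (4 * kn)) ^ k with hD
  have hDp : 0 < D := by positivity
  set cc := c ^ (2 * k) with hcc
  have hccp : 0 < cc := by positivity
  have h3 : x / W * (D * q) ≤ 800 * k' * (N * (Bd * (q * q / cc))) := by linarith
  have e3 : D * cc / (800 * k' * Bd) * (x / W) * (1 / q) =
      (x / W * (D * q)) * (cc / (800 * k' * Bd * (q * q))) := by
    field_simp
  have e4 : 800 * k' * (N * (Bd * (q * q / cc))) * (cc / (800 * k' * Bd * (q * q))) = N := by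
    field_simp
  rw [e3]
  calc _ ≤ 800 * k' * (N * (Bd * (q * q / cc))) * (cc / (800 * k' * Bd * (q * q))) :=
        mul_le_mul_of_nonneg_right h3 (by positivity)
    _ = N := e4

end Pool.Agent.H74.QT
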