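import Pool.Agent.H74.QT.Defs

/-!
JOB QT-9 (about 90 lines). Covering all the integers `< t` outside a FIXED admissible set.

PROOF. Let `U = {u < t | u ∉ T}`. For a prime `p` let `i p = Nat.count Nat.Prime p` (its index: `Nat.nth Nat.Prime (i p) = p`,
`Nat.nth_count`; `Nat.count` is injective on primes). Put `a p = (i p - t) / 2` if `t ≤ i p` and `(i p - t)/2 ∈ U`, and
`a p = r p` (from the admissibility) otherwise.
* If `p` is prime with `a p = u ∈ U` by the first case, then `t ≤ i p < p` (`Nat.count_le`, or `Nat.count_lt`; at any rate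
  `Nat.count Nat.Prime p ≤ p` and `p ≥ 2`, `Nat.count Nat.Prime p < p` because `0` is not a prime), so `u, τ < t < p`, `u ≠ τ` for `τ ∈ T`, and
  `u % p = u ≠ τ = τ % p`.
* Every `u ∈ U` is covered by the two distinct primes `p₁ = Nat.nth Nat.Prime (t + 2 u)`, `p₂ = Nat.nth Nat.Prime (t + 2 u + 1)`
  (`Nat.count_nth_of_infinite`, `Nat.infinite_setOf_prime`): `a p₁ = a p₂ = u`; both are `≤ z` for large `z`
  (`z ≥ ∑` or `z ≥ Nat.nth Nat.Prime (3 t + 2)`, `Nat.nth_monotone`/`Nat.nth_strictMono`), and one of them is different from `e`. So `u ∉ uncovT T z e t a`.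
-/

set_option autoImplicit false

open Finset Filter Topology

namespace Pool.Agent.H74.QT

open Pool.Agent.H16

theorem cover_fix (T : Finset ℕ) (hadm : ∀ p, p.Prime → ∃ r, ∀ τ ∈ T, r % p ≠ τ % p) (t : ℕ)
    (ht : ∀ τ ∈ T, τ < t) : ∀ᶠ z : ℕ in atTop, ∀ e : ℕ, ∃ a : ℕ → ℕ,
    (∀ p, p.Prime → p ≤ z → ∀ τ ∈ T, a p % p ≠ τ % p) ∧ uncovT T z e t a = ∅ := by
  classical
  choose! r hr using hadm
  set idx : ℕ → ℕ := fun p => Nat.count Nat.Prime p with hidx
  set a : ℕ → ℕ := fun p => if t ≤ idx p ∧ (idx p - t) / 2 < t ∧ (idx p - t) / 2 ∉ T then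
    (idx p - t) / 2 else r p with ha
  have hidxlt : ∀ p : ℕ, p.Prime → idx p < p := by
    intro p hp
    simp only [hidx, Nat.count_eq_card_filter_range]
    have h1 : {x ∈ Finset.range p | Nat.Prime x} ⊂ Finset.range p := by
      rw [Finset.ssubset_iff_of_subset (Finset.filter_subset _ _)]
      refine ⟨0, Finset.mem_range.2 hp.pos, ?_⟩
      rw [Finset.mem_filter, not_and]
      intro _
      exact Nat.not_prime_zero
    have h2 := Finset.card_lt_card h1
    rwa [Finset.card_range] at h2
  rw [eventually_atTop]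
  refine ⟨Nat.nth Nat.Prime (3 * t + 2), fun z hz e => ⟨a, ?_, ?_⟩⟩
  · intro p hp _ τ hτ
    by_cases hcase : t ≤ idx p ∧ (idx p - t) / 2 < t ∧ (idx p - t) / 2 ∉ T
    · simp only [ha, if_pos hcase]
      have h1 := hidxlt p hp
      obtain ⟨hc1, hc2, hc3⟩ := hcase
      have h2 : (idx p - t) / 2 < p := by omega
      have h3 : τ < p := by
        have := ht τ hτ
        omega
      rw [Nat.mod_eq_of_lt h2, Nat.mod_eq_of_lt h3]
      intro h4
      exact hc3 (h4 ▸ hτ)
    · simp only [ha, if_neg hcase]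
      exact hr p hp τ hτ
  · unfold uncovT
    rw [Finset.filter_eq_empty_iff]
    intro i hi hcon
    rw [Finset.mem_range] at hi
    obtain ⟨hiT, hcov⟩ := hcon
    have key : ∀ s : ℕ, s < 2 → Nat.nth Nat.Prime (t + 2 * i + s) = e := by
      intro s hs
      by_contra hne
      have hp : (Nat.nth Nat.Prime (t + 2 * i + s)).Prime := Nat.prime_nth_prime _
      have hle : Nat.nth Nat.Prime (t + 2 * i + s) ≤ z := by
        refine le_trans ?_ hz
        apply (Nat.nth_strictMono Nat.infinite_setOfPred_prime).monotone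
        omega
      have h1 := hcov _ hp hle hne
      apply h1
      have h2 : idx (Nat.nth Nat.Prime (t + 2 * i + s)) = t + 2 * i + s := by
        simp only [hidx]
        exact Nat.count_nth_of_infinite Nat.infinite_setOfPred_prime _
      have h3 : (t + 2 * i + s - t) / 2 = i := by omega
      have h4 : a (Nat.nth Nat.Prime (t + 2 * i + s)) = i := by
        simp only [ha, h2, h3]
        rw [if_pos ⟨by omega, hi, hiT⟩]
      rw [h4]
    have h0 := key 0 (by norm_num)
    have h1 := key 1 (by norm_num)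
    have h2 : Nat.nth Nat.Prime (t + 2 * i + 0) < Nat.nth Nat.Prime (t + 2 * i + 1) :=
      (Nat.nth_strictMono Nat.infinite_setOfPred_prime)
        (show t + 2 * i + 0 < t + 2 * i + 1 by omega)
    rw [h0, h1] at h2
    exact lt_irrefl _ h2

end Pool.Agent.H74.QT
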