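import Pool.Agent.H21.QG.Good
import Pool.Agent.H2.NC.Defs

/-!
# Project QT (MP_a1f59e_nt): long progressions of prime pairs for one seventh of the even differences

THEOREM. Let `G` be the set of all `t` such that for every `l` there is `C` such that for infinitely many `a` there is
`1 ≤ b ≤ (log a)^C` with `a + j b`, `a + j b + t` consecutive primes for all `j < l`. Then `G` contains at least one
seventh of the even integers (lower density), a quarter with the Hardy-Littlewood weight, etc.

PROOF (outline). `w = w1 ℓ = ⌊log ℓ⌋`, `W = WW w e = W1 ℓ e` (product of the primes `≤ w` different from a possible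
exceptional prime `e`), `x = exp ℓ`.
* Part A (`GoodSet`): the five-cluster theorem of H21/QG for a FIXED admissible union `H` of five clusters with `K`
  elements each, with Pintz's condition: there are `η₀, α > 0` (depending on `K` only) such that at least
  `α (x/W) (log w / ℓ)^(5K)` of the integers `ν ≤ x` in one residue class `A0` modulo `W` are such that `ν + H` contains
  primes of two different clusters, `ν + u` is not prime for `u ∉ H`, `u ≤ max H`, and all the prime factors of `ν + τ`,
  `τ ∈ H`, are `> exp (η₀ ℓ)` or equal to `e ≤ w`.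
* Part B: the product over `H` of the majorants `nu1` of H2/NC has the right correlations (`corr1` of H2/NC), and it is
  `≥ c (ℓ/log w)^(5K)` at the integers of part A.
* Part C (`RelFin`): relative theorem of H16/GPS (`rel_main`, `dense_prop`): a subset of positive relative density of the
  integers of part A contains progressions of length `κ` with difference at most `W ℓ^C`.
* Part D (`Ap5`): pigeonhole principle: for every admissible union of five clusters some difference of two elements
  of different clusters is in `G`.
* Part E (H21/QG3): combinatorics of H21/QG2.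
-/

set_option autoImplicit false

open Finset Filter

namespace Pool.Agent.H74.QT

open Pool.Agent.H16
open Pool.Agent.H2.NC (w1 W1 P1 nu1)
open Pool.Agent.H21.QG (R1 RQ rQ YQ LQ TM)

/-- `n` and `n + t` are consecutive primes -/
def Consec (n t : ℕ) : Prop := 0 < t ∧ n.Prime ∧ (n + t).Prime ∧ ∀ m, n < m → m < n + t → ¬ m.Prime

/-- for every `l` there is `C` such that for infinitely many `a` there is `1 ≤ b ≤ (log a)^C` such that
`a + j b`, `a + j b + t` are consecutive primes for all `j < l` -/
def Good (t : ℕ) : Prop := ∀ l : ℕ, ∃ C : ℕ, ∀ N : ℕ, ∃ a b : ℕ, N ≤ a ∧ 1 ≤ b ∧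
  (b : ℝ) ≤ (Real.log a) ^ C ∧ ∀ j < l, Consec (a + j * b) t

/-- the sieving primes -/
noncomputable def PT (e : ℕ) (ℓ : ℝ) : Finset ℕ := PE (w1 ℓ) ⌈R1 ℓ⌉₊ {e}

/-- the probabilities conditioned on `p0 ∣ ν + h j0` -/
noncomputable def qb {k : ℕ} (p0 : ℕ) (j0 : Fin k) (p : ℕ) (j : Fin k) : ℝ :=
  if p = p0 then (if j = j0 then 1 else 0) else 1 / (p : ℝ)

/-- sum of `1/D` over the squarefree `D` composed of primes of `P`, `Y/q < D ≤ Y` -/
noncomputable def shortS (P : Finset ℕ) (q Y : ℝ) : ℝ :=
  ∑ D ∈ P.powerset, (if Y / q < ((∏ p ∈ D, p : ℕ) : ℝ) ∧ ((∏ p ∈ D, p : ℕ) : ℝ) ≤ Y then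
    1 / ((∏ p ∈ D, p : ℕ) : ℝ) else 0)

end Pool.Agent.H74.QT
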