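import Pool.Agent.H74.QT.ApX

/-!
One seventh of the even differences: the main theorems.
-/

set_option autoImplicit false

open Finset Filter Topology

namespace Pool.Agent.H74.QT

open Classical in
/-- the number of `a ≤ x` such that for some `1 ≤ b ≤ (log x) ^ C` the numbers `a + j b`, `a + j b + t` are consecutive
primes for all `j < l` -/
noncomputable def starts (l C t : ℕ) (x : ℝ) : ℕ :=
  #((Icc 1 ⌊x⌋₊).filter (fun a => ∃ b : ℕ, 1 ≤ b ∧ (b : ℝ) ≤ (Real.log x) ^ C ∧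
    ∀ j < l, Consec (a + j * b) t))

theorem starts_anti {l l' C t : ℕ} (hl : l' ≤ l) (x : ℝ) : starts l C t x ≤ starts l' C t x := by
  classical
  unfold starts
  apply Finset.card_le_card
  intro a ha
  rw [Finset.mem_filter] at ha ⊢
  obtain ⟨h1, b, h2, h3, h4⟩ := ha
  exact ⟨h1, b, h2, h3, fun j hj => h4 j (hj.trans_le hl)⟩

theorem goodX_starts {l C D t : ℕ} {x : ℝ} (hx : 0 < x) :
    GoodX l C D (Real.log x) t ↔ x / (Real.log x) ^ D ≤ starts l C t x := by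
  unfold GoodX starts
  rw [Real.exp_log hx]

theorem not_starts_zero {l C D : ℕ} (hl : 1 ≤ l) {x : ℝ} (hx : 1 < x) :
    ¬ x / (Real.log x) ^ D ≤ starts l C 0 x := by
  rw [← goodX_starts (by linarith)]
  exact not_goodX_zero hl (Real.log_pos hx)

open Classical in
/-- the abstract conclusion: for every length `l` there is `C`, and for every bound `B` and all large `x` the
combinatorial theorems of `H21/QG3` apply to the set of the `t` with at least `x / (log x) ^ D` starting points -/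
theorem fc_starts : ∃ K : ℕ, ∃ D : ℕ, ∀ l : ℕ, 1 ≤ l → ∃ C : ℕ, ∀ B : ℕ, ∀ᶠ x : ℝ in atTop,
    Pool.Agent.H21.QG3.FC K B (fun t => x / (Real.log x) ^ D ≤ starts l C t x) ∧
    ¬ x / (Real.log x) ^ D ≤ starts l C 0 x := by
  obtain ⟨K, _, D, h⟩ := cluster_x
  refine ⟨K, D, fun l hl => ?_⟩
  obtain ⟨C, hC⟩ := h l
  refine ⟨C, fun B => ?_⟩
  filter_upwards [Real.tendsto_log_atTop.eventually (hC B), eventually_gt_atTop (1 : ℝ)] with x hx hx1
  refine ⟨?_, not_starts_zero hl hx1⟩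
  have h1 : (GoodX l C D (Real.log x)) = fun t => x / (Real.log x) ^ D ≤ starts l C t x := by
    funext t
    exact propext (goodX_starts (by linarith))
  rw [← h1]
  exact hx

open Classical in
/-- one seventh of the even integers, for all large `x` -/
theorem seventh_x : ∃ D M₀ : ℕ, ∀ l : ℕ, ∃ C : ℕ, ∀ M : ℕ, M₀ ≤ M → ∀ᶠ x : ℝ in atTop,
    (M : ℝ) / 14 ≤ #{t ∈ Icc 1 M | Even t ∧ x / (Real.log x) ^ D ≤ starts l C t x} := by
  obtain ⟨K, D, h⟩ := fc_starts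
  obtain ⟨M₀, hM₀⟩ := Pool.Agent.H21.QG3.seventh_abs K
  refine ⟨D, M₀, fun l => ?_⟩
  obtain ⟨C, hC⟩ := h (max l 1) (le_max_right _ _)
  refine ⟨C, fun M hM => ?_⟩
  filter_upwards [hC M] with x hx
  have h1 := hM₀ M (fun t => x / (Real.log x) ^ D ≤ starts (max l 1) C t x) hx.2 hx.1 M hM le_rfl
  refine h1.trans ?_
  have h2 : #{t ∈ Icc 1 M | Even t ∧ x / (Real.log x) ^ D ≤ starts (max l 1) C t x} ≤
      #{t ∈ Icc 1 M | Even t ∧ x / (Real.log x) ^ D ≤ starts l C t x} := by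
    apply Finset.card_le_card
    intro t ht
    rw [Finset.mem_filter] at ht ⊢
    refine ⟨ht.1, ht.2.1, ht.2.2.trans ?_⟩
    exact_mod_cast starts_anti (le_max_left l 1) x
  exact_mod_cast h2

/-- good for every length, for arbitrarily large `x` -/
def GoodInf (D t : ℕ) : Prop := ∀ l : ℕ, ∃ C : ℕ, ∀ x₀ : ℝ, ∃ x : ℝ, x₀ ≤ x ∧
  x / (Real.log x) ^ D ≤ starts l C t x

open Classical in
/-- pigeonhole principle: from a statement for all large `x` to fixed `t` -/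
theorem pigeon (D M : ℕ) (F : Finset ℕ → Prop) (hF : ∀ S S' : Finset ℕ, S ⊆ S' → S' ⊆ Icc 1 M → F S → F S')
    (h : ∀ l : ℕ, ∃ C : ℕ, ∀ᶠ x : ℝ in atTop, F {t ∈ Icc 1 M | x / (Real.log x) ^ D ≤ starts l C t x}) :
    F {t ∈ Icc 1 M | GoodInf D t} := by
  have h1 : ∀ t ∈ Icc 1 M, ¬ GoodInf D t → ∃ l : ℕ, ∀ C : ℕ, ∀ᶠ x : ℝ in atTop,
      ¬ x / (Real.log x) ^ D ≤ starts l C t x := by
    intro t _ ht
    unfold GoodInf at ht
    push Not at ht
    obtain ⟨l, hl⟩ := ht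
    refine ⟨l, fun C => ?_⟩
    obtain ⟨x₀, hx₀⟩ := hl C
    filter_upwards [eventually_ge_atTop x₀] with x hx
    exact not_le.mpr (hx₀ x hx)
  choose! lt hlt using h1
  set l := (Icc 1 M).sup lt with hl
  obtain ⟨C, hC⟩ := h l
  have h2 : ∀ᶠ x : ℝ in atTop, ∀ t ∈ Icc 1 M, ¬ GoodInf D t → ¬ x / (Real.log x) ^ D ≤ starts l C t x := by
    rw [Filter.eventually_all_finset]
    intro t ht
    by_cases hg : GoodInf D t
    · exact Filter.Eventually.of_forall (fun x h3 => absurd hg h3)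
    · filter_upwards [hlt t ht hg C] with x hx _ hcon
      apply hx
      refine hcon.trans ?_
      exact_mod_cast starts_anti (Finset.le_sup (f := lt) ht) x
  obtain ⟨x, hx1, hx2⟩ := (hC.and h2).exists
  refine hF _ _ ?_ (Finset.filter_subset _ _) hx1
  intro t ht
  rw [Finset.mem_filter] at ht ⊢
  refine ⟨ht.1, ?_⟩
  by_contra hcon
  exact hx2 t ht.1 hcon ht.2

open Classical in
/-- one seventh of the even integers have the property for every length -/
theorem seventh_inf : ∃ D M₀ : ℕ,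
    (∀ l : ℕ, ∃ C : ℕ, ∀ M : ℕ, M₀ ≤ M → ∀ᶠ x : ℝ in atTop,
      (M : ℝ) / 14 ≤ #{t ∈ Icc 1 M | Even t ∧ x / (Real.log x) ^ D ≤ starts l C t x}) ∧
    ∀ M : ℕ, M₀ ≤ M → (M : ℝ) / 14 ≤ #{t ∈ Icc 1 M | Even t ∧ GoodInf D t} := by
  obtain ⟨D, M₀, h⟩ := seventh_x
  refine ⟨D, M₀, h, fun M hM => ?_⟩
  have h1 := pigeon D M (fun S => (M : ℝ) / 14 ≤ #{t ∈ S | Even t}) (by
      intro S S' hSS _ h2
      refine h2.trans ?_
      exact_mod_cast Finset.card_le_card (Finset.filter_subset_filter _ hSS))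
    (by
      intro l
      obtain ⟨C, hC⟩ := h l
      refine ⟨C, ?_⟩
      filter_upwards [hC M hM] with x hx
      refine hx.trans (le_of_eq ?_)
      congr 2
      ext t
      simp only [Finset.mem_filter]
      tauto)
  refine h1.trans (le_of_eq ?_)
  congr 2
  ext t
  simp only [Finset.mem_filter]
  tauto

/-- a quarter of the integers, with the Hardy-Littlewood weight -/
theorem quarter_x (ε : ℝ) (hε : 0 < ε) : ∃ D L : ℕ, ∀ Q : ℕ, 0 < Q →
    (∀ p : ℕ, p.Prime → p ≤ L → p ∣ Q) → ∃ M₀ : ℕ, ∀ l : ℕ, ∃ C : ℕ, ∀ M : ℕ, M₀ ≤ M →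
    ∀ᶠ x : ℝ in atTop, (1 / 4 - ε) * ∑ t ∈ Icc 1 M, (Pool.Agent.H21.QG2.pc Q t : ℝ) ≤
      ∑ t ∈ (Icc 1 M).filter (fun t => x / (Real.log x) ^ D ≤ starts l C t x),
        (Pool.Agent.H21.QG2.pc Q t : ℝ) := by
  classical
  obtain ⟨K, D, h⟩ := fc_starts
  obtain ⟨L, hL⟩ := Pool.Agent.H21.QG3.weighted_abs K ε hε
  refine ⟨D, L, fun Q hQ hLQ => ?_⟩
  obtain ⟨M₀, hM₀⟩ := hL Q hQ hLQ
  refine ⟨M₀, fun l => ?_⟩
  obtain ⟨C, hC⟩ := h (max l 1) (le_max_right _ _)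
  refine ⟨C, fun M hM => ?_⟩
  filter_upwards [hC M] with x hx
  have h1 := hM₀ M (fun t => x / (Real.log x) ^ D ≤ starts (max l 1) C t x) hx.2 hx.1 M hM le_rfl
  refine h1.trans ?_
  apply Finset.sum_le_sum_of_subset_of_nonneg
  · intro t ht
    rw [Finset.mem_filter] at ht ⊢
    refine ⟨ht.1, ht.2.trans ?_⟩
    exact_mod_cast starts_anti (le_max_left l 1) x
  · intro t _ _
    exact Nat.cast_nonneg _

end Pool.Agent.H74.QT
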