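import Pool.Agent.H74.QT.Defs
import Pool.Agent.H16.MT8
import Pool.Agent.H16.MT10
import Pool.Agent.H16.MT14

/-!
JOB QT-8 (about 110 lines). The weight is small at almost primes.

PROOF. `Lam_abs_le` (H16/MT8.lean): `|Lam| ≤ 3 ^ r * ∏ (1 + k/p)`, `r` = number of `p ∈ P` with `ocol h P ν p ≠ none`, i.e. with
`∃ j, p ∣ ν + h j` (compare `outc_count`, H16). For every `j` the primes `p ∈ P` dividing `ν + h j` have a product dividing
`ν + h j ≤ 2 exp ℓ ≤ exp (2 ℓ)` and each is `> exp (δ ℓ)` (`hbad`), so their number `r_j` satisfies `exp (r_j δ ℓ) ≤ exp (2 ℓ)`,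
`r_j ≤ 2/δ ≤ ⌈2/δ⌉₊`; `r ≤ ∑ j r_j ≤ k ⌈2/δ⌉₊`. And
`∏ p ∈ P, (1 + k/p) ≤ ∏ (1 + 1/(p-1))^k ≤ (log (yy ℓ)/(c log z))^k ≤ (ℓ/(c log z))^k` (`prod_one_add_mul_le`, `prod_g1_le`, as in `prodk_le`,
H16/MT11.lean). Square: `9 ^ (k ⌈2/δ⌉₊) * (ℓ/(c log z))^(2k)`.
-/

set_option autoImplicit false

open Finset Filter Topology

namespace Pool.Agent.H74.QT

open Pool.Agent.H16
open Pool.Agent.H90
open Pool.Agent.H21.QG (R1 RQ rQ YQ LQ TM)

private lemma lambd_card (Q : Finset ℕ) (m : ℕ) (hm : 0 < m) {ℓ δ : ℝ} (hℓ : 0 < ℓ) (hδ : 0 < δ)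
    (hmℓ : (m : ℝ) ≤ Real.exp (2 * ℓ))
    (hQ : ∀ p ∈ Q, p.Prime ∧ p ∣ m ∧ Real.exp (δ * ℓ) < p) : #Q ≤ ⌈2 / δ⌉₊ := by
  have h2 : ∏ p ∈ Q, p ∣ m := Finset.prod_primes_dvd m (fun p hp => (hQ p hp).1.prime)
    (fun p hp => (hQ p hp).2.1)
  have h3 : ((∏ p ∈ Q, p : ℕ) : ℝ) ≤ m := by exact_mod_cast Nat.le_of_dvd hm h2
  have h4 : Real.exp (δ * ℓ) ^ #Q ≤ ((∏ p ∈ Q, p : ℕ) : ℝ) := by
    push_cast
    rw [← Finset.prod_const]
    exact Finset.prod_le_prod (fun p _ => (Real.exp_pos _).le) (fun p hp => (hQ p hp).2.2.le)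
  have h5 : Real.exp (δ * ℓ) ^ #Q ≤ Real.exp (2 * ℓ) := h4.trans (h3.trans hmℓ)
  rw [← Real.exp_nat_mul, Real.exp_le_exp] at h5
  have h6 : (#Q : ℝ) * δ ≤ 2 := by
    have h7 : ((#Q : ℝ) * δ) * ℓ ≤ 2 * ℓ := by linarith
    exact le_of_mul_le_mul_right h7 hℓ
  have h8 : (#Q : ℝ) ≤ 2 / δ := by
    rw [le_div_iff₀ hδ]
    exact h6
  exact_mod_cast h8.trans (Nat.le_ceil _)

private lemma lambd_prod {c : ℝ} (hc : 0 < c) (hcV : ∀ n : ℕ, 2 ≤ n → c / Real.log n ≤ Vp n)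
    (z : ℕ) (hz2 : 2 ≤ z) (hz : 1 ≤ Real.log z) {ℓ : ℝ} (hℓ : 0 < ℓ) (hzy : z ≤ yy ℓ) (P : Finset ℕ)
    (hP : P ⊆ primesIoc z (yy ℓ)) (K : ℕ) :
    ∏ p ∈ P, (1 + (K : ℝ) / p) ≤ (ℓ / (c * Real.log z)) ^ K := by
  have hPp : ∀ p ∈ P, p.Prime := fun p hp => (mem_primesIoc.mp (hP hp)).2.2
  have hg0 : ∀ p ∈ P, 0 ≤ 1 / ((p : ℝ) - 1) := by
    intro p hp
    have : (2 : ℝ) ≤ p := by exact_mod_cast (hPp p hp).two_le
    exact div_nonneg zero_le_one (by linarith)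
  have h1 : ∏ p ∈ P, (1 + (K : ℝ) / p) ≤ ∏ p ∈ P, (1 + (K : ℝ) * (1 / ((p : ℝ) - 1))) := by
    apply Finset.prod_le_prod
    · intro p _; positivity
    · intro p hp
      have hp2 : (2 : ℝ) ≤ p := by exact_mod_cast (hPp p hp).two_le
      have : (1 : ℝ) / p ≤ 1 / ((p : ℝ) - 1) := one_div_le_one_div_of_le (by linarith) (by linarith)
      have h2 := mul_le_mul_of_nonneg_left this (Nat.cast_nonneg (α := ℝ) K)
      rw [mul_one_div] at h2
      linarith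
  refine h1.trans ((prod_one_add_mul_le P _ hg0 K).trans ?_)
  apply pow_le_pow_left₀ (Finset.prod_nonneg (fun p hp => by have := hg0 p hp; linarith))
  refine (prod_g1_le hc hcV z (yy ℓ) hz2 hzy P hP).trans ?_
  have hy1 : 0 < yy ℓ := by omega
  have hy0 : (0 : ℝ) < yy ℓ := by exact_mod_cast hy1
  have hly : Real.log (yy ℓ) ≤ ℓ := by
    rw [Real.log_le_iff_le_exp hy0]
    have h2 : (yy ℓ : ℝ) ≤ Real.exp (ℓ / 2) := by
      unfold yy
      exact Nat.floor_le (Real.exp_pos _).le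
    exact h2.trans (Real.exp_le_exp.mpr (by linarith))
  exact div_le_div_of_nonneg_right hly (by positivity)

theorem LQ_rough {k n : ℕ} (hn : 1 ≤ n) {ρ : ℝ} (hρ : 0 ≤ ρ) {c : ℝ} (hc : 0 < c)
    (hcV : ∀ n : ℕ, 2 ≤ n → c / Real.log n ≤ Vp n) {ℓ : ℝ} (hℓ : 1 ≤ ℓ) (z : ℕ) (hz2 : 2 ≤ z)
    (hz : 1 ≤ Real.log z) (hzy : z ≤ yy ℓ) (P : Finset ℕ) (hP : P ⊆ primesIoc z (yy ℓ))
    (h : Fin k → ℕ) (hh : ∀ j, (h j : ℝ) ≤ Real.exp ℓ) (ν : ℕ) (hν0 : 0 < ν)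
    (hν : (ν : ℝ) ≤ Real.exp ℓ) (δ : ℝ) (hδ : 0 < δ)
    (hbad : ∀ j, ∀ p ∈ P, p ∣ ν + h j → Real.exp (δ * ℓ) < p) :
    LQ h P n ρ ℓ ν ≤ 9 ^ (k * ⌈2 / δ⌉₊) * (ℓ / (c * Real.log z)) ^ (2 * k) := by
  classical
  have hPp : ∀ p ∈ P, p.Prime := fun p hp => (mem_primesIoc.mp (hP hp)).2.2
  have h1 := Lam_abs_le P hPp (gst n ρ) (gst_GOK hPp hn hρ) (RQ ℓ) (ocol h P ν)
  set r := #{p : {p // p ∈ P} | ocol h P ν p ≠ none} with hr
  have hrle : r ≤ k * ⌈2 / δ⌉₊ := by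
    have h2 : (Finset.univ.filter (fun p : {p // p ∈ P} => ocol h P ν p ≠ none)).image
        Subtype.val ⊆ (Finset.univ : Finset (Fin k)).biUnion
          (fun j => P.filter (fun p => p ∣ ν + h j)) := by
      intro p hp
      rw [Finset.mem_image] at hp
      obtain ⟨q, hq, rfl⟩ := hp
      rw [Finset.mem_filter] at hq
      rw [Finset.mem_biUnion]
      unfold ocol outc at hq
      by_cases hx : ∃ j, (q : ℕ) ∣ ν + h j
      · obtain ⟨j, hj⟩ := hx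
        exact ⟨j, Finset.mem_univ _, Finset.mem_filter.mpr ⟨q.2, hj⟩⟩
      · rw [dif_neg hx] at hq
        exact absurd rfl hq.2
    have h3 : r ≤ ∑ j : Fin k, #(P.filter (fun p => p ∣ ν + h j)) := by
      rw [hr, ← Finset.card_image_of_injective _
        (Subtype.val_injective : Function.Injective (Subtype.val : {p // p ∈ P} → ℕ))]
      exact (Finset.card_le_card h2).trans Finset.card_biUnion_le
    refine h3.trans ?_
    calc ∑ j : Fin k, #(P.filter (fun p => p ∣ ν + h j)) ≤ ∑ _j : Fin k, ⌈2 / δ⌉₊ := by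
          apply Finset.sum_le_sum
          intro j _
          apply lambd_card _ (ν + h j) (by omega) (by linarith : (0 : ℝ) < ℓ) hδ
          · push_cast
            have e1 : (ν : ℝ) + h j ≤ 2 * Real.exp ℓ := by
              have := hh j
              linarith
            have e2 : (2 : ℝ) ≤ Real.exp ℓ := by
              have := Real.add_one_le_exp ℓ
              linarith
            have e3 : Real.exp (2 * ℓ) = Real.exp ℓ * Real.exp ℓ := by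
              rw [← Real.exp_add]; congr 1; ring
            rw [e3]
            refine e1.trans ?_
            exact mul_le_mul_of_nonneg_right e2 (Real.exp_pos _).le
          · intro p hp
            rw [Finset.mem_filter] at hp
            exact ⟨hPp p hp.1, hp.2, hbad j p hp.1 hp.2⟩
      _ = k * ⌈2 / δ⌉₊ := by simp
  have h4 := lambd_prod hc hcV z hz2 hz (by linarith : (0 : ℝ) < ℓ) hzy P hP k
  have hB0 : 0 ≤ ∏ p ∈ P, (1 + (k : ℝ) / p) := Finset.prod_nonneg (fun p _ => by positivity)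
  have h5 : |MT.Lam (gst n ρ) (RQ ℓ) (ocol h P ν)| ≤
      3 ^ (k * ⌈2 / δ⌉₊) * (ℓ / (c * Real.log z)) ^ k := by
    refine h1.trans ?_
    apply mul_le_mul _ h4 hB0 (by positivity)
    exact pow_le_pow_right₀ (by norm_num) hrle
  unfold LQ
  rw [← sq_abs]
  refine (pow_le_pow_left₀ (abs_nonneg _) h5 2).trans (le_of_eq ?_)
  rw [mul_pow, ← pow_mul, ← pow_mul, mul_comm k 2, mul_comm (k * ⌈2 / δ⌉₊) 2, pow_mul (3 : ℝ) 2]
  norm_num

end Pool.Agent.H74.QT
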