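import Pool.Agent.H74.QT.BadTot
import Pool.Agent.H74.QT.LamBd
import Pool.Agent.H74.QT.Cover
import Pool.Agent.H74.QT.Core2
import Pool.Agent.H74.QT.Count2

/-!
The five-cluster theorem with Pintz's condition, for a fixed set of clusters (adapted from `H21/QG/Good.lean`).
-/

set_option autoImplicit false

open Finset Filter Topology

namespace Pool.Agent.H74.QT

open Pool.Agent.H16
open Pool.Agent.H90 (MT.Col MT.Lam MT.GOK MT.A1 MT.A2)
open Pool.Agent.H2.NC (w1 W1)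
open Pool.Agent.H21.QG

open Classical in
/-- good integers -/
noncomputable def GS (ℓ δ : ℝ) (e A0 : ℕ) (H : Fin 5 → Finset ℕ) : Finset ℕ :=
  (Ioc 0 ⌊Real.exp ℓ⌋₊).filter (fun ν => ν ≡ A0 [MOD WW (w1 ℓ) e] ∧
    Real.exp (ℓ / 3) ≤ ν ∧
    (∃ i j, i ≠ j ∧ (∃ τ ∈ H i, (ν + τ).Prime) ∧ ∃ τ ∈ H j, (ν + τ).Prime) ∧
    (∀ u ≤ (Finset.univ.biUnion H).sup id, u ∉ Finset.univ.biUnion H → ¬ (ν + u).Prime) ∧
    ∀ i, ∀ τ ∈ H i, ∀ p, p.Prime → p ∣ ν + τ → Real.exp (δ * ℓ) < p ∨ (p = e ∧ p ≤ w1 ℓ))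

/-- some `ν + h j` is large if the bracket is positive -/
theorem brQ_big {k : ℕ} {ℓ : ℝ} (hℓ : 1 ≤ ℓ) (y : ℕ) {t : ℝ} (cl : Fin k → Fin 5)
    (h : Fin k → ℕ) (U : Finset ℕ) (ν : ℕ) (hpos : 0 < brQ ℓ y t cl h U ν) : ∃ j, y < ν + h j := by
  by_contra hcon
  push Not at hcon
  have h0 : ∀ j, aw ℓ y (ν + h j) = 0 := by
    intro j
    unfold aw
    rw [if_neg]
    rintro ⟨_, h2⟩
    have := hcon j
    omega
  unfold brQ at hpos
  have e1 : ∑ j, aw ℓ y (ν + h j) / ℓ = 0 := by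
    apply Finset.sum_eq_zero
    intro j _
    rw [h0 j, zero_div]
  have e2 : ∑ j, ∑ j' ∈ Finset.univ.filter (fun j' => j' ≠ j ∧ cl j' = cl j),
      aw ℓ y (ν + h j) * (if (ν + h j').Prime ∧ y < ν + h j' then (1 : ℝ) else 0) / ℓ = 0 := by
    apply Finset.sum_eq_zero
    intro j _
    apply Finset.sum_eq_zero
    intro j' _
    rw [h0 j, zero_mul, zero_div]
  rw [e1, e2] at hpos
  have h1 : 0 ≤ tent (Real.exp ℓ / 3) ν := tent_nn (by positivity) ν
  have h2 : 0 ≤ ∑ i ∈ U, aw ℓ y (ν + i) / ℓ :=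
    Finset.sum_nonneg (fun i _ => div_nonneg (aw_nonneg _ _ _) (by linarith))
  linarith

theorem gs_nn1 (p : ℕ) : (0 : ℝ) ≤ 1 / (p : ℝ) := by positivity

theorem gs_nn2 {B E : ℝ} (hE : 0 ≤ E) : 0 ≤ B ^ 2 * E := by positivity

theorem gs_nn3 {a B E : ℝ} (hE : 0 ≤ E) : 0 ≤ (2 * a ^ 2 * B) ^ 2 * E := by positivity

theorem gs_nn4 {B ℓ B' : ℝ} (hB' : 0 ≤ B') : 0 ≤ B ^ 2 * (30 * (YQ ℓ * B')) := by
  unfold YQ; positivity

theorem gs_nn5 {X W a p G B E : ℝ} (hX : 0 ≤ X) (hW : 0 < W) (hp : 0 ≤ p) (hG : 0 < G) (hE : 0 ≤ E) :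
    0 ≤ X / W * ((1 + 1 / 100) * a ^ 4 * p / G) + (2 * a ^ 2 * B) ^ 2 * E := by positivity

theorem gs_nn6 {a : ℝ} (ha : 1 ≤ a) (m : ℕ) : 0 ≤ a ^ m * a ^ 2 := by
  have : 0 ≤ a := by linarith
  positivity

theorem good_set : ∃ K : ℕ, 0 < K ∧ ∃ δ α : ℝ, 0 < δ ∧ 0 < α ∧
    ∀ H : Fin 5 → Finset ℕ, (∀ i, #(H i) = K) → (∀ i j, i ≠ j → Disjoint (H i) (H j)) →
    (∀ p, p.Prime → ∃ r, ∀ i, ∀ τ ∈ H i, r % p ≠ τ % p) →
    ∀ᶠ ℓ : ℝ in atTop, ∃ e A0 : ℕ, A0 < WW (w1 ℓ) e ∧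
      α * (Real.exp ℓ / WW (w1 ℓ) e) * (Real.log (w1 ℓ) / ℓ) ^ (5 * K) ≤ #(GS ℓ δ e A0 H) := by
  classical
  -- constants
  obtain ⟨c0, hc0, hcV0⟩ := Vp_ge
  set c : ℝ := min c0 1 with hcdef
  have hc : 0 < c := by positivity
  have hc1 : c ≤ 1 := min_le_right _ _
  have hcV : ∀ n : ℕ, 2 ≤ n → c / Real.log n ≤ Vp n := by
    intro n hn
    refine le_trans ?_ (hcV0 n hn)
    have : 0 ≤ Real.log n := Real.log_natCast_nonneg n
    exact div_le_div_of_nonneg_right (min_le_left _ _) this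
  clear_value c
  obtain ⟨n1, hn1⟩ : ∃ n1 : ℕ, 40 * 5 * 1100 * 1280000 / c ^ 5 ≤ n1 := ⟨_, Nat.le_ceil _⟩
  obtain ⟨n, hn⟩ : ∃ n : ℕ, n = n1 + 1 := ⟨_, rfl⟩
  have hn0 : 0 < n := by omega
  have hnm : 40 * 5 * 1100 * 1280000 ≤ c ^ 5 * n := by
    rw [div_le_iff₀ (by positivity)] at hn1
    have h1 : (n1 : ℝ) * c ^ 5 ≤ n * c ^ 5 := by
      apply mul_le_mul_of_nonneg_right _ (by positivity)
      rw [hn]
      exact_mod_cast Nat.le_succ n1
    linarith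
  obtain ⟨K, hKdef⟩ : ∃ K : ℕ, K = 2 ^ n := ⟨_, rfl⟩
  have hK0 : 0 < K := by rw [hKdef]; positivity
  set k : ℕ := 5 * K with hkdef
  have hk2n : 2 ^ n ≤ k := by omega
  have hk2 : 2 ≤ k := by omega
  have hk0 : 0 < k := by omega
  have hk0' : (0 : ℝ) < k := by exact_mod_cast hk0
  have hK1 : (1 : ℝ) ≤ K := by exact_mod_cast hK0
  have hkK : (k : ℝ) = 5 * K := by rw [hkdef]; push_cast; ring
  set A : ℝ := 2 * (k : ℝ) + 12 with hA
  have hA0 : 0 ≤ A := by positivity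
  obtain ⟨L1, hL1⟩ := RP_supK (1 / 100) (by norm_num) (by norm_num) A hA0 ((k + 1) ^ 2)
  obtain ⟨L3, hL3⟩ := smallProp_exists
    ((2 * A + 4 + (((k + 1) ^ 2 : ℕ) : ℝ) ^ 2) + 1 + 4)
    ((2 * A + 4 + (((k + 1) ^ 2 : ℕ) : ℝ) ^ 2) + 1 + 3 + 12) (by positivity) (by positivity) (4 ^ 200)
  obtain ⟨δ, hδ0, hδ1, hbadT⟩ := bad_tot k n hk0 hn0 hk2n c hc hc1 hcV (1 / (2000 * k)) (by positivity)
  have hn0' : (0 : ℝ) < n := by exact_mod_cast hn0
  set kn : ℝ := 1280000 * k * n with hkn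
  have hkn0 : 0 < kn := by positivity
  set Bd : ℝ := 9 ^ (k * ⌈2 / δ⌉₊) with hBd
  have hBd0 : 0 < Bd := by positivity
  refine ⟨K, hK0, δ, (c ^ 3 / (4 * kn)) ^ k * c ^ (2 * k) / (800 * k * Bd), hδ0, by positivity,
    fun H hH hdisj hadm => ?_⟩
  -- the tuple
  set T : Finset ℕ := Finset.univ.biUnion H with hTdef
  set h : Fin k → ℕ := fun j => (H (Fin.divNat (m := 5) (n := K) j)).orderEmbOfFin (hH _)
    (Fin.modNat (m := 5) (n := K) j) with hh
  set cl : Fin k → Fin 5 := fun j => Fin.divNat (m := 5) (n := K) j with hcldef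
  have hmemH : ∀ j, h j ∈ H (cl j) := fun j => Finset.orderEmbOfFin_mem _ (hH _) _
  have hdm : ∀ j j' : Fin k, Fin.divNat (m := 5) (n := K) j = Fin.divNat (m := 5) (n := K) j' →
      Fin.modNat (m := 5) (n := K) j = Fin.modNat (m := 5) (n := K) j' → j = j' := by
    intro j j' h1 h2
    have h3 : (finProdFinEquiv (m := 5) (n := K)).symm j = (finProdFinEquiv (m := 5) (n := K)).symm j' :=
      Prod.ext h1 h2
    exact (finProdFinEquiv (m := 5) (n := K)).symm.injective h3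
  have hclh : ∀ j j', h j = h j' → cl j = cl j' := by
    intro j j' hjj
    by_contra hne
    have h1 := hmemH j
    have h2 := hmemH j'
    rw [hjj] at h1
    exact (Finset.disjoint_left.mp (hdisj _ _ hne)) h1 h2
  have horder : ∀ (i i' : Fin 5) (s s' : Fin K), i = i' →
      (H i).orderEmbOfFin (hH i) s = (H i').orderEmbOfFin (hH i') s' → s = s' := by
    rintro i _ s s' rfl h1
    exact ((H i).orderEmbOfFin (hH i)).injective h1
  have hinj : Function.Injective h := by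
    intro j j' hjj
    exact hdm j j' (hclh j j' hjj) (horder _ _ _ _ (hclh j j' hjj) hjj)
  have hmemT : ∀ j, h j ∈ T := fun j => Finset.mem_biUnion.mpr ⟨_, Finset.mem_univ _, hmemH j⟩
  have hTiff : ∀ i, i ∈ T ↔ ∃ j, h j = i := by
    intro i
    constructor
    · intro hi
      rw [hTdef, Finset.mem_biUnion] at hi
      obtain ⟨i0, _, hi0⟩ := hi
      have h2 : i ∈ Set.range ((H i0).orderEmbOfFin (hH i0)) := by
        rw [Finset.range_orderEmbOfFin]; exact hi0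
      obtain ⟨s, hs⟩ := h2
      refine ⟨finProdFinEquiv (i0, s), ?_⟩
      have h3 : (finProdFinEquiv (m := 5) (n := K)).symm (finProdFinEquiv (i0, s)) = (i0, s) :=
        Equiv.symm_apply_apply _ _
      have h4 : Fin.divNat (m := 5) (n := K) (finProdFinEquiv (i0, s)) = i0 := congrArg Prod.fst h3
      have h5 : Fin.modNat (m := 5) (n := K) (finProdFinEquiv (i0, s)) = s := congrArg Prod.snd h3
      rw [← hs, hh]
      have h6 : ∀ (i i' : Fin 5) (s s' : Fin K), i = i' → s = s' →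
        (H i).orderEmbOfFin (hH i) s = (H i').orderEmbOfFin (hH i') s' := by
        rintro i _ s _ rfl rfl; rfl
      exact h6 _ _ _ _ h4 h5
    · rintro ⟨j, rfl⟩; exact hmemT j
  have hcl : ∀ i, #(Finset.univ.filter (fun j => cl j = i)) ≤ K := by
    intro i
    have h1 : #(Finset.univ.filter (fun j => cl j = i)) ≤ #(Finset.univ : Finset (Fin K)) := by
      apply Finset.card_le_card_of_injOn (fun j => Fin.modNat (m := 5) (n := K) j)
        (fun _ _ => Finset.mem_coe.mpr (Finset.mem_univ _))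
      intro j hj j' hj' hjj
      rw [Finset.mem_coe, Finset.mem_filter] at hj hj'
      exact hdm j j' (hj.2.trans hj'.2.symm) hjj
    rwa [Finset.card_univ, Fintype.card_fin] at h1
  have hadmT : ∀ p, p.Prime → ∃ r, ∀ τ ∈ T, r % p ≠ τ % p := by
    intro p hp
    obtain ⟨r, hr⟩ := hadm p hp
    refine ⟨r, fun τ hτ => ?_⟩
    rw [hTdef, Finset.mem_biUnion] at hτ
    obtain ⟨i, _, hi⟩ := hτ
    exact hr i τ hi
  set t : ℕ := T.sup id + 1 with ht
  have htT : ∀ τ ∈ T, τ < t := by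
    intro τ hτ
    have : τ ≤ T.sup id := Finset.le_sup (f := id) hτ
    omega
  have hhj : ∀ j, h j < t := fun j => htT _ (hmemT j)
  have tw1 : Tendsto (fun ℓ : ℝ => w1 ℓ) atTop atTop := by
    unfold w1
    exact tendsto_nat_floor_atTop.comp Real.tendsto_log_atTop
  -- large `ℓ`
  filter_upwards [eventually_ge_atTop L1, eventually_ge_atTop L3,
    tw1.eventually (cover_fix T hadmT t htT), tw1.eventually (eventually_ge_atTop t),
    ev_MW k n hk0 hn0 c hc, ev_WW (1 / 10) (by norm_num), hbadT h hinj,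
    ev_errQ k c hc, XT_ge, eventually_ge_atTop (10 ^ 9 * (K : ℝ) ^ 2 * (t + 1))]
    with ℓ l1 l3 hcov htw F hW10 hbad herr hXge hℓK
  have zy2 := F.zy
  have hℓ0 := F.ℓ0
  have hℓbig := F.ℓbig
  set x := Real.exp ℓ with hx
  have hx0 : 0 < x := Real.exp_pos _
  set z := w1 ℓ with hz
  set L := Real.log (z : ℝ) with hL
  have hL1' : 1 ≤ L := by linarith [F.z1]
  have hLpos : 0 < L := by linarith
  set ρ := rQ c k n ℓ with hρ
  have hρ0 : 0 < ρ := by rw [hρ]; unfold rQ; positivity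
  set y := yy ℓ with hy
  have hyle : (y : ℝ) ≤ Real.exp (ℓ / 2) := yy_le ℓ
  have ht0 : (0 : ℝ) ≤ t := Nat.cast_nonneg _
  have hKK : (1 : ℝ) ≤ (K : ℝ) ^ 2 := one_le_pow₀ hK1
  have hℓK2 : 10 ^ 9 * (K : ℝ) ^ 2 ≤ ℓ := by
    refine le_trans ?_ hℓK
    exact le_mul_of_one_le_right (by positivity) (by linarith)
  have hℓt : 10 ^ 9 * (K : ℝ) ^ 2 * t ≤ ℓ := by
    refine le_trans ?_ hℓK
    apply mul_le_mul_of_nonneg_left _ (by positivity)
    linarith
  have hℓx : ℓ ≤ x := by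
    have := Real.add_one_le_exp ℓ
    linarith
  have hKt0 : 0 ≤ (K : ℝ) ^ 2 * t := by positivity
  have hbig : 10 ^ 8 * (K : ℝ) ^ 2 * t ≤ x := by linarith
  have hKt1 : 1 * (t : ℝ) ≤ (K : ℝ) ^ 2 * t := mul_le_mul_of_nonneg_right hKK ht0
  have htx : (t : ℝ) ≤ x / 100 := by linarith
  have htℓ : (t : ℝ) ≤ ℓ := by linarith
  have hix : ∀ i : ℕ, i ≤ t → (i : ℝ) ≤ x / 9 := by
    intro i hi
    have : (i : ℝ) ≤ t := by exact_mod_cast hi
    linarith
  -- exceptional prime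
  obtain ⟨q₁, hq₁, hSP⟩ := hL3 ℓ l3
  obtain ⟨e, he, hexc⟩ := exc_prime 200 q₁ hq₁
  have he1 : 1 ≤ e := by
    rcases he with h | ⟨h, _⟩
    · omega
    · exact h.one_le
  set W := WW z e with hWdef
  have hWpos : 0 < W := WW_pos z e
  have hWpos' : (0 : ℝ) < W := by exact_mod_cast hWpos
  have hφpos : (0 : ℝ) < (W.totient : ℝ) := by exact_mod_cast Nat.totient_pos.mpr hWpos
  -- the cover
  obtain ⟨a, ha, hunc⟩ := hcov e
  obtain ⟨A0, _, hA0⟩ := exists_crt z a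
  have hcop : ∀ j, Nat.Coprime (A0 + h j) W := by
    intro j
    rw [hWdef]
    unfold WW
    apply Nat.Coprime.prod_right
    intro p hp
    rw [mem_WWset] at hp
    rw [Nat.coprime_comm, Nat.Prime.coprime_iff_not_dvd hp.1]
    intro hd
    have h1 := (dvd_add_iff_mod (hA0 p hp.1 hp.2.1)).mp hd
    exact ha p hp.1 hp.2.1 (h j) (hmemT j) (nd_dvd_iff.mp h1)
  -- the sieving set
  set P := PT e ℓ with hP
  have hPp : ∀ p ∈ P, p.Prime := fun p hp => (mem_PT.mp hp).1.2.2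
  have hPz : ∀ p ∈ P, z < p := fun p hp => (mem_PT.mp hp).1.1
  have hPe : ∀ p ∈ P, p ≠ e := fun p hp => (mem_PT.mp hp).2
  have hPsub : P ⊆ primesIoc z y := PT_sub hℓbig e
  have hPy : ∀ p ∈ P, p ≤ y := fun p hp => (mem_primesIoc.mp (hPsub hp)).2.1
  have hPh : ∀ p ∈ P, ∀ j j', j ≠ j' → ¬ p ∣ nd (h j) (h j') := by
    intro p hp j j' hjj hd
    have h1 := Nat.le_of_dvd (Nat.pos_of_ne_zero (nd_ne_zero (fun h2 => hjj (hinj h2)))) hd
    have h2 : nd (h j) (h j') ≤ t := nd_le (hhj j).le (hhj j').le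
    have h3 := hPz p hp
    omega
  have hPW : ∀ p ∈ P, ¬ p ∣ W := by
    intro p hp hd
    have h1 := (prime_dvd_WW (hPp p hp)).mp hd
    have h2 := hPz p hp
    omega
  have hzbig := F.zk
  have hk2sq : (0 : ℝ) ≤ (k : ℝ) ^ 2 := sq_nonneg _
  have hPk : ∀ p ∈ P, 2 * k + 2 < p := by
    intro p hp
    have h1 : ((2 * k + 2 : ℕ) : ℝ) < z := by
      push_cast
      linarith
    have h2 : 2 * k + 2 < z := by exact_mod_cast h1
    exact h2.trans (hPz p hp)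
  have hWy : ∀ p, p.Prime → p ∣ W → p ≤ y := by
    intro p hp hpW
    have := (prime_dvd_WW hp).mp hpW
    omega
  -- remainders
  obtain ⟨M, hM0, hMsum, hM⟩ := hL1 ℓ l1 q₁ hSP W hWpos (hW10 e).1 y hyle hWy z hL1' zy2 P hPsub hPW
    (exc_ok he hexc P (fun p hp => ⟨hPp p hp, hPz p hp, hPe p hp⟩))
  change ∑ D ∈ lev P (YQ ℓ), _ ≤ _ at hMsum
  change ∀ (A0 : ℕ) (b : ℕ → ℕ), Nat.Coprime A0 W → ∀ D ∈ lev P (YQ ℓ), _ at hM
  set B := (ℓ / c) ^ k with hB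
  set B' := (ℓ / c) ^ ((k + 1) ^ 2) with hB'
  have hprodB : ∏ p ∈ P, (1 + (k : ℝ) / p) ≤ B :=
    prodk_le hc hcV z y F.z2' hL1' zy2 hyle hℓ0 hPsub k
  have hprodB' : ∏ p ∈ P, (1 + (((k + 1) ^ 2 : ℕ) : ℝ) / p) ≤ B' :=
    prodk_le hc hcV z y F.z2' hL1' zy2 hyle hℓ0 hPsub ((k + 1) ^ 2)
  have hy0 : (0 : ℝ) < y := by
    have := F.z2'
    have : 0 < y := by omega
    exact_mod_cast this
  have hly : Real.log y ≤ ℓ := by
    rw [Real.log_le_iff_le_exp hy0]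
    refine hyle.trans (Real.exp_le_exp.mpr (by linarith))
  have hg0 : ∀ p ∈ P, 0 ≤ 1 / ((p : ℝ) - 1) := by
    intro p hp
    have : (2 : ℝ) ≤ p := by exact_mod_cast (hPp p hp).two_le
    exact div_nonneg zero_le_one (by linarith)
  have hprodg : ∏ p ∈ P, (1 + 1 / ((p : ℝ) - 1)) ≤ ℓ / c := by
    refine (prod_g1_le hc hcV z y F.z2' zy2 P hPsub).trans ?_
    apply div_le_div₀ hℓ0.le hly hc
    exact le_mul_of_one_le_right hc.le hL1'
  have hprodB1 : ∏ p ∈ P, (1 + (k : ℝ) / ((p : ℝ) - 1)) ≤ B := by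
    have h1 : ∏ p ∈ P, (1 + (k : ℝ) / ((p : ℝ) - 1)) = ∏ p ∈ P, (1 + (k : ℝ) * (1 / ((p : ℝ) - 1))) :=
      Finset.prod_congr rfl (fun p _ => by rw [mul_one_div])
    rw [h1]
    refine (prod_one_add_mul_le P _ hg0 k).trans ?_
    exact pow_le_pow_left₀ (Finset.prod_nonneg (fun p hp => by have := hg0 p hp; linarith)) hprodg k
  set E := x * ℓ ^ (-A) / (W.totient : ℝ) with hE
  have hE0 : 0 ≤ E := by positivity
  have hB0 : 0 ≤ B := by positivity
  -- one-dimensional sums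
  have hHL := F.HL hk0 hn0 hc hc1 hk2n hcV e
  have hHU := F.HU hc hcV e
  have hsig := F.sigma e
  have hzpos := F.z0
  have hk1 : (1 : ℝ) ≤ k := by exact_mod_cast hk0
  have hσ1 : 8000 * (k : ℝ) ^ 2 * ∑ p ∈ P, 1 / ((p : ℝ) - 1) ^ 2 ≤ 1 := by
    calc 8000 * (k : ℝ) ^ 2 * ∑ p ∈ P, 1 / ((p : ℝ) - 1) ^ 2 ≤ 8000 * (k : ℝ) ^ 2 * (2 / z) :=
          mul_le_mul_of_nonneg_left hsig (by positivity)
      _ = 16000 * (k : ℝ) ^ 2 / z := by ring
      _ ≤ 1 := by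
          rw [div_le_one hzpos]
          linarith
  set a1 := MT.A1 P (gst n ρ) with ha1
  set a2 := MT.A2 P (gst n ρ) with ha2
  set G := G1 P (R1 ℓ) with hG
  have hA21 : 1 ≤ a2 := A2_ge_one (P := P) hPp (n := n) hn0 hρ0.le
  have ha2low : c / 4 * ρ / L ≤ a2 := by
    rw [ha2]
    apply A2_lower hn0 hρ0.le
    have := hHL 0 (by omega)
    rwa [pow_zero, one_mul] at this
  have ha1nn : 0 ≤ a1 := by
    have h1 := A1_lower (c1 := c / 4) (L := L) (P := P) hn0 hρ0.le (by positivity) hLpos hHL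
    refine le_trans ?_ h1
    positivity
  have ha1le : a1 ≤ ℓ / c := by
    refine le_trans ?_ hprodg
    rw [ha1, Pool.Agent.H90.MT.A1_eq, Finset.prod_one_add]
    apply Finset.sum_le_sum
    intro D hD
    have hDP := Finset.mem_powerset.mp hD
    have hg1 := (gst_GOK hPp hn0 hρ0.le).le_one hDP
    have h1 : ∏ p ∈ D, 1 / (p : ℝ) ≤ ∏ p ∈ D, 1 / ((p : ℝ) - 1) := by
      apply Finset.prod_le_prod
      · intro p _; exact gs_nn1 p
      · intro p hp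
        have : (2 : ℝ) ≤ p := by exact_mod_cast (hPp p (hDP hp)).two_le
        exact one_div_le_one_div_of_le (by linarith) (by linarith)
    have h0 : 0 ≤ ∏ p ∈ D, 1 / (p : ℝ) := Finset.prod_nonneg (fun p _ => gs_nn1 p)
    calc gst n ρ (∏ p ∈ D, p) * ∏ p ∈ D, 1 / (p : ℝ) ≤ 1 * ∏ p ∈ D, 1 / (p : ℝ) :=
          mul_le_mul_of_nonneg_right hg1 h0
      _ ≤ _ := by rw [one_mul]; exact h1
  -- the sums
  set Fn : ℕ → ℝ := LQ h P n ρ ℓ with hFn
  have hpow1 : a2 ^ (k - 1) = a2 ^ (k - 2) * a2 := by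
    rw [← pow_succ]; congr 1; omega
  have hpow2 : a2 ^ k = a2 ^ (k - 2) * a2 ^ 2 := by
    rw [← pow_add]; congr 1; omega
  have hS2 : ∀ j : Fin k, XT ℓ y / (W.totient : ℝ) *
      (a1 ^ 2 * ((1 - 1 / 100) * (a2 ^ (k - 2) * a2))) - B ^ 2 * E ≤
      ∑ ν ∈ S0 ℓ W A0, aw ℓ y (ν + h j) * Fn ν := by
    intro j
    rw [← hpow1]
    exact S2Q hPp hPk hk2 hc hc1 hLpos hℓ0 hn0 hk2n hρ hHL hHU hσ1 h hPh y W A0 j hPy
      (hix _ (hhj j).le) (hcop j) M hM0 hM B E hprodB hMsum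
  have hS1 := S1Q_tent (n := n) (ρ := ρ) (ℓ := ℓ) hk0 hPp (fun p hp => by have := hPk p hp; omega) hn0 hρ0.le
    (by linarith) h hPh W A0 hWpos hPW B B' hprodB hprodB'
  have hS1f := S1Q_flat (n := n) (ρ := ρ) (ℓ := ℓ) hk0 hPp (fun p hp => by have := hPk p hp; omega) hn0 hρ0.le
    (by linarith) h hPh W A0 hWpos hPW B B' hprodB hprodB'
  have hSP : ∀ j j' : Fin k, j ≠ j' → ∑ ν ∈ S0 ℓ W A0, aw ℓ y (ν + h j) *
      (if (ν + h j').Prime ∧ y < ν + h j' then 1 else 0) * Fn ν ≤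
      XT ℓ y / (W.totient : ℝ) * ((1 + 1 / 100) * a1 ^ 4 * a2 ^ (k - 2) / G) +
        (2 * a1 ^ 2 * B) ^ 2 * E := by
    intro j j' hjj
    exact pair_sum hPp hPk hℓ0.le hn0 hρ0.le hσ1 h hPh y W A0 j j' hjj hPy (hix _ (hhj j).le) (hcop j)
      M hM0 hM B E hprodB1 hMsum
  -- assembly
  have hXTnn : 0 ≤ XT ℓ y := Finset.sum_nonneg (fun n _ => aw_nonneg _ _ _)
  have hGpos : 0 < G := by
    have h1 := G1_ge_one P hPp (R1 ℓ) (Real.one_le_exp (by linarith))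
    linarith
  have hphi2 : c * W ≤ (W.totient : ℝ) * L := F.phi_ge hcV e
  have herr' := herr (W.totient : ℝ) (W : ℝ) hφpos hWpos' (by
      refine hphi2.trans ?_
      apply mul_le_mul_of_nonneg_left _ hφpos.le
      refine F.zle2.1.trans ?_
      have := Real.add_one_le_exp (Real.log ℓ)
      rw [Real.exp_log hℓ0] at this
      linarith) (hW10 e).2 a1 ha1nn ha1le (0 : ℝ) le_rfl (by positivity)
  have hB'0 : 0 ≤ B' := by positivity
  have hq1 : 0 ≤ B ^ 2 * (30 * (YQ ℓ * B')) := gs_nn4 hB'0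
  have hq2 : 0 ≤ B ^ 2 * E := gs_nn2 hE0
  have hq3 : 0 ≤ (2 * a1 ^ 2 * B) ^ 2 * E := gs_nn3 hE0
  have hTMx : x ≤ 20 * TM ℓ := by
    have := TM_ge (ℓ := ℓ) (by linarith)
    linarith
  obtain ⟨ht1, hcore⟩ := coreQ2 (x := x) (ℓ := ℓ) (L := L) (φ := (W.totient : ℝ)) (W := (W : ℝ))
    (X := XT ℓ y) (T := TM ℓ)
    (A1 := a1) (A2 := a2) (Ap := a2 ^ (k - 2)) (G := G) (ρ := ρ)
    (c := c) (n := (n : ℝ)) (k := (k : ℝ)) (K := (K : ℝ)) (u0 := 0)
    (t := 1 + 9 / 2 * (K * ((XT ℓ y / (W.totient : ℝ)) * (1 - 1 / 100) * a1 ^ 2 *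
      (a2 ^ (k - 2) * a2) / (ℓ * (TM ℓ / W * (a2 ^ (k - 2) * a2 ^ 2))))))
    (e1 := B ^ 2 * (30 * (YQ ℓ * B'))) (e2 := B ^ 2 * E) (e3 := (2 * a1 ^ 2 * B) ^ 2 * E)
    (S1 := ∑ ν ∈ S0 ℓ W A0, tent (Real.exp ℓ / 3) ν * Fn ν)
    (S1f := ∑ ν ∈ S0 ℓ W A0, Fn ν)
    (S2 := ∑ j, ∑ ν ∈ S0 ℓ W A0, aw ℓ y (ν + h j) * Fn ν)
    (S3 := ∑ j, ∑ j' ∈ Finset.univ.filter (fun j' => j' ≠ j ∧ cl j' = cl j),
        ∑ ν ∈ S0 ℓ W A0, aw ℓ y (ν + h j) * (if (ν + h j').Prime ∧ y < ν + h j' then 1 else 0) * Fn ν)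
    (SU := ∑ i ∈ (∅ : Finset ℕ), ∑ ν ∈ S0 ℓ W A0, aw ℓ y (ν + i) * Fn ν)
    hx0 (by linarith) hLpos hφpos hWpos' hc hc1 hn0' hK1 hkK le_rfl
    (by
      have h1 := A1_lower (c1 := c / 4) (L := L) (P := P) hn0 hρ0.le (by positivity) hLpos hHL
      refine le_trans (le_of_eq ?_) h1
      field_simp; norm_num)
    (by
      have h1 := A2_upper (C1 := 1 / c) (L := L) (P := P) hn0 hρ0.le (by positivity) hLpos hHU
      refine le_trans h1 (le_of_eq ?_)
      field_simp)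
    hA21 (one_le_pow₀ hA21)
    hTMx
    (hXge y hyle) (XT_le y)
    (totient_WW_le z e F.z2') hphi2 (F.G_main e he)
    rfl hnm (by rw [mul_zero, zero_mul]; positivity) rfl rfl
    (by
      refine le_trans ?_ herr'
      have hKk : (K : ℝ) ≤ k := by rw [hkK]; linarith
      have hKk2 : (K : ℝ) ^ 2 ≤ (k : ℝ) ^ 2 := pow_le_pow_left₀ (by linarith) hKk 2
      apply add_le_add _ le_rfl
      apply add_le_add _ le_rfl
      apply add_le_add
      · apply mul_le_mul_of_nonneg_right _ hq2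
        linarith
      · apply mul_le_mul_of_nonneg_right _ hq3
        linarith)
    hq1 hq2 hq3
    (by
      have h1 : ∑ _j : Fin k, (XT ℓ y / (W.totient : ℝ) *
          (a1 ^ 2 * ((1 - 1 / 100) * (a2 ^ (k - 2) * a2))) - B ^ 2 * E) ≤
          ∑ j, ∑ ν ∈ S0 ℓ W A0, aw ℓ y (ν + h j) * Fn ν := Finset.sum_le_sum (fun j _ => hS2 j)
      rw [Finset.sum_const, Finset.card_univ, Fintype.card_fin, nsmul_eq_mul] at h1
      exact h1)
    (by
      set V3 := XT ℓ y / (W.totient : ℝ) * ((1 + 1 / 100) * a1 ^ 4 * a2 ^ (k - 2) / G) +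
        (2 * a1 ^ 2 * B) ^ 2 * E with hV3
      have hV30 : 0 ≤ V3 := gs_nn5 hXTnn hφpos (pow_nonneg (by linarith) _) hGpos hE0
      calc _ ≤ ∑ j : Fin k, ∑ j' ∈ Finset.univ.filter (fun j' => j' ≠ j ∧ cl j' = cl j), V3 := by
            apply Finset.sum_le_sum
            intro j _
            apply Finset.sum_le_sum
            intro j' hj'
            exact hSP j j' (Finset.mem_filter.mp hj').2.1.symm
        _ ≤ ∑ _j : Fin k, ((K : ℝ) - 1) * V3 := by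
            apply Finset.sum_le_sum
            intro j _
            rw [Finset.sum_const, nsmul_eq_mul]
            apply mul_le_mul_of_nonneg_right _ hV30
            have h1 : Finset.univ.filter (fun j' => j' ≠ j ∧ cl j' = cl j) =
                (Finset.univ.filter (fun j' => cl j' = cl j)).erase j := by
              ext j'
              simp only [Finset.mem_filter, Finset.mem_univ, true_and, Finset.mem_erase]
            have h2 : j ∈ Finset.univ.filter (fun j' => cl j' = cl j) := by simp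
            have h3 := Finset.card_erase_add_one h2
            have h4 := hcl (cl j)
            rw [h1]
            have h5 : #((Finset.univ.filter (fun j' => cl j' = cl j)).erase j) + 1 ≤ K := by omega
            have h6 : ((#((Finset.univ.filter (fun j' => cl j' = cl j)).erase j) + 1 : ℕ) : ℝ) ≤ K := by
              exact_mod_cast h5
            push_cast at h6
            linarith
        _ = _ := by
            rw [Finset.sum_const, Finset.card_univ, Fintype.card_fin, nsmul_eq_mul]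
            ring)
    (by rw [← hpow2]; exact hS1)
    (by rw [← hpow2]; exact hS1f)
    (by rw [Finset.sum_empty, zero_mul])
  rw [← sum_brQ] at hcore
  obtain ⟨V, hV⟩ : ∃ V : ℝ, V = TM ℓ / W * (a2 ^ (k - 2) * a2 ^ 2) := ⟨_, rfl⟩
  have hVx : x / W * a2 ^ k ≤ 20 * V := by
    rw [hV, hpow2]
    have h0 : 0 ≤ a2 ^ (k - 2) * a2 ^ 2 := gs_nn6 hA21 _
    calc x / W * (a2 ^ (k - 2) * a2 ^ 2) ≤ (20 * TM ℓ) / W * (a2 ^ (k - 2) * a2 ^ 2) := by gcongr
      _ = _ := by ring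
  -- the class
  refine ⟨e, A0 % W, Nat.mod_lt _ hWpos, ?_⟩
  have hRough : ∀ ν ∈ S0 ℓ W A0, (¬ ∃ j, ∃ p, p.Prime ∧ z < p ∧
      (p = e ∨ (p : ℝ) ≤ Real.exp (δ * ℓ)) ∧ p ∣ ν + h j) →
      ∀ j, ∀ p, p.Prime → p ∣ ν + h j → Real.exp (δ * ℓ) < p ∨ (p = e ∧ p ≤ z) := by
    intro ν hν hnb j p hp hd
    by_cases hpz : p ≤ z
    · by_cases hpe : p = e
      · exact Or.inr ⟨hpe, hpz⟩
      · exfalso
        have hpW : p ∣ W := dvd_WW hp hpz hpe
        unfold S0 at hν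
        rw [Finset.mem_filter] at hν
        have h1 : ν + h j ≡ A0 + h j [MOD W] := Nat.ModEq.add_right _ hν.2
        have h2 : Nat.Coprime (ν + h j) W := by
          have h3 := hcop j
          unfold Nat.Coprime at h3 ⊢
          rw [h1.gcd_eq]; exact h3
        have h4 := Nat.dvd_gcd hd hpW
        rw [h2] at h4
        exact hp.one_lt.ne' (Nat.dvd_one.mp h4)
    · left
      by_contra hcon
      exact hnb ⟨j, p, hp, not_le.mp hpz, Or.inr (not_lt.mp hcon), hd⟩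
  have hcount := count2 (S0 ℓ W A0) (GS ℓ δ e (A0 % W) H) Fn _
    (fun ν => ∃ j, ∃ p, p.Prime ∧ z < p ∧ (p = e ∨ (p : ℝ) ≤ Real.exp (δ * ℓ)) ∧ p ∣ ν + h j)
    (2 * k) (Bd * (ℓ / (c * L)) ^ (2 * k)) (by positivity) (by positivity)
    (fun ν _ => LQ_nonneg _ _ _ _ _ _) (fun ν _ => brQ_le (ℓ := ℓ) (by linarith) y ht1 cl h ∅ ν)
    (by
      intro ν hν hnb
      have hν' := hν
      unfold S0 at hν'
      rw [Finset.mem_filter, Finset.mem_Ioc] at hν'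
      apply LQ_rough hn0 hρ0.le hc hcV (by linarith) z F.z2' hL1' zy2 P hPsub h _ ν hν'.1.1 _ δ hδ0
      · intro j p hp hd
        rcases hRough ν hν hnb j p (hPp p hp) hd with h1 | h1
        · exact h1
        · exact absurd h1.1 (hPe p hp)
      · intro j
        have := hix _ (hhj j).le
        linarith
      · exact (Nat.le_floor_iff hx0.le).mp hν'.1.2)
    (by
      intro ν hν hpos hnb
      have hν' := hν
      unfold S0 at hν'
      rw [Finset.mem_filter, Finset.mem_Ioc] at hν'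
      obtain ⟨⟨j, j', hjj, p1, p2, p3, p4⟩, h2⟩ := brQ_pos hK0 (by linarith) ht1 cl hcl h T hTiff z e t y A0 a
        hA0 hhj hyle zy2 hbig (by linarith) ν hν'.2 (by rw [hunc]; exact hpos)
      obtain ⟨j1, hj1⟩ := brQ_big (by linarith) y cl h ∅ ν hpos
      unfold GS
      rw [Finset.mem_filter, Finset.mem_Ioc]
      refine ⟨hν'.1, hν'.2.trans (Nat.mod_modEq _ _).symm, ?_,
        ⟨cl j, cl j', hjj, ⟨h j, hmemH j, p1⟩, ⟨h j', hmemH j', p3⟩⟩, ?_, ?_⟩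
      · have h3 : (y : ℝ) + 1 ≤ ν + h j1 := by exact_mod_cast hj1
        have h4 : Real.exp (ℓ / 2) < y + 1 := Nat.lt_floor_add_one _
        have h5 : (h j1 : ℝ) ≤ t := by exact_mod_cast (hhj j1).le
        have h6 : Real.exp (ℓ / 3) + ℓ ≤ Real.exp (ℓ / 2) := by
          have e1 : Real.exp (ℓ / 2) = Real.exp (ℓ / 3) * Real.exp (ℓ / 6) := by
            rw [← Real.exp_add]; congr 1; ring
          have e2 := Real.add_one_le_exp (ℓ / 6)
          have e3 := Real.add_one_le_exp (ℓ / 3)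
          have e4 : 0 < Real.exp (ℓ / 3) := Real.exp_pos _
          rw [e1]
          have e5 : Real.exp (ℓ / 3) * (ℓ / 6 + 1) ≤ Real.exp (ℓ / 3) * Real.exp (ℓ / 6) :=
            mul_le_mul_of_nonneg_left e2 e4.le
          have e6 : (ℓ / 3 + 1) * (ℓ / 6) ≤ Real.exp (ℓ / 3) * (ℓ / 6) :=
            mul_le_mul_of_nonneg_right e3 (by linarith)
          have e7 : ℓ ≤ (ℓ / 3 + 1) * (ℓ / 6) := by
            have : ℓ * 1000 ≤ ℓ * ℓ := mul_le_mul_of_nonneg_left hℓbig hℓ0.le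
            linarith
          linarith
        linarith
      · intro u hu huT
        apply h2 u _ _
        · have hu' : u ≤ T.sup id := hu
          omega
        · exact huT
      · intro i τ hτ p hp hd
        have h7 : τ ∈ T := Finset.mem_biUnion.mpr ⟨i, Finset.mem_univ _, hτ⟩
        obtain ⟨j3, hj3⟩ := (hTiff τ).mp h7
        rw [← hj3] at hd
        exact hRough ν hν hnb j3 p hp hd)
  have hbad' := hbad e A0
  have hfin : 5 / 100 * V ≤ 2 * (k : ℝ) * (#(GS ℓ δ e (A0 % W) H) * (Bd * (ℓ / (c * L)) ^ (2 * k))) := by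
    have h1 := hcore.trans hcount
    rw [← hV, mul_add] at h1
    have h2 : 2 * (k : ℝ) * (∑ ν ∈ (S0 ℓ W A0).filter (fun ν => ∃ j, ∃ p, p.Prime ∧ z < p ∧
        (p = e ∨ (p : ℝ) ≤ Real.exp (δ * ℓ)) ∧ p ∣ ν + h j), Fn ν) ≤ 2 / 100 * V := by
      calc 2 * (k : ℝ) * (∑ ν ∈ (S0 ℓ W A0).filter (fun ν => ∃ j, ∃ p, p.Prime ∧ z < p ∧
            (p = e ∨ (p : ℝ) ≤ Real.exp (δ * ℓ)) ∧ p ∣ ν + h j), Fn ν)
          ≤ 2 * k * (1 / (2000 * k) * (x / W * a2 ^ k)) := by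
            apply mul_le_mul_of_nonneg_left hbad' (by positivity)
        _ = 1 / 1000 * (x / W * a2 ^ k) := by field_simp; norm_num
        _ ≤ 1 / 1000 * (20 * V) := mul_le_mul_of_nonneg_left hVx (by norm_num)
        _ = 2 / 100 * V := by ring
    have h3 : 7 / 100 * V ≤ 2 * (k : ℝ) * (#(GS ℓ δ e (A0 % W) H) * (Bd * (ℓ / (c * L)) ^ (2 * k))) +
        2 * (k : ℝ) * (∑ ν ∈ (S0 ℓ W A0).filter (fun ν => ∃ j, ∃ p, p.Prime ∧ z < p ∧
        (p = e ∨ (p : ℝ) ≤ Real.exp (δ * ℓ)) ∧ p ∣ ν + h j), Fn ν) := by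
      refine le_trans (h1.trans_eq ?_) le_rfl
      congr! 4
    linarith
  exact final_num (V := V) (a2 := a2) hx0 hWpos' hc hLpos hℓ0 hkn0 hBd0 hk0' (by rw [hρ, hkn]; rfl) hVx ha2low hfin

end Pool.Agent.H74.QT
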